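import Pool.Agent.helper97.L9.Tail

/-!
# Maximal states, uniform form

`StA G X D`: `D` is the set of roots (one vertex or two adjacent vertices), the bad vertices of a
cut, all of type K0; the number of roots is minimal and the size of the cut is maximal among the
states with one root, or two adjacent roots.  All consequences are fields.
-/

set_option linter.unusedSimpArgs false
set_option linter.unusedSectionVars false

namespace Helper97.L9

open Finset Classical Helper42.L9 Helper33.Off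
open Helper33.L9 (cc)

variable {V : Type*} [Fintype V] {G : SimpleGraph V} {X : V → Prop}

/-- a maximal state with set of roots `D` -/
structure StA (G : SimpleGraph V) (X D : V → Prop) : Prop where
  /-- one or two roots -/
  two : ∃ x z, (x = z ∨ G.Adj x z) ∧ ∀ d, D d ↔ d = x ∨ d = z
  /-- two roots are adjacent -/
  adj : ∀ d e, D d → D e → d ≠ e → G.Adj d e
  /-- roots have only own neighbours -/
  k0 : ∀ d a, D d → G.Adj d a → (X a ↔ X d)
  /-- all other neighbourhoods are bichromatic -/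
  nm : ∀ w, ¬ D w → NM G X w
  /-- star off the roots (also at legs) -/
  star : ∀ v, ¬ D v → Helper33.L9.StarAt G X v
  /-- no leg can be flipped -/
  noflip : ∀ d c, D d → ¬ D c → G.Adj d c → ∃ w, ¬ D w ∧ G.Adj c w ∧ w ∉ pt G X c
  /-- a leg belongs to one root -/
  disj : ∀ d e c, D d → D e → ¬ D c → G.Adj d c → G.Adj e c → d = e
  /-- one root: the own neighbour of a long leg is an end -/
  leg_end1 : (∀ d e, D d → D e → d = e) → ∀ d a a' b, D d → ¬ D a → ¬ D a' → G.Adj d a →
    G.Adj a a' → (X a' ↔ X a) → G.Adj a' b → (X b ↔ X a') → b = a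
  /-- the cross neighbour of a tail has no other cross neighbour -/
  tail1 : ∀ d a a' b y, D d → ¬ D a → ¬ D a' → G.Adj d a → G.Adj a a' → (X a' ↔ X a) →
    G.Adj a' b → (X b ↔ X a') → b ≠ a → G.Adj a y → ¬ (X y ↔ X a) → cr G X y = {a}
  /-- the other leg at a tail is short -/
  tail2 : ∀ d a a' b c, D d → ¬ D a → ¬ D a' → G.Adj d a → G.Adj a a' → (X a' ↔ X a) →
    G.Adj a' b → (X b ↔ X a') → b ≠ a → G.Adj d c → ¬ D c → c ≠ a → c ≠ a' → cc G X c = 2
  /-- two roots and three long legs: the fourth leg is short and dead -/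
  dead : ∀ d e b, D d → D e → d ≠ e → ¬ D b → G.Adj d b →
    (∀ c, ¬ D c → (G.Adj d c ∨ G.Adj e c) → c ≠ b → cc G X c = 3) →
    cc G X b = 2 ∧ ∀ g ∈ cr G X b, cr G X g = {b}
  /-- general repair principle -/
  repair : ∀ (d c : V) (F : V → Prop), D d → ¬ D c → G.Adj d c → F c →
    (∀ v, F v → v = c ∨ (¬ D v ∧ ∀ e, D e → ¬ G.Adj e v)) →
    ∃ w, ¬ D w ∧ ¬ NM G (flipS X F) w
  /-- the most general form: any cut `Y` -/
  forced : ∀ Y, ¬ NoMono G Y

/-- `Fr` off the closed neighbourhood of `D` -/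
theorem StA.fr {D : V → Prop} (h : StA G X D) {v : V} (h1 : ¬ D v) (h2 : ∀ d, D d → ¬ G.Adj v d) :
    Fr G X v :=
  ⟨h.nm v h1, fun w hw => h.nm w fun hd => h2 w hd hw⟩

/-- roots have no cross neighbours -/
theorem StA.cr_root {D : V → Prop} (h : StA G X D) {d : V} (hd : D d) : cr G X d = ∅ := by
  rw [Finset.eq_empty_iff_forall_notMem]
  intro a ha
  have h1 := mem_cr.mp ha
  exact h1.2 (h.k0 d a hd h1.1)

/-- all roots are on one side -/
theorem StA.side {D : V → Prop} (h : StA G X D) {d e : V} (hd : D d) (he : D e) : X d ↔ X e := by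
  by_cases hde : d = e
  · rw [hde]
  · exact h.k0 e d he (h.adj e d he hd (Ne.symm hde))

/-- the fields which only depend on `St` -/
theorem key_fields (hcub : ∀ v, (univ.filter fun b => G.Adj v b).card = 3)
    {R : V → V → Prop} {X : V → Prop} {x z : V} (h : St R G X x z)
    (hxz : x = z ∨ G.Adj x z)
    (h1 : (∀ d e, (d = x ∨ d = z) → (e = x ∨ e = z) → d = e) → ∀ d a a' b, (d = x ∨ d = z) →
      ¬ (a = x ∨ a = z) → ¬ (a' = x ∨ a' = z) → G.Adj d a →
      G.Adj a a' → (X a' ↔ X a) → G.Adj a' b → (X b ↔ X a') → b = a)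
    (h2 : ∀ d a a' b y, (d = x ∨ d = z) → ¬ (a = x ∨ a = z) → ¬ (a' = x ∨ a' = z) → G.Adj d a →
      G.Adj a a' → (X a' ↔ X a) →
      G.Adj a' b → (X b ↔ X a') → b ≠ a → G.Adj a y → ¬ (X y ↔ X a) → cr G X y = {a})
    (h3 : ∀ d a a' b c, (d = x ∨ d = z) → ¬ (a = x ∨ a = z) → ¬ (a' = x ∨ a' = z) → G.Adj d a →
      G.Adj a a' → (X a' ↔ X a) →
      G.Adj a' b → (X b ↔ X a') → b ≠ a → G.Adj d c → ¬ (c = x ∨ c = z) → c ≠ a → c ≠ a' →
      cc G X c = 2)
    (h4 : ∀ d e b, (d = x ∨ d = z) → (e = x ∨ e = z) → d ≠ e → ¬ (b = x ∨ b = z) → G.Adj d b →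
      (∀ c, ¬ (c = x ∨ c = z) → (G.Adj d c ∨ G.Adj e c) → c ≠ b → cc G X c = 3) →
      cc G X b = 2 ∧ ∀ g ∈ cr G X b, cr G X g = {b}) :
    StA G X (fun w => w = x ∨ w = z) := by
  refine ⟨⟨x, z, hxz, fun d => Iff.rfl⟩, ?_, ?_, ?_, ?_, ?_, ?_, h1, h2, h3, h4, ?_, h.forced⟩
  · rintro d e (rfl | rfl) (rfl | rfl) hde
    · exact absurd rfl hde
    · exact hxz.resolve_left hde
    · exact (hxz.resolve_left (Ne.symm hde)).symm
    · exact absurd rfl hde
  · rintro d a (rfl | rfl) had
    · exact h.ps.kx a had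
    · exact h.ps.kz a had
  · intro w hw
    exact h.ps.nm w (fun e => hw (Or.inl e)) (fun e => hw (Or.inr e))
  · intro v hv
    exact h.star hcub (fun e => hv (Or.inl e)) (fun e => hv (Or.inr e))
  · intro d c hd hc hdc
    obtain ⟨w, h1, h2, h3, h4⟩ := h.noflip hcub hd hdc (fun e => hc (Or.inl e))
      (fun e => hc (Or.inr e))
    exact ⟨w, by tauto, h3, h4⟩
  · intro d e c hd he hc hdc hec
    by_contra hne
    have hxz : x ≠ z := by
      rintro rfl
      rcases hd with rfl | rfl <;> rcases he with rfl | rfl <;> exact hne rfl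
    rcases hd with rfl | rfl <;> rcases he with rfl | rfl
    · exact hne rfl
    · exact h.leg_disj hcub hxz hdc hec
    · exact h.leg_disj hcub hxz hec hdc
    · exact hne rfl
  · intro d c F hd hc hdc hFc hF
    obtain ⟨w, h1, h2, h3⟩ := h.no_repairF hcub hd hdc (fun e => hc (Or.inl e))
      (fun e => hc (Or.inr e)) hFc (fun v hv => by
        rcases hF v hv with h4 | ⟨h4, h5⟩
        · exact Or.inl h4
        · right
          refine ⟨fun e => h4 (Or.inl e), fun e => h4 (Or.inr e), h5 x (Or.inl rfl),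
            h5 z (Or.inr rfl)⟩)
    exact ⟨w, by tauto, h3⟩

/-- one root -/
theorem stA_one (hcub : ∀ v, (univ.filter fun b => G.Adj v b).card = 3) {X : V → Prop} {x : V}
    (h : St (fun a b => a = b) G X x x) : StA G X (fun w => w = x ∨ w = x) := by
  have hend : ∀ d a a' b, (d = x ∨ d = x) →
      ¬ (a = x ∨ a = x) → ¬ (a' = x ∨ a' = x) → G.Adj d a →
      G.Adj a a' → (X a' ↔ X a) → G.Adj a' b → (X b ↔ X a') → b = a := by
    intro d a a' b hd ha ha' hda haa hs hb hbs
    exact h.leg_end hcub (Or.inl fun _ _ => Iff.rfl) hd hda (fun e => ha (Or.inl e))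
      (fun e => ha (Or.inr e)) haa hs
      (fun e => ha' (Or.inl e)) (fun e => ha' (Or.inr e)) hb hbs
  refine key_fields hcub h (Or.inl rfl) (fun _ => hend) ?_ ?_ ?_
  · intro d a a' b y hd ha ha' hda haa hs hb hbs hba
    exact absurd (hend d a a' b hd ha ha' hda haa hs hb hbs) hba
  · intro d a a' b c hd ha ha' hda haa hs hb hbs hba
    exact absurd (hend d a a' b hd ha ha' hda haa hs hb hbs) hba
  · intro d e b hd he hde
    exfalso
    apply hde
    rcases hd with rfl | rfl <;> rcases he with rfl | rfl <;> rfl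

/-- two roots -/
theorem stA_two (hcub : ∀ v, (univ.filter fun b => G.Adj v b).card = 3) {X : V → Prop} {x z : V}
    (h : St G.Adj G X x z) : StA G X (fun w => w = x ∨ w = z) := by
  refine key_fields hcub h (Or.inr h.rel) ?_ ?_ ?_ ?_
  · intro h1
    exact absurd (h1 x z (Or.inl rfl) (Or.inr rfl)) h.rel.ne
  · rintro d a a' b y (rfl | rfl) ha ha' hda haa hs hb hbs hba hy h6
    · exact h.tail1 hcub hda (fun e => ha (Or.inr e)) haa hs (fun e => ha' (Or.inl e)) hb hbs hba
        hy h6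
    · exact h.symm'.tail1 hcub hda (fun e => ha (Or.inl e)) haa hs (fun e => ha' (Or.inr e)) hb
        hbs hba hy h6
  · rintro d a a' b c (rfl | rfl) ha ha' hda haa hs hb hbs hba hdc hc hca hca'
    · exact h.tail2 hcub hda (fun e => ha (Or.inr e)) haa hs (fun e => ha' (Or.inl e)) hb hbs hba
        hdc (fun e => hc (Or.inr e)) hca hca'
    · exact h.symm'.tail2 hcub hda (fun e => ha (Or.inl e)) haa hs (fun e => ha' (Or.inr e)) hb
        hbs hba hdc (fun e => hc (Or.inl e)) hca hca'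
  · rintro d e b (rfl | rfl) (rfl | rfl) hde hb hdb hall
    · exact absurd rfl hde
    · exact h.dead hcub hdb (fun e => hb (Or.inr e)) fun c h1 h2 => hall c (by tauto)
    · exact h.symm'.dead hcub hdb (fun e => hb (Or.inl e)) fun c h1 h2 => hall c (by tauto)
    · exact absurd rfl hde

/-- **Existence of maximal states.** -/
theorem exists_StA (hcub : ∀ v, (univ.filter fun b => G.Adj v b).card = 3) (hconn : G.Connected)
    (hK : ∀ u v, u ≠ v → ∃ w, ¬ (G.Adj u w ↔ G.Adj v w)) :
    (∃ X, NoMono G X) ∨ (∃ X D, StA G X D) := by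
  rcases exists_state (R := G.Adj) (fun x z h => h) (fun x z h => h.ne) hcub hconn hK with
    h | ⟨X, x, h⟩ | ⟨X, x, z, _, h⟩
  · exact Or.inl h
  · exact Or.inr ⟨X, _, stA_one hcub h⟩
  · exact Or.inr ⟨X, _, stA_two hcub h⟩

end Helper97.L9
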