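import Pool.Agent.helper33.L9.StackX
import Pool.Agent.helper33.L9.OffFacts
import Pool.Agent.helper97.L9.StA

/-!
# Legs as link vertices

Facts on a maximal state `StA G X D`: own five-cycles without roots are nice and avoid the legs and
the own neighbours of legs; nice cycles avoid the roots; a leg is never a link between two ends, or between an end and a port of a full path; if it is
a link between two ports of full paths then the two ends have a common cross neighbour.
-/

set_option linter.unusedSimpArgs false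
set_option linter.unusedSectionVars false
set_option linter.unusedTactic false

namespace Helper97.L9

open Finset Classical Helper42.L9 Helper33.L9 Helper33.Off
open Pool.Agent.helper40.L9 (Cyc Nice)

variable {V : Type*} [Fintype V] {G : SimpleGraph V} {X D : V → Prop}

/-! ## own five-cycles -/

theorem fin5_1 (i : Fin 5) : i + 1 + 1 = i + 2 := by revert i; decide
theorem fin5_2 (i : Fin 5) : i + 2 + 1 = i + 3 := by revert i; decide
theorem fin5_3 (i : Fin 5) : i + 3 + 1 = i + 4 := by revert i; decide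
theorem fin5_4 (i : Fin 5) : i + 4 + 1 = i := by revert i; decide
theorem fin5_n1 (i : Fin 5) : i ≠ i + 2 := by revert i; decide
theorem fin5_n2 (i : Fin 5) : i + 1 ≠ i + 3 := by revert i; decide
theorem fin5_n3 (i : Fin 5) : i + 2 ≠ i + 4 := by revert i; decide
theorem fin5_n4 (i : Fin 5) : i ≠ i + 1 := by revert i; decide
theorem fin5_n5 (i : Fin 5) : i + 1 ≠ i + 2 := by revert i; decide
theorem fin5_n6 (i : Fin 5) : i ≠ i + 3 := by revert i; decide
theorem fin5_n7 (i : Fin 5) : i + 1 ≠ i + 4 := by revert i; decide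

theorem StA.two' (h : StA G X D) {a b d : V} (ha : D a) (hb : D b) (hab : a ≠ b) (hd : D d) :
    d = a ∨ d = b := by
  obtain ⟨x, z, _, hxz⟩ := h.two
  rw [hxz] at ha hb hd
  rcases ha with rfl | rfl <;> rcases hb with rfl | rfl <;> rcases hd with rfl | rfl <;> tauto

/-- legs are not on own five-cycles without roots -/
theorem StA.cyc_leg (h : StA G X D) {c : Fin 5 → V} (hc : Cyc G X c) (hD : ∀ i, ¬ D (c i))
    (i : Fin 5) {d : V} (hd : D d) : ¬ G.Adj d (c i) := by
  intro hadj
  have hne : c (i + 1) ≠ c (i + 4) := fun e => fin5_n7 i (hc.inj e)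
  refine h.nm (c i) (hD i) (c (i + 1)) (c (i + 4)) d (hc.adj i) (hc.adj' i)
    hadj.symm hne (fun e => hD _ (e ▸ hd)) (fun e => hD _ (e ▸ hd))
    ⟨hc.side2 _ _, ?_⟩
  have h1 := h.k0 d (c i) hd hadj
  have h2 := hc.side2 (i + 1) i
  tauto

/-- own neighbours of legs are not on own five-cycles without roots -/
theorem StA.cyc_end (h : StA G X D) {c : Fin 5 → V} (hc : Cyc G X c) (hD : ∀ i, ¬ D (c i))
    (i : Fin 5) {d a : V}
    (hd : D d) (hda : G.Adj d a) (haa : G.Adj a (c i)) (hs : X (c i) ↔ X a) :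
    False := by
  have hne : c (i + 1) ≠ c (i + 4) := fun e => fin5_n7 i (hc.inj e)
  refine h.nm (c i) (hD i) (c (i + 1)) (c (i + 4)) a (hc.adj i) (hc.adj' i)
    haa.symm hne ?_ ?_ ⟨hc.side2 _ _, ?_⟩
  · intro e
    exact h.cyc_leg hc hD (i + 1) hd (by rw [e]; exact hda)
  · intro e
    exact h.cyc_leg hc hD (i + 4) hd (by rw [e]; exact hda)
  · have h2 := hc.side2 (i + 1) i
    tauto

/-- own five-cycles without roots are nice -/
theorem StA.nice (hcub : ∀ v, (univ.filter fun b => G.Adj v b).card = 3) (h : StA G X D)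
    (c : Fin 5 → V) (hc : Cyc G X c) (hD : ∀ i, ¬ D (c i)) : Nice G X c :=
  nice_of (fun v => (hcub v).le) hc (fun i => h.nm _ (hD i)) (fun i => h.star _ (hD i))

/-- nice five-cycles avoid the roots -/
theorem StA.nice_root (hcub : ∀ v, (univ.filter fun b => G.Adj v b).card = 3) (h : StA G X D)
    {c : Fin 5 → V} (hc : Nice G X c) (i : Fin 5) : ¬ D (c i) := by
  intro hd
  have hne : c (i + 1) ≠ c (i + 4) := fun e => fin5_n7 i (hc.cyc.inj e)
  obtain ⟨u, hu, h1, h2⟩ := row_third hcub (hc.cyc.adj i) (hc.cyc.adj' i) hne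
  rcases hc.own i u hu (h.k0 _ u hd hu) with e | e
  · exact h1 e.symm
  · exact h2 e.symm

/-! ## legs as link vertices -/

theorem StA.rep (h : StA G X D) {x c : V} (hx : D x) (hc : ¬ D c) (hxc : G.Adj x c) :
    Rep G X D x c := by
  intro F hF hF'
  refine h.repair x c F hx hc hxc hF fun v hv => ?_
  rcases hF' v hv with h1 | ⟨_, h1, h2⟩
  · exact Or.inl h1
  · exact Or.inr ⟨h1, h2⟩

theorem StA.not_root (h : StA G X D) {v y : V} (hy : y ∈ cr G X v) : ¬ D v := by
  intro hv
  rw [h.cr_root hv] at hy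
  simp at hy

theorem StA.not_root2 (h : StA G X D) {v : V} (hv : cc G X v = 2) : ¬ D v := by
  have h1 := cc_two.mp hv
  obtain ⟨y, hy⟩ : (cr G X v).Nonempty := by
    rw [← Finset.card_pos]
    omega
  exact h.not_root hy

section

variable (hcub : ∀ v, (univ.filter fun b => G.Adj v b).card = 3)

/-- an end is in the pair of both cross neighbours' ... -/
theorem pt_of_end {c a : V} (ha : cc G X a = 2) (hca : c ∈ cr G X a) : a ∈ pt G X c := by
  have h1 := cc_two.mp ha
  obtain ⟨u, hu, huc⟩ := Finset.exists_mem_ne (s := cr G X a) (by omega) c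
  have h2 := mem_cr.mp hca
  have h3 := mem_cr.mp hu
  exact mem_pt.mpr ⟨h2.1.symm, u, huc, h3.1, by tauto⟩

/-- **(E3)** a leg is not a link between two ends -/
theorem StA.link_end_end (h : StA G X D) (hcub : ∀ v, (univ.filter fun b => G.Adj v b).card = 3)
    {x c a b : V} (hx : D x) (hc : ¬ D c) (hxc : G.Adj x c) (hcr : cr G X c = {a, b})
    (hab : a ≠ b) (ha : cc G X a = 2) (hb : cc G X b = 2) : False := by
  have h1 : a ∈ cr G X c := by rw [hcr]; simp
  have h2 : b ∈ cr G X c := by rw [hcr]; simp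
  exact rep_E3 hcub h.nm (h.rep hx hc hxc) hx hxc (h.k0 x c hx hxc) hcr hab
    (pt_of_end ha (mem_crs.mp h1)) (pt_of_end hb (mem_crs.mp h2))

/-- an end whose own neighbour has a cross neighbour is far from the roots -/
theorem StA.far_of (h : StA G X D) (hcub : ∀ v, (univ.filter fun b => G.Adj v b).card = 3)
    {p v y : V} (hp : cc G X p = 2) (hpv : ownR G X p v) (hy : y ∈ cr G X v) : Far G D p := by
  refine ⟨h.not_root2 hp, fun d hd hdp => ?_⟩
  have h1 : d = v := own_one hcub hp ⟨hdp.symm, h.k0 d p hd hdp⟩ hpv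
  exact h.not_root hy (h1 ▸ hd)

theorem StA.fr_of_far (h : StA G X D) {p : V} (hp : Far G D p) : Fr G X p :=
  h.fr hp.1 fun d hd hpd => hp.2 d hd hpd.symm

/-- an end with four conflicts -/
theorem full_pt (hcub : ∀ v, (univ.filter fun b => G.Adj v b).card = 3) {S : Finset V} {p : V}
    (hp : Fr G X p) (h2 : cc G X p = 2) (h4 : 4 ≤ Dq G X S p) :
    ∀ w, G.Adj p w → w ∈ pt G X p := by
  have h := count_bound (fun v => (hcub v).le) S hp
  have h1 := cc_two.mp h2
  have h3 : (pt G X p).card ≤ 3 := by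
    rw [← hcub p]; exact Finset.card_le_card pt_subset
  unfold Dq at h4
  have h5 : (pt G X p) = univ.filter fun b => G.Adj p b :=
    Finset.eq_of_subset_of_card_le pt_subset (by rw [hcub p]; omega)
  intro w hw
  rw [h5]
  simpa using hw

/-- **(E1)** a leg is not a link between an end `a` and a port `v` of a full path -/
theorem StA.link_end_port (h : StA G X D) (hcub : ∀ v, (univ.filter fun b => G.Adj v b).card = 3)
    {x c a v p : V} (hx : D x) (hc : ¬ D c) (hxc : G.Adj x c) (hcr : cr G X c = {v, a})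
    (hva : v ≠ a) (ha : cc G X a = 2) (hvp : ownR G X v p)
    (hfl : ∀ w, G.Adj p w → w ≠ v → w ∈ pt G X p) (hfar : Far G D p) : False := by
  have h2 : a ∈ cr G X c := by rw [hcr]; simp
  exact rep_E1 hcub h.nm (h.rep hx hc hxc) hx hxc (h.k0 x c hx hxc) hcr hva
    (pt_of_end ha (mem_crs.mp h2)) hvp hfar hfl

/-- (E1) with the number of conflicts -/
theorem StA.link_end_port' (h : StA G X D) (hcub : ∀ v, (univ.filter fun b => G.Adj v b).card = 3)
    {S : Finset V} {x c a v p : V} (hx : D x) (hc : ¬ D c) (hxc : G.Adj x c)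
    (hcr : cr G X c = {v, a}) (hva : v ≠ a) (ha : cc G X a = 2) (hvp : ownR G X v p)
    (hp2 : cc G X p = 2) (h4 : 4 ≤ Dq G X S p) : False := by
  have h2 : v ∈ cr G X c := by rw [hcr]; simp
  have hfar := h.far_of hcub hp2 (ownR_symm hvp) (mem_crs.mp h2)
  exact h.link_end_port hcub hx hc hxc hcr hva ha hvp
    (fun w hw _ => full_pt hcub (h.fr_of_far hfar) hp2 h4 w hw) hfar

/-- **(E2)** a leg which is a link between two ports of full paths: the two ends have a common cross
neighbour -/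
theorem StA.link_port_port (h : StA G X D) (hcub : ∀ v, (univ.filter fun b => G.Adj v b).card = 3)
    {x c v v' p p' : V} (hx : D x) (hc : ¬ D c) (hxc : G.Adj x c) (hcr : cr G X c = {v, v'})
    (hvv : v ≠ v') (hvp : ownR G X v p) (hp2 : cc G X p = 2)
    (hfl : ∀ w, G.Adj p w → w ≠ v → w ∈ pt G X p) (hvp' : ownR G X v' p')
    (hp2' : cc G X p' = 2) (hfl' : ∀ w, G.Adj p' w → w ≠ v' → w ∈ pt G X p') :
    ∃ r, p ≠ p' ∧ cc G X r = 2 ∧ cr G X r = {p, p'} ∧ r ∈ cr G X p ∧ r ∈ cr G X p' := by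
  have h1 : v ∈ cr G X c := by rw [hcr]; simp
  have h2 : v' ∈ cr G X c := by rw [hcr]; simp
  have hfar := h.far_of hcub hp2 (ownR_symm hvp) (mem_crs.mp h1)
  have hfar' := h.far_of hcub hp2' (ownR_symm hvp') (mem_crs.mp h2)
  obtain ⟨r, h3, h4, h5, h6⟩ := rep_E2 hcub h.nm (h.rep hx hc hxc) hx hxc (h.k0 x c hx hxc)
    hcr hvv hvp hfar hfl hvp' hfar' hfl'
  have hpp : p ≠ p' := by
    rintro rfl
    exact hvv (own_one hcub hp2 (ownR_symm hvp) (ownR_symm hvp'))
  have hr : ∀ {q w : V}, cc G X q = 2 → ownR G X w q → r ≠ w → G.Adj q r → r ∈ cr G X q := by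
    intro q w hq hw hrw hqr
    refine mem_cr.mpr ⟨hqr, fun hs => hrw ?_⟩
    exact own_one hcub hq ⟨hqr, hs.symm⟩ (ownR_symm hw)
  have hrp := hr hp2 hvp h3 h5
  have hrp' := hr hp2' hvp' h4 h6
  have hn : NM G X r := h.nm r (h.not_root (mem_crs.mp hrp))
  have h7 := cr_bounds hcub r hn
  have h8 : ({p, p'} : Finset V) ⊆ cr G X r := by
    intro z hz
    rw [Finset.mem_insert, Finset.mem_singleton] at hz
    rcases hz with rfl | rfl
    · exact mem_crs.mp hrp
    · exact mem_crs.mp hrp'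
  have h9 : cr G X r = {p, p'} := by
    symm
    exact Finset.eq_of_subset_of_card_le h8 (by rw [Finset.card_pair hpp]; omega)
  refine ⟨r, hpp, ?_, h9, hrp, hrp'⟩
  exact Helper33.Off.cc_two.mpr (by rw [h9, Finset.card_pair hpp])

/-- (E2) with the numbers of conflicts -/
theorem StA.link_port_port' (h : StA G X D) (hcub : ∀ v, (univ.filter fun b => G.Adj v b).card = 3)
    {S : Finset V} {x c v v' p p' : V} (hx : D x) (hc : ¬ D c) (hxc : G.Adj x c)
    (hcr : cr G X c = {v, v'}) (hvv : v ≠ v') (hvp : ownR G X v p) (hp2 : cc G X p = 2)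
    (h4 : 4 ≤ Dq G X S p) (hvp' : ownR G X v' p') (hp2' : cc G X p' = 2)
    (h4' : 4 ≤ Dq G X S p') :
    ∃ r, p ≠ p' ∧ cc G X r = 2 ∧ cr G X r = {p, p'} ∧ r ∈ cr G X p ∧ r ∈ cr G X p' := by
  have h1 : v ∈ cr G X c := by rw [hcr]; simp
  have h2 : v' ∈ cr G X c := by rw [hcr]; simp
  have hfar := h.far_of hcub hp2 (ownR_symm hvp) (mem_crs.mp h1)
  have hfar' := h.far_of hcub hp2' (ownR_symm hvp') (mem_crs.mp h2)
  exact h.link_port_port hcub hx hc hxc hcr hvv hvp hp2
    (fun w hw _ => full_pt hcub (h.fr_of_far hfar) hp2 h4 w hw) hvp' hp2'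
    (fun w hw _ => full_pt hcub (h.fr_of_far hfar') hp2' h4' w hw)

end

end Helper97.L9
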