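import Pool.Agent.helper97.L9.FMode2

/-!
# The F-mode of the joint stage: two real chords, a virtual and a real chord
-/

set_option autoImplicit false
set_option linter.unusedSectionVars false
set_option linter.unusedSimpArgs false
set_option linter.unusedVariables false

namespace Helper97.L9.F

open Finset Classical Helper33.L9
open Helper42.L9 hiding near gp
open Pool.Agent.helper58.L9 hiding Fr
open Helper17.L9
open Pool.Agent.helper45.L9 (JC)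
open Pool.Agent.helper40.L9 (ParOK JSt Bad Tol LamU JExt)
open Pool.Agent.helper40.L9.J (kk M3 nbm gp Core SdR SdV)

variable {V : Type*} [Fintype V] {G : SimpleGraph V} {X L L2 : V → Prop} {f f2 g : V → ℕ}
  {Z S : Finset V}

theorem M3_bit {M : ℕ} (hM : M ∈ M3) {j : ℕ} (h : M.testBit j = true) : j < 5 := by
  by_contra hj
  have h1 : M < 32 := by
    have : ∀ m ∈ M3, m < 32 := by decide
    exact this M hM
  have h2 : M < 2 ^ j := lt_of_lt_of_le h1 (by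
    calc 32 = 2 ^ 5 := rfl
      _ ≤ 2 ^ j := Nat.pow_le_pow_right (by norm_num) (by omega))
  rw [Nat.testBit_lt_two_pow h2] at h
  exact Bool.false_ne_true h

section

variable {v1 v2 v3 v4 v5 z1 z3 z5 l1 l5 : V} {kA kB : ℕ}
  {pA uA vA qA yA pB uB vB qB yB : ℕ → V} {w1 w3 w3' w5 ba0 bak bb0 bbk : V}
  (hcub : ∀ v, (univ.filter fun b => G.Adj v b).card = 3)
  (H : JC G X Z S L f v1 v2 v3 v4 v5 z1 z3 z5 l1 l5 kA kB pA uA vA qA yA pB uB vB qB yB
    w1 w3 w3' w5 ba0 bak bb0 bbk)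

include H

/-- the own neighbour of a real chord -/
theorem ba0_eq (hk : kA = 0) : ba0 = bak := by
  have h1 := H.n.ak
  have h2 := H.n.a0
  rw [hk] at h1
  rcases h2.all bak h1.hc with e | e | e
  · exact absurd (e ▸ H.n.X4) H.n.Cak
  · exfalso
    have h3 := H.n.Xua
    rw [← e] at h3
    exact H.n.Cak h3
  · exact e.symm

include hcub

/-- **Two real chords.** -/
theorem fmode_RR (hkA : kA = 0) (hkB : kB = 0)
    (Lz1 : L z1) (Lz3 : L z3) (Lz5 : L z5) (Ll1 : L l1) (Ll5 : L l5) (Lw1 : L w1) (Lw5 : L w5)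
    (Lbak : L bak) (Lbbk : L bbk) {c d c' d' : V}
    (nb : Nb G bak (yA kA) c d) (Xd : X d) (Lc : L c) (hd : L d → Even (f d))
    (nb' : Nb G bbk (yB kB) c' d') (Xd' : X d') (Lc' : L c') (hd' : L d' → Even (f d'))
    (hsol : ∃ n1 n2 n3 n4 n5 y y', Core (f z3) n1 n2 n3 n4 n5 ∧
      SdR (f z1) (f w1) (f bak) (f c) (f l1) n1 n2 n3 n4 n5 y ∧
      SdR (f z5) (f w5) (f bbk) (f c') (f l5) n5 n4 n3 n2 n1 y') :
    ∃ f', JSt G X (fun x => L x ∨ LamU v1 v2 v3 v4 v5 kA kB uA vA yA uB vB yB x) f' := by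
  obtain ⟨n1, n2, n3, n4, n5, y, y', core, A, B⟩ := hsol
  have eA := ba0_eq H hkA
  have eB := ba0_eq H.rev hkB
  have sA : Slot G X L f y (yA kA) bak c d := by
    obtain ⟨h1, h2, h3, h4, h5, h6⟩ := A
    exact ⟨nb, Xd, Lbak, Or.inl Lc, h4.symm, fun _ => h5.symm, hd⟩
  have sB : Slot G X L f y' (yB kB) bbk c' d' := by
    obtain ⟨h1, h2, h3, h4, h5, h6⟩ := B
    exact ⟨nb', Xd', Lbbk, Or.inl Lc', h4.symm, fun _ => h5.symm, hd'⟩
  have sA0 : Slot G X L f y (yA 0) ba0 c d := by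
    rw [eA]
    have := sA
    rw [hkA] at this
    exact this
  have sB0 : Slot G X L f y' (yB 0) bb0 c' d' := by
    rw [eB]
    have := sB
    rw [hkB] at this
    exact this
  have h14 : n1 ≠ n4 := by
    obtain ⟨h1, h2, h3, h4, h5, h6, h7, h8, h9, h10, h11, h12, h13, h14, h15, h16, h17⟩ := A
    exact h15
  have h52 : n5 ≠ n2 := by
    obtain ⟨h1, h2, h3, h4, h5, h6, h7, h8, h9, h10, h11, h12, h13, h14, h15, h16, h17⟩ := B
    exact h15
  refine fmode hcub H (fun i h0 hi => absurd hi (by omega)) (fun i h0 hi => absurd hi (by omega))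
    Lz1 Lz3 Lz5 Ll1 Ll5 Lw1 Lw5 sA sA0 sB sB0 core (by rw [eA]; exact FA.ofR A)
    (by rw [eB]; exact FA.ofR B) (fun _ => ⟨rfl, h14⟩) (fun _ => ⟨rfl, h52⟩) (cA := 0) (cB := 0)
    (fun h => absurd hkA h) (fun h => absurd hkB h)

/-- **A virtual and a real chord.** -/
theorem fmode_VR (hkA : kA ≠ 0) (hkB : kB = 0)
    (hNMA : ∀ i, 0 < i → i < kA → ∀ b, ownR G X (yA i) b → NMAt G X b)
    (Lz1 : L z1) (Lz3 : L z3) (Lz5 : L z5) (Ll1 : L l1) (Ll5 : L l5) (Lw1 : L w1) (Lw5 : L w5)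
    (Lbak : L bak) (Lba0 : L ba0) (Lbbk : L bbk) {c d c0 d0 c' d' : V}
    (nb : Nb G bak (yA kA) c d) (Xd : X d) (Lc : L c) (hd : L d → Even (f d))
    (nb0 : Nb G ba0 (yA 0) c0 d0) (Xd0 : X d0) (Lc0 : L c0) (hd0 : L d0 → Even (f d0))
    (nb' : Nb G bbk (yB kB) c' d') (Xd' : X d') (Lc' : L c') (hd' : L d' → Even (f d'))
    {M : ℕ} (hM : M ∈ M3)
    (hp : ∀ j, j < 5 → M.testBit j = true → 2 * j ≠ f (pA 0) ∧ 2 * j ≠ f (qA 0))
    (hsol : ∃ n1 n2 n3 n4 n5 y x u y', Core (f z3) n1 n2 n3 n4 n5 ∧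
      SdV (f z1) (f w1) (f bak) (f c) (f l1) (f ba0) (f c0) M n1 n2 n3 n4 n5 y x u ∧
      SdR (f z5) (f w5) (f bbk) (f c') (f l5) n5 n4 n3 n2 n1 y') :
    ∃ f', JSt G X (fun x => L x ∨ LamU v1 v2 v3 v4 v5 kA kB uA vA yA uB vB yB x) f' := by
  obtain ⟨n1, n2, n3, n4, n5, y, x, u, y', core, A, B⟩ := hsol
  have eB := ba0_eq H.rev hkB
  have FAA := FA.ofV A
  obtain ⟨h1, h2, h3, h4, h5, h6, h7, h8, h9, h10, h11, h12, h13, h14, h15, h16, h17, h18, h19,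
    h20, h21, h22, h23, h24, h25⟩ := A
  have sA : Slot G X L f y (yA kA) bak c d :=
    ⟨nb, Xd, Lbak, Or.inl Lc, h4.symm, fun _ => h5.symm, hd⟩
  have sA0 : Slot G X L f x (yA 0) ba0 c0 d0 :=
    ⟨nb0, Xd0, Lba0, Or.inl Lc0, h10.symm, fun _ => h11.symm, hd0⟩
  have sB : Slot G X L f y' (yB kB) bbk c' d' := by
    obtain ⟨k1, k2, k3, k4, k5, k6⟩ := B
    exact ⟨nb', Xd', Lbbk, Or.inl Lc', k4.symm, fun _ => k5.symm, hd'⟩
  have sB0 : Slot G X L f y' (yB 0) bb0 c' d' := by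
    rw [eB]
    have := sB
    rw [hkB] at this
    exact this
  have h52 : n5 ≠ n2 := by
    obtain ⟨h1, h2, h3, h4, h5, h6, h7, h8, h9, h10, h11, h12, h13, h14, h15, h16, h17⟩ := B
    exact h15
  have hu5 := M3_bit hM (kk_sub h17)
  refine fmode hcub H hNMA (fun i h0 hi => absurd hi (by omega))
    Lz1 Lz3 Lz5 Ll1 Ll5 Lw1 Lw5 sA sA0 sB sB0 core FAA
    (by rw [eB]; exact FA.ofR B) (fun h => absurd h hkA) (fun _ => ⟨rfl, h52⟩) (cA := u)
    (cB := 0) (fun _ => ⟨h18, h25, M, hM, hp, h16, by omega, h17, h13.symm⟩)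
    (fun h => absurd hkB h)

end

end Helper97.L9.F
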