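import Pool.Agent.helper97.L9.JTab

/-!
# The joint stage: `N1`, `N1x`, `N1xx`, `N4`
-/

set_option linter.unusedVariables false

namespace Helper97.L9.J

open Pool.Agent.helper40.L9.J

theorem sub_le {m n : ℕ} (h : sub m n = true) : m ≤ n := by
  unfold sub at h
  rw [Nat.beq_eq] at h
  have : m &&& n = m := h
  rw [← this]
  exact Nat.and_le_right

theorem sub_sing {m s : ℕ} (h : sub m s = true) (hm : m ≠ 0)
    (hs : s = 1 ∨ s = 2 ∨ s = 4 ∨ s = 8 ∨ s = 16) : m = s := by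
  have h1 := sub_le h
  unfold sub at h
  rw [Nat.beq_eq] at h
  rcases hs with rfl | rfl | rfl | rfl | rfl <;> interval_cases m <;> first | rfl | omega | (exfalso; revert h; decide)

theorem not_bad {m n m' n' : ℕ} (h : bad m n = false) (h1 : sub m m' = true)
    (h2 : sub n n' = true) : sdr m' n' = true := by
  unfold bad at h
  rw [Bool.or_eq_false_iff, Bool.or_eq_false_iff] at h
  obtain ⟨⟨hm, hn⟩, hs⟩ := h
  have hm0 : m ≠ 0 := by
    rintro rfl
    simp at hm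
  have hn0 : n ≠ 0 := by
    rintro rfl
    simp at hn
  have hm' : m' ≠ 0 := by
    rintro rfl
    have := sub_le h1
    omega
  have hn' : n' ≠ 0 := by
    rintro rfl
    have := sub_le h2
    omega
  unfold sdr
  by_cases he : m' = n' ∧ (m' = 1 ∨ m' = 2 ∨ m' = 4 ∨ m' = 8 ∨ m' = 16)
  · exfalso
    obtain ⟨rfl, hsg⟩ := he
    have e1 := sub_sing h1 hm0 hsg
    have e2 := sub_sing h2 hn0 hsg
    subst e1
    subst e2
    rcases hsg with rfl | rfl | rfl | rfl | rfl <;> revert hs <;> decide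
  · simp only [Bool.and_eq_true, bne_iff_ne, ne_eq, hm', hn', not_false_eq_true, true_and,
      Bool.not_eq_true', Bool.and_eq_false_iff, beq_eq_false_iff_ne, Bool.or_eq_false_iff]
    by_cases hmn : m' = n'
    · right
      have : ¬ (m' = 1 ∨ m' = 2 ∨ m' = 4 ∨ m' = 8 ∨ m' = 16) := fun h => he ⟨hmn, h⟩
      omega
    · left
      exact hmn

/-- four cells -/
theorem cells {P1 P2 Q1 Q2 : List (ℕ × ℕ)} (h : ok P1 P2 Q1 Q2 = true)
    {m11 m12 m21 m22 n11 n12 n21 n22 : ℕ}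
    (h1 : (P1.any fun p => sub p.1 m11 && sub p.2 m12) = true)
    (h2 : (P2.any fun p => sub p.1 m21 && sub p.2 m22) = true)
    (h3 : (Q1.any fun q => sub q.1 n11 && sub q.2 n21) = true)
    (h4 : (Q2.any fun q => sub q.1 n12 && sub q.2 n22) = true) :
    sdr m11 n11 = true ∨ sdr m12 n12 = true ∨ sdr m21 n21 = true ∨ sdr m22 n22 = true := by
  rw [List.any_eq_true] at h1 h2 h3 h4
  obtain ⟨p1, hp1, h1⟩ := h1
  obtain ⟨p2, hp2, h2⟩ := h2
  obtain ⟨q1, hq1, h3⟩ := h3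
  obtain ⟨q2, hq2, h4⟩ := h4
  rw [Bool.and_eq_true] at h1 h2 h3 h4
  unfold ok at h
  rw [List.all_eq_true] at h
  have h := h p1 hp1
  rw [List.all_eq_true] at h
  have h := h p2 hp2
  rw [Bool.or_eq_true, Bool.not_eq_true', Bool.not_eq_true'] at h
  rcases h with h | h
  · rw [List.any_eq_false] at h
    have h := h q1 hq1
    rw [Bool.not_eq_true, Bool.and_eq_false_iff] at h
    rcases h with h | h
    · exact Or.inl (not_bad h h1.1 h3.1)
    · exact Or.inr (Or.inr (Or.inl (not_bad h h2.1 h3.2)))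
  · rw [List.any_eq_false] at h
    have h := h q2 hq2
    rw [Bool.not_eq_true, Bool.and_eq_false_iff] at h
    rcases h with h | h
    · exact Or.inr (Or.inl (not_bad h h1.2 h4.1))
    · exact Or.inr (Or.inr (Or.inr (not_bad h h2.2 h4.2)))

theorem mem_iff {m : ℕ} {l : List ℕ} : mem m l = true ↔ m ∈ l := by
  unfold mem
  rw [List.any_eq_true]
  constructor
  · rintro ⟨x, hx, h⟩
    rw [Nat.beq_eq] at h
    rwa [h]
  · intro h
    exact ⟨m, h, by rw [Nat.beq_eq]⟩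

theorem rows_ok : (M2.all fun O => tab.any fun r => Nat.beq r.1 O && O.testBit r.2.1 &&
    O.testBit r.2.2.1 && decide (r.2.1 < 5) && decide (r.2.2.1 < 5)) = true := by decide +kernel

/-- the row of `O` -/
theorem row_of {O : ℕ} (h : O ∈ M2) : ∃ r ∈ tab, r.1 = O ∧ O.testBit r.2.1 = true ∧
    O.testBit r.2.2.1 = true ∧ r.2.1 < 5 ∧ r.2.2.1 < 5 := by
  have h1 := rows_ok
  rw [List.all_eq_true] at h1
  have h1 := h1 O h
  rw [List.any_eq_true] at h1
  obtain ⟨r, hr, h1⟩ := h1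
  simp only [Bool.and_eq_true, decide_eq_true_eq] at h1
  obtain ⟨⟨⟨⟨a, b⟩, c⟩, d⟩, e⟩ := h1
  rw [Nat.beq_eq] at a
  exact ⟨r, hr, a, b, c, d, e⟩

theorem cov_of {r : Row} (hr : r ∈ tab) {B C : ℕ} (hB : B ∈ keys) (hC : C ∈ M2) :
    ((get B r.2.2.2).any fun p => sub p.1 (u4 r.2.1 B C) && sub p.2 (u4 r.2.2.1 B C)) = true := by
  have h1 := cov_true
  unfold cov at h1
  rw [List.all_eq_true] at h1
  have h1 := h1 r hr
  unfold covR at h1
  rw [List.all_eq_true] at h1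
  have h1 := h1 B hB
  rw [List.all_eq_true] at h1
  exact h1 C hC

theorem del_key : ∀ B ∈ M4, ∀ a < 5, del B a ∈ keys := by decide +kernel
theorem keys2 : ∀ B ∈ M2, B ∈ keys := by decide +kernel
theorem keys3 : ∀ B ∈ M3, B ∈ keys := by decide +kernel
theorem keys4 : ∀ B ∈ M4, B ∈ keys := by decide +kernel

theorem N1 {O1 O5 B B' : ℕ} {C C' : ℕ → ℕ} (h1 : O1 ∈ M2) (h5 : O5 ∈ M2)
    (hd : ¬ (O1 = O5 ∧ O1 ∈ trio)) (hB : B ∈ M3) (hB' : B' ∈ M3)
    (hC : ∀ a, C a ∈ M2) (hC' : ∀ e, C' e ∈ M2) :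
    ∃ a e, O1.testBit a = true ∧ O5.testBit e = true ∧
      sdr (u4 e B (C a)) (u4 a B' (C' e)) = true := by
  obtain ⟨r1, hr1, e1, a1, a2, _, _⟩ := row_of h1
  obtain ⟨r5, hr5, e5, b1, b2, _, _⟩ := row_of h5
  have h := chk1_true
  unfold chk1 at h
  rw [List.all_eq_true] at h
  have h := h r5 hr5
  unfold chk1R at h
  rw [List.all_eq_true] at h
  have h := h r1 hr1
  rw [Bool.or_eq_true, Bool.and_eq_true] at h
  rcases h with ⟨h, h'⟩ | h
  · exfalso
    rw [Nat.beq_eq, e5, e1] at h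
    rw [mem_iff, e1] at h'
    exact hd ⟨h.symm, h'⟩
  rw [List.all_eq_true] at h
  have h := h B hB
  rw [List.all_eq_true] at h
  have h := h B' hB'
  have kB := keys3 B hB
  have kB' := keys3 B' hB'
  rcases cells h (cov_of hr5 kB (hC r1.2.1)) (cov_of hr5 kB (hC r1.2.2.1))
    (cov_of hr1 kB' (hC' r5.2.1)) (cov_of hr1 kB' (hC' r5.2.2.1)) with h | h | h | h
  · exact ⟨_, _, a1, b1, h⟩
  · exact ⟨_, _, a1, b2, h⟩
  · exact ⟨_, _, a2, b1, h⟩
  · exact ⟨_, _, a2, b2, h⟩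

/-- `x` in a four-element list without `a` -/
theorem N1x {O1 O5 B B' : ℕ} {C C' : ℕ → ℕ} (h1 : O1 ∈ M2) (h5 : O5 ∈ M2)
    (hB : B ∈ M4) (hB' : B' ∈ M3) (hC : ∀ a, C a ∈ M2) (hC' : ∀ e, C' e ∈ M2) :
    ∃ a e, O1.testBit a = true ∧ O5.testBit e = true ∧
      sdr (u4 e (del B a) (C a)) (u4 a B' (C' e)) = true := by
  obtain ⟨r1, hr1, e1, a1, a2, l1, l2⟩ := row_of h1
  obtain ⟨r5, hr5, e5, b1, b2, _, _⟩ := row_of h5
  have h := chk1x_true
  unfold chk1x at h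
  rw [List.all_eq_true] at h
  have h := h r5 hr5
  unfold chk1xR at h
  rw [List.all_eq_true] at h
  have h := h r1 hr1
  rw [List.all_eq_true] at h
  have h := h B hB
  rw [List.all_eq_true] at h
  have h := h B' hB'
  have kB := del_key B hB
  have kB' := keys3 B' hB'
  rcases cells h (cov_of hr5 (kB _ l1) (hC r1.2.1)) (cov_of hr5 (kB _ l2) (hC r1.2.2.1))
    (cov_of hr1 kB' (hC' r5.2.1)) (cov_of hr1 kB' (hC' r5.2.2.1)) with h | h | h | h
  · exact ⟨_, _, a1, b1, h⟩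
  · exact ⟨_, _, a1, b2, h⟩
  · exact ⟨_, _, a2, b1, h⟩
  · exact ⟨_, _, a2, b2, h⟩

theorem N1xx {O1 O5 B B' : ℕ} {C C' : ℕ → ℕ} (h1 : O1 ∈ M2) (h5 : O5 ∈ M2)
    (hB : B ∈ M4) (hB' : B' ∈ M4) (hC : ∀ a, C a ∈ M2) (hC' : ∀ e, C' e ∈ M2) :
    ∃ a e, O1.testBit a = true ∧ O5.testBit e = true ∧
      sdr (u4 e (del B a) (C a)) (u4 a (del B' e) (C' e)) = true := by
  obtain ⟨r1, hr1, e1, a1, a2, l1, l2⟩ := row_of h1
  obtain ⟨r5, hr5, e5, b1, b2, m1, m2⟩ := row_of h5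
  have h := chk1xx_true
  unfold chk1xx at h
  rw [List.all_eq_true] at h
  have h := h r5 hr5
  unfold chk1xxR at h
  rw [List.all_eq_true] at h
  have h := h r1 hr1
  rw [List.all_eq_true] at h
  have h := h B hB
  rw [List.all_eq_true] at h
  have h := h B' hB'
  have kB := del_key B hB
  have kB' := del_key B' hB'
  rcases cells h (cov_of hr5 (kB _ l1) (hC r1.2.1)) (cov_of hr5 (kB _ l2) (hC r1.2.2.1))
    (cov_of hr1 (kB' _ m1) (hC' r5.2.1)) (cov_of hr1 (kB' _ m2) (hC' r5.2.2.1)) with h | h | h | h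
  · exact ⟨_, _, a1, b1, h⟩
  · exact ⟨_, _, a1, b2, h⟩
  · exact ⟨_, _, a2, b1, h⟩
  · exact ⟨_, _, a2, b2, h⟩

/-! ## N4 -/

theorem sdr_elim : ∀ m < 32, ∀ n < 32, sdr m n = true →
    ∃ i < 5, ∃ j < 5, i ≠ j ∧ m.testBit i = true ∧ n.testBit j = true := by decide +kernel

theorem sdr_intro' : ((List.range 32).all fun m => (List.range 32).all fun n =>
    (List.range 5).all fun i => (List.range 5).all fun j =>
    Nat.beq i j || !(m.testBit i) || !(n.testBit j) || sdr m n) = true := by decide +kernel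

theorem sdr_intro (m : ℕ) (hm : m < 32) (n : ℕ) (hn : n < 32) (i : ℕ) (hi : i < 5) (j : ℕ)
    (hj : j < 5) (hij : i ≠ j) (h1 : m.testBit i = true) (h2 : n.testBit j = true) :
    sdr m n = true := by
  have h := sdr_intro'
  rw [List.all_eq_true] at h
  have h := h m (List.mem_range.mpr hm)
  rw [List.all_eq_true] at h
  have h := h n (List.mem_range.mpr hn)
  rw [List.all_eq_true] at h
  have h := h i (List.mem_range.mpr hi)
  rw [List.all_eq_true] at h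
  have h := h j (List.mem_range.mpr hj)
  rw [h1, h2] at h
  have h3 : Nat.beq i j = false := by
    rw [← Bool.not_eq_true, Nat.beq_eq]
    exact hij
  rw [h3] at h
  simpa using h

theorem u4_lt : ∀ e < 5, ∀ B ∈ M2, ∀ C ∈ M2, u4 e B C < 32 := by decide +kernel

theorem u4_lt' : ∀ e < 5, ∀ x < 5, ∀ C ∈ M2, u4 e (sg x) C < 32 := by decide +kernel

theorem u4_split : ∀ e < 5, ∀ B ∈ M2, ∀ C ∈ M2, ∀ i < 5, (u4 e B C).testBit i = true →
    ∃ x < 5, B.testBit x = true ∧ (u4 e (sg x) C).testBit i = true := by decide +kernel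

theorem sub_bit : ∀ X ∈ M2, ∀ B ∈ M4, sub X B = true → ∀ x < 5, X.testBit x = true →
    B.testBit x = true := by decide +kernel

theorem disj_bit : ∀ X ∈ M2, ∀ X' ∈ M2, Nat.beq (Nat.land X X') 0 = true → ∀ x < 5, ∀ x' < 5,
    X.testBit x = true → X'.testBit x' = true → x ≠ x' := by decide +kernel

/-- edge `x x'` -/
theorem N4 {O1 O5 B B' : ℕ} {C C' : ℕ → ℕ} (h1 : O1 ∈ M2) (h5 : O5 ∈ M2)
    (hB : B ∈ M4) (hB' : B' ∈ M4) (hC : ∀ a, C a ∈ M2) (hC' : ∀ e, C' e ∈ M2) :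
    ∃ a e x x', O1.testBit a = true ∧ O5.testBit e = true ∧ B.testBit x = true ∧
      B'.testBit x' = true ∧ x ≠ x' ∧
      sdr (u4 e (sg x) (C a)) (u4 a (sg x') (C' e)) = true := by
  obtain ⟨r1, hr1, e1, a1, a2, l1, l2⟩ := row_of h1
  obtain ⟨r5, hr5, e5, b1, b2, m1, m2⟩ := row_of h5
  have h := chk4_true
  unfold chk4 at h
  rw [List.all_eq_true] at h
  have h := h r5 hr5
  unfold chk4R at h
  rw [List.all_eq_true] at h
  have h := h r1 hr1
  rw [List.any_eq_true] at h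
  obtain ⟨c, hc, h⟩ := h
  rw [Bool.and_eq_true, Bool.and_eq_true] at h
  obtain ⟨⟨_, h⟩, hcov⟩ := h
  rw [List.all_eq_true] at hcov h
  have hcov := hcov B hB
  rw [List.all_eq_true] at hcov
  have hcov := hcov B' hB'
  rw [List.any_eq_true] at hcov
  obtain ⟨X, hX, hXs⟩ := hcov
  have h := h X hX
  simp only [Bool.and_eq_true, mem_iff] at h hXs
  obtain ⟨⟨⟨hX1, hX2⟩, hXd⟩, h⟩ := h
  have key : ∀ a e, a < 5 → e < 5 → O1.testBit a = true → O5.testBit e = true →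
      sdr (u4 e X.1 (C a)) (u4 a X.2 (C' e)) = true →
      ∃ a e x x', O1.testBit a = true ∧ O5.testBit e = true ∧ B.testBit x = true ∧
        B'.testBit x' = true ∧ x ≠ x' ∧
        sdr (u4 e (sg x) (C a)) (u4 a (sg x') (C' e)) = true := by
    intro a e ha he hoa hoe hs
    obtain ⟨i, hi, j, hj, hij, h6, h7⟩ := sdr_elim _ (u4_lt e he _ hX1 _ (hC a)) _
      (u4_lt a ha _ hX2 _ (hC' e)) hs
    obtain ⟨x, hx, hx1, hx2⟩ := u4_split e he _ hX1 _ (hC a) i hi h6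
    obtain ⟨x', hx', hx1', hx2'⟩ := u4_split a ha _ hX2 _ (hC' e) j hj h7
    exact ⟨a, e, x, x', hoa, hoe, sub_bit _ hX1 _ hB hXs.1 x hx hx1,
      sub_bit _ hX2 _ hB' hXs.2 x' hx' hx1', disj_bit _ hX1 _ hX2 hXd x hx x' hx' hx1 hx1',
      sdr_intro _ (u4_lt' e he x hx _ (hC a)) _ (u4_lt' a ha x' hx' _ (hC' e)) i hi j hj hij
        hx2 hx2'⟩
  have kB := keys2 _ hX1
  have kB' := keys2 _ hX2
  rcases cells h (cov_of hr5 kB (hC r1.2.1)) (cov_of hr5 kB (hC r1.2.2.1))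
    (cov_of hr1 kB' (hC' r5.2.1)) (cov_of hr1 kB' (hC' r5.2.2.1)) with h | h | h | h
  · exact key _ _ l1 m1 a1 b1 h
  · exact key _ _ l1 m2 a1 b2 h
  · exact key _ _ l2 m1 a2 b1 h
  · exact key _ _ l2 m2 a2 b2 h

end Helper97.L9.J
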