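import Pool.Agent.helper97.L9.K23Num
import Mathlib.Combinatorics.SimpleGraph.Connectivity.Connected
import Mathlib.Combinatorics.SimpleGraph.Maps

/-!
# Reduction to connected cubic graphs without twins

`top`: if every connected cubic graph in which different vertices have different neighbourhoods
has an `L(2,1)`-labelling with labels `0, ..., 9`, then so has every finite graph of maximum degree
at most three.
-/

set_option linter.unusedSimpArgs false
set_option linter.unusedSectionVars false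

namespace Helper97.L9

open Finset Classical

universe u

/-- `L(2,1)`-labelling with labels `0, ..., 9` -/
def Lab {V : Type u} (G : SimpleGraph V) : Prop :=
  ∃ f : V → ℕ, (∀ v, f v ≤ 9) ∧ (∀ u v, G.Adj u v → 2 ≤ |(f u : ℤ) - (f v : ℤ)|) ∧
    (∀ u v w, u ≠ v → G.Adj u w → G.Adj w v → f u ≠ f v)

/-- maximum degree at most three -/
def D3 {V : Type u} [Fintype V] (G : SimpleGraph V) : Prop :=
  ∀ v, (univ.filter fun b => G.Adj v b).card ≤ 3

/-- twins have degree at most two -/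
def NT {V : Type u} [Fintype V] (G : SimpleGraph V) : Prop :=
  ∀ u v, u ≠ v → (∀ w, G.Adj u w ↔ G.Adj v w) → (univ.filter fun b => G.Adj u b).card < 3

theorem abs_iff {a b : ℕ} : 2 ≤ |(a : ℤ) - (b : ℤ)| ↔ fr a b = true := by
  rw [fr_iff, le_abs]
  omega

theorem fr_symm {a b : ℕ} (h : fr a b = true) : fr b a = true := by
  rw [fr_iff] at h ⊢
  omega

theorem fr_ne {a b : ℕ} (h : fr a b = true) : a ≠ b := by
  rw [fr_iff] at h
  omega

theorem Lab.of_hom {V W : Type u} {G : SimpleGraph V} {H : SimpleGraph W} (φ : V → W)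
    (hφ : Function.Injective φ) (h : ∀ u v, G.Adj u v → H.Adj (φ u) (φ v)) (hH : Lab H) :
    Lab G := by
  obtain ⟨f, h1, h2, h3⟩ := hH
  exact ⟨fun v => f (φ v), fun v => h1 _, fun u v huv => h2 _ _ (h u v huv),
    fun u v w huv huw hwv => h3 _ _ _ (hφ.ne huv) (h _ _ huw) (h _ _ hwv)⟩

theorem Lab.split {V : Type u} {G : SimpleGraph V} (S : Set V)
    (hS : ∀ u ∈ S, ∀ v, G.Adj u v → v ∈ S) (h1 : Lab (G.induce S)) (h2 : Lab (G.induce Sᶜ)) :
    Lab G := by
  obtain ⟨f, f1, f2, f3⟩ := h1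
  obtain ⟨g, g1, g2, g3⟩ := h2
  have hc : ∀ u ∉ S, ∀ v, G.Adj u v → v ∉ S := fun u hu v huv hv => hu (hS v hv u huv.symm)
  refine ⟨fun v => if h : v ∈ S then f ⟨v, h⟩ else g ⟨v, h⟩, fun v => ?_, fun u v huv => ?_,
    fun u v w huv huw hwv => ?_⟩
  · by_cases h : v ∈ S
    · simp only [h, dif_pos]; exact f1 _
    · simp only [h, dif_neg, not_false_eq_true]; exact g1 _
  · by_cases h : u ∈ S
    · have h' := hS u h v huv
      simp only [h, h', dif_pos]
      exact f2 ⟨u, h⟩ ⟨v, h'⟩ huv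
    · have h' := hc u h v huv
      simp only [h, h', dif_neg, not_false_eq_true]
      exact g2 ⟨u, h⟩ ⟨v, h'⟩ huv
  · by_cases h : u ∈ S
    · have h' := hS u h w huw
      have h'' := hS w h' v hwv
      simp only [h, h'', dif_pos]
      exact f3 ⟨u, h⟩ ⟨v, h''⟩ ⟨w, h'⟩ (fun he => huv (congrArg Subtype.val he)) huw hwv
    · have h' := hc u h w huw
      have h'' := hc w h' v hwv
      simp only [h, h'', dif_neg, not_false_eq_true]
      exact g3 ⟨u, h⟩ ⟨v, h''⟩ ⟨w, h'⟩ (fun he => huv (congrArg Subtype.val he)) huw hwv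

theorem D3.induce {V : Type u} [Fintype V] {G : SimpleGraph V} (h : D3 G) (S : Set V)
    [Fintype S] : D3 (G.induce S) := by
  intro v
  refine le_trans ?_ (h v.1)
  apply Finset.card_le_card_of_injOn (fun b => b.1)
  · intro b hb
    simp only [Finset.coe_filter, Finset.mem_univ, true_and, Set.mem_ofPred_eq] at hb ⊢
    exact hb
  · intro a _ b _ hab
    exact Subtype.ext hab

theorem no4 {V : Type u} [Fintype V] {G : SimpleGraph V} (h : D3 G) {w a b c d : V}
    (ha : G.Adj w a) (hb : G.Adj w b) (hc : G.Adj w c) (hd : G.Adj w d)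
    (hab : a ≠ b) (hac : a ≠ c) (had : a ≠ d) (hbc : b ≠ c) (hbd : b ≠ d) (hcd : c ≠ d) :
    False := by
  have h1 : ({a, b, c, d} : Finset V) ⊆ univ.filter fun b => G.Adj w b := by
    intro x hx
    simp only [Finset.mem_insert, Finset.mem_singleton] at hx
    rw [Finset.mem_filter]
    rcases hx with rfl | rfl | rfl | rfl <;> exact ⟨Finset.mem_univ _, by assumption⟩
  have h2 := Finset.card_le_card h1
  have h3 : ({a, b, c, d} : Finset V).card = 4 := by
    rw [Finset.card_insert_of_notMem, Finset.card_insert_of_notMem, Finset.card_insert_of_notMem,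
      Finset.card_singleton]
    · simpa using hcd
    · simp only [Finset.mem_insert, Finset.mem_singleton, not_or]; exact ⟨hbc, hbd⟩
    · simp only [Finset.mem_insert, Finset.mem_singleton, not_or]; exact ⟨hab, hac, had⟩
  have := h w
  omega

/-! ### Gadget at a vertex of degree less than three -/

/-- adjacency of the gadget -/
def gadE (i j : Fin 7) : Bool :=
  decide ((i.val, j.val) ∈ [(0, 1), (1, 0), (0, 2), (2, 0), (1, 3), (3, 1), (2, 3), (3, 2),
    (1, 4), (4, 1), (2, 5), (5, 2), (3, 6), (6, 3), (4, 5), (5, 4), (5, 6), (6, 5), (4, 6),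
    (6, 4)])

theorem gadE_symm : ∀ i j, gadE i j = true → gadE j i = true := by decide

theorem gadE_irr : ∀ i, gadE i i = false := by decide

/-- the graph `G` with the gadget at `w` -/
def gad {V : Type u} (G : SimpleGraph V) (w : V) : SimpleGraph (V ⊕ Fin 7) where
  Adj x y := match x, y with
    | Sum.inl a, Sum.inl b => G.Adj a b
    | Sum.inr i, Sum.inr j => gadE i j = true
    | Sum.inl a, Sum.inr j => a = w ∧ j = 0
    | Sum.inr i, Sum.inl b => b = w ∧ i = 0
  symm := ⟨by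
    rintro (a | i) (b | j) h
    · exact SimpleGraph.Adj.symm (G := G) h
    · exact h
    · exact h
    · exact gadE_symm _ _ h⟩
  loopless := ⟨by
    rintro (a | i) h
    · exact G.loopless.irrefl a h
    · have h' : gadE i i = true := h
      rw [gadE_irr] at h'
      exact Bool.false_ne_true h'⟩

variable {V : Type u}

theorem gad_ll {G : SimpleGraph V} {w a b : V} :
    (gad G w).Adj (Sum.inl a) (Sum.inl b) ↔ G.Adj a b := Iff.rfl

theorem gad_lr {G : SimpleGraph V} {w a : V} {j : Fin 7} :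
    (gad G w).Adj (Sum.inl a) (Sum.inr j) ↔ a = w ∧ j = 0 := Iff.rfl

theorem gad_rl {G : SimpleGraph V} {w a : V} {j : Fin 7} :
    (gad G w).Adj (Sum.inr j) (Sum.inl a) ↔ a = w ∧ j = 0 := Iff.rfl

theorem gad_rr {G : SimpleGraph V} {w : V} {i j : Fin 7} :
    (gad G w).Adj (Sum.inr i) (Sum.inr j) ↔ gadE i j = true := Iff.rfl

/-- degree -/
noncomputable def dgr [Fintype V] (G : SimpleGraph V) (v : V) : ℕ :=
  (univ.filter fun b => G.Adj v b).card

theorem dgr_eq_sum [Fintype V] (G : SimpleGraph V) (v : V) :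
    dgr G v = ∑ b, if G.Adj v b then 1 else 0 := by
  unfold dgr
  rw [Finset.card_filter]

theorem dgr_inl [Fintype V] (G : SimpleGraph V) (w v : V) :
    dgr (gad G w) (Sum.inl v) = dgr G v + if v = w then 1 else 0 := by
  rw [dgr_eq_sum, dgr_eq_sum, Fintype.sum_sum_type]
  congr 1
  · by_cases h : v = w
    · simp only [gad_lr, h, true_and, if_true]
      rw [Finset.sum_ite_eq' Finset.univ (0 : Fin 7) (fun _ => 1)]
      simp
    · simp only [gad_lr, h, false_and, if_false, Finset.sum_const_zero]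

theorem dgr_inr [Fintype V] (G : SimpleGraph V) (w : V) (i : Fin 7) :
    dgr (gad G w) (Sum.inr i) = 3 := by
  rw [dgr_eq_sum, Fintype.sum_sum_type]
  have h1 : (∑ b : V, if (gad G w).Adj (Sum.inr i) (Sum.inl b) then 1 else 0) =
      if i = 0 then 1 else 0 := by
    by_cases h : i = 0
    · simp only [gad_rl, h, and_true, if_true]
      rw [Finset.sum_ite_eq' Finset.univ w (fun _ => 1)]
      simp
    · simp only [gad_rl, h, and_false, if_false, Finset.sum_const_zero]
  have h2 : (∑ j : Fin 7, if (gad G w).Adj (Sum.inr i) (Sum.inr j) then 1 else 0) =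
      ∑ j : Fin 7, if gadE i j = true then 1 else 0 := by
    apply Finset.sum_congr rfl
    intro j _
    simp only [gad_rr]
  rw [h1, h2]
  have h3 : ∀ i : Fin 7, ((if i = 0 then 1 else 0) + ∑ j : Fin 7, if gadE i j = true then 1 else 0)
      = 3 := by decide
  exact h3 i

/-- deficiency -/
noncomputable def dfc [Fintype V] (G : SimpleGraph V) : ℕ := ∑ v, (3 - dgr G v)

theorem dfc_gad [Fintype V] (G : SimpleGraph V) (w : V) (hw : dgr G w < 3) :
    dfc (gad G w) + 1 = dfc G := by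
  unfold dfc
  rw [Fintype.sum_sum_type]
  simp only [dgr_inl, dgr_inr, Nat.sub_self, Finset.sum_const_zero, add_zero]
  rw [← Finset.add_sum_erase _ _ (Finset.mem_univ w),
    ← Finset.add_sum_erase Finset.univ (fun v => 3 - dgr G v) (Finset.mem_univ w)]
  have h : ∀ v ∈ Finset.univ.erase w, 3 - (dgr G v + if v = w then 1 else 0) = 3 - dgr G v := by
    intro v hv
    rw [if_neg (Finset.ne_of_mem_erase hv), add_zero]
  rw [Finset.sum_congr rfl h, if_pos rfl]
  omega

theorem gad_D3 [Fintype V] {G : SimpleGraph V} (h : D3 G) {w : V} (hw : dgr G w < 3) :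
    D3 (gad G w) := by
  rintro (v | i)
  · have h1 := dgr_inl G w v
    have h2 : dgr G v ≤ 3 := h v
    unfold dgr at h1 h2 hw
    rw [h1]
    split_ifs with h3
    · subst h3; omega
    · omega
  · exact (dgr_inr G w i).le

theorem gadE_ne0 : ∀ i : Fin 7, ∃ j : Fin 7, j ≠ 0 ∧ gadE i j = true := by decide

theorem gadE_sep : ∀ i j : Fin 7, i ≠ j → ∃ k : Fin 7, gadE i k ≠ gadE j k := by decide

theorem gad_NT [Fintype V] {G : SimpleGraph V} (h : NT G) {w : V} : NT (gad G w) := by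
  rintro (u | i) (v | j) huv hN
  · have huv' : u ≠ v := fun he => huv (by rw [he])
    have h0 := hN (Sum.inr 0)
    rw [gad_lr, gad_lr] at h0
    have hu : u ≠ w := by
      rintro rfl
      exact huv' (h0.mp ⟨rfl, rfl⟩).1.symm
    have h1 : dgr (gad G w) (Sum.inl u) = dgr G u := by rw [dgr_inl, if_neg hu, add_zero]
    have h2 := h u v huv' fun x => by
      have := hN (Sum.inl x)
      rwa [gad_ll, gad_ll] at this
    unfold dgr at h1
    rw [h1]
    exact h2
  · exfalso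
    obtain ⟨k, hk, hjk⟩ := gadE_ne0 j
    have := hN (Sum.inr k)
    rw [gad_lr, gad_rr] at this
    exact hk (this.mpr hjk).2
  · exfalso
    obtain ⟨k, hk, hik⟩ := gadE_ne0 i
    have := hN (Sum.inr k)
    rw [gad_lr, gad_rr] at this
    exact hk (this.mp hik).2
  · exfalso
    have hij : i ≠ j := fun he => huv (by rw [he])
    obtain ⟨k, hk⟩ := gadE_sep i j hij
    have := hN (Sum.inr k)
    rw [gad_rr, gad_rr] at this
    apply hk
    cases h1 : gadE i k <;> cases h2 : gadE j k <;> simp_all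

theorem gad_conn {G : SimpleGraph V} (h : G.Connected) (w : V) : (gad G w).Connected := by
  rw [SimpleGraph.connected_iff_exists_forall_reachable]
  refine ⟨Sum.inl w, ?_⟩
  have step : ∀ x y : V ⊕ Fin 7, (gad G w).Reachable (Sum.inl w) x → (gad G w).Adj x y →
      (gad G w).Reachable (Sum.inl w) y := fun x y h1 h2 => h1.trans h2.reachable
  have r0 : (gad G w).Reachable (Sum.inl w) (Sum.inr 0) :=
    step _ _ (SimpleGraph.Reachable.refl _) (gad_lr.mpr ⟨rfl, rfl⟩)
  have r1 := step _ (Sum.inr 1) r0 (gad_rr.mpr (by decide))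
  have r2 := step _ (Sum.inr 2) r0 (gad_rr.mpr (by decide))
  have r3 := step _ (Sum.inr 3) r1 (gad_rr.mpr (by decide))
  have r4 := step _ (Sum.inr 4) r1 (gad_rr.mpr (by decide))
  have r5 := step _ (Sum.inr 5) r2 (gad_rr.mpr (by decide))
  have r6 := step _ (Sum.inr 6) r3 (gad_rr.mpr (by decide))
  rintro (v | i)
  · obtain ⟨p⟩ := h.preconnected w v
    have : ∀ a b, G.Walk a b → (gad G w).Reachable (Sum.inl w) (Sum.inl a) →
        (gad G w).Reachable (Sum.inl w) (Sum.inl b) := by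
      intro a b p
      induction p with
      | nil => exact id
      | cons h _ ih => exact fun ha => ih (step _ _ ha (gad_ll.mpr h))
    exact this w v p (SimpleGraph.Reachable.refl _)
  · fin_cases i
    exacts [r0, r1, r2, r3, r4, r5, r6]

/-- the input -/
def CubicCase : Prop :=
  ∀ (V : Type u) [Fintype V] (G : SimpleGraph V),
    (∀ v, (univ.filter fun b => G.Adj v b).card = 3) → G.Connected →
    (∀ u v, u ≠ v → ∃ w, ¬ (G.Adj u w ↔ G.Adj v w)) → Lab G

theorem conn_case (T : CubicCase.{u}) (n : ℕ) : ∀ (V : Type u) [Fintype V] (G : SimpleGraph V),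
    dfc G = n → D3 G → G.Connected → NT G → Lab G := by
  induction n with
  | zero =>
    intro V _ G hn hD hC hN
    have h3 : ∀ v, (univ.filter fun b => G.Adj v b).card = 3 := by
      intro v
      have h1 := (Finset.sum_eq_zero_iff.mp hn) v (Finset.mem_univ v)
      have h2 := hD v
      unfold dgr at h1
      omega
    refine T V G h3 hC fun u v huv => ?_
    by_contra hcon
    push Not at hcon
    have := hN u v huv hcon
    rw [h3] at this
    exact lt_irrefl _ this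
  | succ n ih =>
    intro V _ G hn hD hC hN
    obtain ⟨w, hw⟩ : ∃ w, dgr G w < 3 := by
      by_contra hcon
      push Not at hcon
      have : dfc G = 0 := Finset.sum_eq_zero fun v _ => by have := hcon v; omega
      omega
    have h1 := dfc_gad G w hw
    exact Lab.of_hom Sum.inl Sum.inl_injective (fun _ _ h => gad_ll.mpr h)
      (ih (V ⊕ Fin 7) (gad G w) (by omega) (gad_D3 hD hw) (gad_conn hC w) (gad_NT hN))

/-! ### Twins of degree three -/

section twins

variable [Fintype V] {G : SimpleGraph V} {u v a b c : V}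

/-- the labelling is fine if it is fine outside the `K_{2,3}` and inside -/
theorem lab_of (hD : D3 G) (hu : ∀ x, G.Adj u x ↔ x = a ∨ x = b ∨ x = c)
    (hv : ∀ x, G.Adj v x ↔ x = a ∨ x = b ∨ x = c) (huv : u ≠ v)
    (S : Set V) (hS : ∀ x, x ∈ S ↔ x = u ∨ x = v ∨ x = a ∨ x = b ∨ x = c)
    (F : V → ℕ) (F9 : ∀ x, F x ≤ 9)
    (Fadj : ∀ p q, p ∉ S → q ∉ S → G.Adj p q → fr (F p) (F q) = true)
    (Fne : ∀ p q w, p ∉ S → q ∉ S → w ∉ S → p ≠ q → G.Adj p w → G.Adj w q → F p ≠ F q)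
    (FS : ∀ p q, p ∈ S → q ∈ S → p ≠ q → F p ≠ F q)
    (Fu : ∀ y, (y = a ∨ y = b ∨ y = c) → fr (F y) (F u) = true ∧ fr (F y) (F v) = true)
    (Fll : ∀ y y', (y = a ∨ y = b ∨ y = c) → (y' = a ∨ y' = b ∨ y' = c) → G.Adj y y' →
      fr (F y) (F y') = true)
    (Fenv : ∀ y, (y = a ∨ y = b ∨ y = c) → ∀ p, p ∉ S → G.Adj y p →
      fr (F y) (F p) = true ∧ F u ≠ F p ∧ F v ≠ F p ∧ ∀ q, q ∉ S → G.Adj p q → F y ≠ F q) :
    Lab G := by
  have hleg : ∀ y, (y = a ∨ y = b ∨ y = c) → G.Adj y u ∧ G.Adj y v ∧ y ≠ u ∧ y ≠ v := by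
    intro y hy
    have h1 := ((hu y).mpr hy).symm
    have h2 := ((hv y).mpr hy).symm
    exact ⟨h1, h2, h1.ne, h2.ne⟩
  have hlS : ∀ y, (y = a ∨ y = b ∨ y = c) → y ∈ S := fun y hy => (hS y).mpr (Or.inr (Or.inr hy))
  have hSc : ∀ p, p ∈ S → p = u ∨ p = v ∨ (p = a ∨ p = b ∨ p = c) := fun p hp => (hS p).mp hp
  -- vertices of `S` with a neighbour outside are legs
  have hout : ∀ p q, p ∈ S → q ∉ S → G.Adj p q → (p = a ∨ p = b ∨ p = c) := by
    intro p q hp hq hpq
    rcases hSc p hp with rfl | rfl | h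
    · exact absurd (hlS q ((hu q).mp hpq)) hq
    · exact absurd (hlS q ((hv q).mp hpq)) hq
    · exact h
  have adjSS : ∀ p q, p ∈ S → q ∈ S → G.Adj p q → fr (F p) (F q) = true := by
    intro p q hp hq hpq
    rcases hSc p hp with rfl | rfl | h
    · exact fr_symm (Fu q ((hu q).mp hpq)).1
    · exact fr_symm (Fu q ((hv q).mp hpq)).2
    · rcases hSc q hq with rfl | rfl | h'
      · exact (Fu p h).1
      · exact (Fu p h).2
      · exact Fll p q h h' hpq
  have mixed : ∀ p q w, p ∈ S → q ∉ S → G.Adj p w → G.Adj w q → F p ≠ F q := by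
    intro p q w hp hq hpw hwq
    by_cases hw : w ∈ S
    · have hwl := hout w q hw hq hwq
      obtain ⟨e1, e2, e3⟩ := Fenv w hwl q hq hwq |>.2
      rcases hSc p hp with rfl | rfl | h
      · exact e1
      · exact e2
      · exfalso
        obtain ⟨g1, g2, g3, g4⟩ := hleg w hwl
        obtain ⟨k1, k2, k3, k4⟩ := hleg p h
        have hqS : ∀ z ∈ S, z ≠ q := fun z hz he => hq (he ▸ hz)
        exact no4 hD g1 g2 hpw.symm hwq huv k3.symm (hqS u ((hS u).mpr (Or.inl rfl))) k4.symm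
          (hqS v ((hS v).mpr (Or.inr (Or.inl rfl)))) (hqS p hp)
    · exact ((Fenv p (hout p w hp hw hpw) w hw hpw).2.2.2) q hq hwq
  refine ⟨F, F9, fun p q hpq => abs_iff.mpr ?_, fun p q w hne hpw hwq => ?_⟩
  · by_cases hp : p ∈ S
    · by_cases hq : q ∈ S
      · exact adjSS p q hp hq hpq
      · exact (Fenv p (hout p q hp hq hpq) q hq hpq).1
    · by_cases hq : q ∈ S
      · exact fr_symm (Fenv q (hout q p hq hp hpq.symm) p hp hpq.symm).1
      · exact Fadj p q hp hq hpq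
  · by_cases hp : p ∈ S
    · by_cases hq : q ∈ S
      · exact FS p q hp hq hne
      · exact mixed p q w hp hq hpw hwq
    · by_cases hq : q ∈ S
      · exact (mixed q p w hq hp hwq.symm hpw.symm).symm
      · by_cases hw : w ∈ S
        · exfalso
          have hwl := hout w q hw hq hwq
          obtain ⟨g1, g2, g3, g4⟩ := hleg w hwl
          have hn : ∀ z ∈ S, ∀ r, r ∉ S → z ≠ r := fun z hz r hr he => hr (he ▸ hz)
          exact no4 hD g1 g2 hpw.symm hwq huv (hn u ((hS u).mpr (Or.inl rfl)) p hp)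
            (hn u ((hS u).mpr (Or.inl rfl)) q hq) (hn v ((hS v).mpr (Or.inr (Or.inl rfl))) p hp)
            (hn v ((hS v).mpr (Or.inr (Or.inl rfl))) q hq) hne
        · exact Fne p q w hp hq hw hne hpw hwq

/-- data of the outside at a leg -/
theorem env_exists (hD : D3 G) (huv : u ≠ v) (S : Set V) (huS : u ∈ S) (hvS : v ∈ S)
    (f : V → ℕ) (f9 : ∀ x, f x ≤ 9) {y : V} (hyS : y ∈ S) (hyu : G.Adj y u) (hyv : G.Adj y v) :
    ∃ x s t, x ≤ 9 ∧ s ≤ 9 ∧ t ≤ 9 ∧ ∀ p, p ∉ S → G.Adj y p → f p = x ∧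
      ∀ q, q ∉ S → G.Adj p q → f q = s ∨ f q = t := by
  have hn : ∀ z ∈ S, ∀ r, r ∉ S → z ≠ r := fun z hz r hr he => hr (he ▸ hz)
  by_cases h : ∃ p, p ∉ S ∧ G.Adj y p
  · obtain ⟨p, hp, hyp⟩ := h
    have huniq : ∀ p', p' ∉ S → G.Adj y p' → p' = p := by
      intro p' hp' hyp'
      by_contra hne
      exact no4 hD hyu hyv hyp' hyp huv (hn u huS p' hp') (hn u huS p hp) (hn v hvS p' hp')
        (hn v hvS p hp) hne
    by_cases h1 : ∃ q, q ∉ S ∧ G.Adj p q
    · obtain ⟨q, hq, hpq⟩ := h1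
      by_cases h2 : ∃ q', q' ∉ S ∧ G.Adj p q' ∧ q' ≠ q
      · obtain ⟨q', hq', hpq', hne⟩ := h2
        refine ⟨f p, f q, f q', f9 _, f9 _, f9 _, fun p' hp' hyp' => ?_⟩
        rw [huniq p' hp' hyp']
        refine ⟨rfl, fun r hr hpr => ?_⟩
        by_contra hcon
        push Not at hcon
        exact no4 hD hyp.symm hpq hpq' hpr (hn y hyS q hq) (hn y hyS q' hq') (hn y hyS r hr)
          hne.symm (fun he => hcon.1 (by rw [he])) (fun he => hcon.2 (by rw [he]))
      · push Not at h2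
        refine ⟨f p, f q, f q, f9 _, f9 _, f9 _, fun p' hp' hyp' => ?_⟩
        rw [huniq p' hp' hyp']
        exact ⟨rfl, fun r hr hpr => Or.inl (by rw [h2 r hr hpr])⟩
    · push Not at h1
      refine ⟨f p, 0, 0, f9 _, by omega, by omega, fun p' hp' hyp' => ?_⟩
      rw [huniq p' hp' hyp']
      exact ⟨rfl, fun r hr hpr => absurd hpr (h1 r hr)⟩
  · push Not at h
    exact ⟨0, 0, 0, by omega, by omega, by omega, fun p hp hyp => absurd hyp (h p hp)⟩

/-- labels for the five vertices -/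
theorem lab_five (hD : D3 G) (hu : ∀ x, G.Adj u x ↔ x = a ∨ x = b ∨ x = c)
    (hv : ∀ x, G.Adj v x ↔ x = a ∨ x = b ∨ x = c) (huv : u ≠ v)
    (S : Set V) (hS : ∀ x, x ∈ S ↔ x = u ∨ x = v ∨ x = a ∨ x = b ∨ x = c)
    (f : V → ℕ) (f9 : ∀ x, f x ≤ 9)
    (fadj : ∀ p q, p ∉ S → q ∉ S → G.Adj p q → fr (f p) (f q) = true)
    (fne : ∀ p q w, p ∉ S → q ∉ S → w ∉ S → p ≠ q → G.Adj p w → G.Adj w q → f p ≠ f q)
    (l : V → ℕ) (l9 : ∀ x ∈ S, l x ≤ 9) (lne : ∀ p q, p ∈ S → q ∈ S → p ≠ q → l p ≠ l q)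
    (lu : ∀ y, (y = a ∨ y = b ∨ y = c) → fr (l y) (l u) = true ∧ fr (l y) (l v) = true)
    (lll : ∀ y y', (y = a ∨ y = b ∨ y = c) → (y' = a ∨ y' = b ∨ y' = c) → G.Adj y y' →
      fr (l y) (l y') = true)
    (lenv : ∀ y, (y = a ∨ y = b ∨ y = c) → ∀ p, p ∉ S → G.Adj y p →
      fr (l y) (f p) = true ∧ l u ≠ f p ∧ l v ≠ f p ∧ ∀ q, q ∉ S → G.Adj p q → l y ≠ f q) :
    Lab G := by
  have e1 : ∀ x ∈ S, (if x ∈ S then l x else f x) = l x := fun x hx => if_pos hx
  have e2 : ∀ x, x ∉ S → (if x ∈ S then l x else f x) = f x := fun x hx => if_neg hx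
  have huS : u ∈ S := (hS u).mpr (Or.inl rfl)
  have hvS : v ∈ S := (hS v).mpr (Or.inr (Or.inl rfl))
  have hlS : ∀ y, (y = a ∨ y = b ∨ y = c) → y ∈ S := fun y hy => (hS y).mpr (Or.inr (Or.inr hy))
  refine lab_of hD hu hv huv S hS (fun x => if x ∈ S then l x else f x) ?_ ?_ ?_ ?_ ?_ ?_ ?_
  · intro x
    by_cases hx : x ∈ S
    · simp only [e1 x hx]; exact l9 x hx
    · simp only [e2 x hx]; exact f9 x
  · intro p q hp hq hpq
    simp only [e2 p hp, e2 q hq]
    exact fadj p q hp hq hpq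
  · intro p q w hp hq hw hne h1 h2
    simp only [e2 p hp, e2 q hq]
    exact fne p q w hp hq hw hne h1 h2
  · intro p q hp hq hne
    simp only [e1 p hp, e1 q hq]
    exact lne p q hp hq hne
  · intro y hy
    simp only [e1 y (hlS y hy), e1 u huS, e1 v hvS]
    exact lu y hy
  · intro y y' hy hy' h
    simp only [e1 y (hlS y hy), e1 y' (hlS y' hy')]
    exact lll y y' hy hy' h
  · intro y hy p hp hyp
    simp only [e1 y (hlS y hy), e1 u huS, e1 v hvS, e2 p hp]
    obtain ⟨g1, g2, g3, g4⟩ := lenv y hy p hp hyp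
    refine ⟨g1, g2, g3, fun q hq hpq => ?_⟩
    rw [e2 q hq]
    exact g4 q hq hpq

/-- the labelling of the five vertices, case `a` adjacent to `b` -/
theorem lab_ab (hD : D3 G) (hu : ∀ x, G.Adj u x ↔ x = a ∨ x = b ∨ x = c)
    (hv : ∀ x, G.Adj v x ↔ x = a ∨ x = b ∨ x = c) (huv : u ≠ v) (hab : a ≠ b) (hac : a ≠ c)
    (hbc : b ≠ c) (hadj : G.Adj a b)
    (S : Set V) (hS : ∀ x, x ∈ S ↔ x = u ∨ x = v ∨ x = a ∨ x = b ∨ x = c)
    (f : V → ℕ) (f9 : ∀ x, f x ≤ 9)
    (fadj : ∀ p q, p ∉ S → q ∉ S → G.Adj p q → fr (f p) (f q) = true)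
    (fne : ∀ p q w, p ∉ S → q ∉ S → w ∉ S → p ≠ q → G.Adj p w → G.Adj w q → f p ≠ f q) :
    Lab G := by
  have hleg : ∀ y, (y = a ∨ y = b ∨ y = c) → G.Adj y u ∧ G.Adj y v ∧ y ≠ u ∧ y ≠ v := by
    intro y hy
    have h1 := ((hu y).mpr hy).symm
    have h2 := ((hv y).mpr hy).symm
    exact ⟨h1, h2, h1.ne, h2.ne⟩
  obtain ⟨au, av, nau, nav⟩ := hleg a (Or.inl rfl)
  obtain ⟨bu, bv, nbu, nbv⟩ := hleg b (Or.inr (Or.inl rfl))
  obtain ⟨cu, cv, ncu, ncv⟩ := hleg c (Or.inr (Or.inr rfl))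
  have huS : u ∈ S := (hS u).mpr (Or.inl rfl)
  have hvS : v ∈ S := (hS v).mpr (Or.inr (Or.inl rfl))
  have haS : a ∈ S := (hS a).mpr (Or.inr (Or.inr (Or.inl rfl)))
  have hbS : b ∈ S := (hS b).mpr (Or.inr (Or.inr (Or.inr (Or.inl rfl))))
  have hcS : c ∈ S := (hS c).mpr (Or.inr (Or.inr (Or.inr (Or.inr rfl))))
  have hn : ∀ z ∈ S, ∀ r, r ∉ S → z ≠ r := fun z hz r hr he => hr (he ▸ hz)
  obtain ⟨x, s, t, hx, hs, ht, henv⟩ := env_exists hD huv S huS hvS f f9 hcS cu cv
  obtain ⟨lu, lv, la, lb, lc, g1, g2, g3, g4, g5, g6, g7, g8, g9, g10, g11, g12, g13⟩ :=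
    k23ab hx hs ht
  -- the labels
  set l : V → ℕ := fun y => if y = u then lu else if y = v then lv else if y = a then la else
    if y = b then lb else lc with hl
  have l_u : l u = lu := by simp [hl]
  have l_v : l v = lv := by simp [hl, huv.symm]
  have l_a : l a = la := by simp [hl, nau, nav]
  have l_b : l b = lb := by simp [hl, nbu, nbv, hab.symm]
  have l_c : l c = lc := by simp [hl, ncu, ncv, hac.symm, hbc.symm]
  have ncout : ¬ G.Adj a c := fun h => no4 hD au av hadj h huv nbu.symm ncu.symm nbv.symm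
    ncv.symm hbc
  have ncout' : ¬ G.Adj b c := fun h => no4 hD bu bv hadj.symm h huv nau.symm ncu.symm nav.symm
    ncv.symm hac
  have na : ∀ p, p ∉ S → ¬ G.Adj a p := fun p hp h => no4 hD au av hadj h huv nbu.symm
    (hn u huS p hp) nbv.symm (hn v hvS p hp) (hn b hbS p hp)
  have nb : ∀ p, p ∉ S → ¬ G.Adj b p := fun p hp h => no4 hD bu bv hadj.symm h huv nau.symm
    (hn u huS p hp) nav.symm (hn v hvS p hp) (hn a haS p hp)
  refine lab_five hD hu hv huv S hS f f9 fadj fne l ?_ ?_ ?_ ?_ ?_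
  · intro y hy
    rcases (hS y).mp hy with rfl | rfl | rfl | rfl | rfl
    · rw [l_u]; exact g1
    · rw [l_v]; exact g2
    · rw [l_a]; exact g4
    · rw [l_b]; exact g5
    · rw [l_c]; exact g11.yl
  · have d1 := (fr_ne g6).symm
    have d2 := (fr_ne g7).symm
    have d3 := (fr_ne g8).symm
    have d4 := (fr_ne g9).symm
    have d5 := fr_ne g10
    have d6 := (fr_ne g11.yu).symm
    have d7 := (fr_ne g11.yv).symm
    intro p q hp hq hne
    rcases (hS p).mp hp with rfl | rfl | rfl | rfl | rfl <;>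
      rcases (hS q).mp hq with rfl | rfl | rfl | rfl | rfl <;>
      simp only [l_u, l_v, l_a, l_b, l_c] <;>
      first
        | exact absurd rfl hne
        | assumption
        | (apply Ne.symm; assumption)
  · rintro y (rfl | rfl | rfl)
    · rw [l_a, l_u, l_v]; exact ⟨g6, g7⟩
    · rw [l_b, l_u, l_v]; exact ⟨g8, g9⟩
    · rw [l_c, l_u, l_v]; exact ⟨g11.yu, g11.yv⟩
  · rintro y y' (rfl | rfl | rfl) (rfl | rfl | rfl) h
    · exact absurd rfl h.ne
    · rw [l_a, l_b]; exact g10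
    · exact absurd h ncout
    · rw [l_a, l_b]; exact fr_symm g10
    · exact absurd rfl h.ne
    · exact absurd h ncout'
    · exact absurd h.symm ncout
    · exact absurd h.symm ncout'
    · exact absurd rfl h.ne
  · rintro y (rfl | rfl | rfl) p hp hyp
    · exact absurd hyp (na p hp)
    · exact absurd hyp (nb p hp)
    · obtain ⟨k1, k2⟩ := henv p hp hyp
      rw [l_c, l_u, l_v, k1]
      refine ⟨g11.yx, g11.ux, g11.vx, fun q hq hpq => ?_⟩
      rcases k2 q hq hpq with h | h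
      · rw [h]; exact g11.ys
      · rw [h]; exact g11.yt

/-- the labelling of the five vertices, independent case -/
theorem lab_ind (hD : D3 G) (hu : ∀ x, G.Adj u x ↔ x = a ∨ x = b ∨ x = c)
    (hv : ∀ x, G.Adj v x ↔ x = a ∨ x = b ∨ x = c) (huv : u ≠ v) (hab : a ≠ b) (hac : a ≠ c)
    (hbc : b ≠ c) (h1 : ¬ G.Adj a b) (h2 : ¬ G.Adj a c) (h3 : ¬ G.Adj b c)
    (S : Set V) (hS : ∀ x, x ∈ S ↔ x = u ∨ x = v ∨ x = a ∨ x = b ∨ x = c)
    (f : V → ℕ) (f9 : ∀ x, f x ≤ 9)
    (fadj : ∀ p q, p ∉ S → q ∉ S → G.Adj p q → fr (f p) (f q) = true)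
    (fne : ∀ p q w, p ∉ S → q ∉ S → w ∉ S → p ≠ q → G.Adj p w → G.Adj w q → f p ≠ f q) :
    Lab G := by
  have hleg : ∀ y, (y = a ∨ y = b ∨ y = c) → G.Adj y u ∧ G.Adj y v ∧ y ≠ u ∧ y ≠ v := by
    intro y hy
    have h1 := ((hu y).mpr hy).symm
    have h2 := ((hv y).mpr hy).symm
    exact ⟨h1, h2, h1.ne, h2.ne⟩
  obtain ⟨au, av, nau, nav⟩ := hleg a (Or.inl rfl)
  obtain ⟨bu, bv, nbu, nbv⟩ := hleg b (Or.inr (Or.inl rfl))
  obtain ⟨cu, cv, ncu, ncv⟩ := hleg c (Or.inr (Or.inr rfl))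
  have huS : u ∈ S := (hS u).mpr (Or.inl rfl)
  have hvS : v ∈ S := (hS v).mpr (Or.inr (Or.inl rfl))
  have haS : a ∈ S := (hS a).mpr (Or.inr (Or.inr (Or.inl rfl)))
  have hbS : b ∈ S := (hS b).mpr (Or.inr (Or.inr (Or.inr (Or.inl rfl))))
  have hcS : c ∈ S := (hS c).mpr (Or.inr (Or.inr (Or.inr (Or.inr rfl))))
  obtain ⟨x₁, s₁, t₁, hx₁, hs₁, ht₁, henv₁⟩ := env_exists hD huv S huS hvS f f9 haS au av
  obtain ⟨x₂, s₂, t₂, hx₂, hs₂, ht₂, henv₂⟩ := env_exists hD huv S huS hvS f f9 hbS bu bv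
  obtain ⟨x₃, s₃, t₃, hx₃, hs₃, ht₃, henv₃⟩ := env_exists hD huv S huS hvS f f9 hcS cu cv
  obtain ⟨lu, lv, la, lb, lc, g1, g2, g3, g4, g5, g6, g7, g8, g9⟩ :=
    k23 hx₁ hs₁ ht₁ hx₂ hs₂ ht₂ hx₃ hs₃ ht₃
  set l : V → ℕ := fun y => if y = u then lu else if y = v then lv else if y = a then la else
    if y = b then lb else lc with hl
  have l_u : l u = lu := by simp [hl]
  have l_v : l v = lv := by simp [hl, huv.symm]
  have l_a : l a = la := by simp [hl, nau, nav]
  have l_b : l b = lb := by simp [hl, nbu, nbv, hab.symm]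
  have l_c : l c = lc := by simp [hl, ncu, ncv, hac.symm, hbc.symm]
  refine lab_five hD hu hv huv S hS f f9 fadj fne l ?_ ?_ ?_ ?_ ?_
  · intro y hy
    rcases (hS y).mp hy with rfl | rfl | rfl | rfl | rfl
    · rw [l_u]; exact g1
    · rw [l_v]; exact g2
    · rw [l_a]; exact g4.yl
    · rw [l_b]; exact g5.yl
    · rw [l_c]; exact g6.yl
  · have d1 := (fr_ne g4.yu).symm
    have d2 := (fr_ne g4.yv).symm
    have d3 := (fr_ne g5.yu).symm
    have d4 := (fr_ne g5.yv).symm
    have d6 := (fr_ne g6.yu).symm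
    have d7 := (fr_ne g6.yv).symm
    intro p q hp hq hne
    rcases (hS p).mp hp with rfl | rfl | rfl | rfl | rfl <;>
      rcases (hS q).mp hq with rfl | rfl | rfl | rfl | rfl <;>
      simp only [l_u, l_v, l_a, l_b, l_c] <;>
      first
        | exact absurd rfl hne
        | assumption
        | (apply Ne.symm; assumption)
  · rintro y (rfl | rfl | rfl)
    · rw [l_a, l_u, l_v]; exact ⟨g4.yu, g4.yv⟩
    · rw [l_b, l_u, l_v]; exact ⟨g5.yu, g5.yv⟩
    · rw [l_c, l_u, l_v]; exact ⟨g6.yu, g6.yv⟩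
  · rintro y y' (rfl | rfl | rfl) (rfl | rfl | rfl) h
    · exact absurd rfl h.ne
    · exact absurd h h1
    · exact absurd h h2
    · exact absurd h.symm h1
    · exact absurd rfl h.ne
    · exact absurd h h3
    · exact absurd h.symm h2
    · exact absurd h.symm h3
    · exact absurd rfl h.ne
  · rintro y (rfl | rfl | rfl) p hp hyp
    · obtain ⟨k1, k2⟩ := henv₁ p hp hyp
      rw [l_a, l_u, l_v, k1]
      refine ⟨g4.yx, g4.ux, g4.vx, fun q hq hpq => ?_⟩
      rcases k2 q hq hpq with h | h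
      · rw [h]; exact g4.ys
      · rw [h]; exact g4.yt
    · obtain ⟨k1, k2⟩ := henv₂ p hp hyp
      rw [l_b, l_u, l_v, k1]
      refine ⟨g5.yx, g5.ux, g5.vx, fun q hq hpq => ?_⟩
      rcases k2 q hq hpq with h | h
      · rw [h]; exact g5.ys
      · rw [h]; exact g5.yt
    · obtain ⟨k1, k2⟩ := henv₃ p hp hyp
      rw [l_c, l_u, l_v, k1]
      refine ⟨g6.yx, g6.ux, g6.vx, fun q hq hpq => ?_⟩
      rcases k2 q hq hpq with h | h
      · rw [h]; exact g6.ys
      · rw [h]; exact g6.yt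

/-- **Twin reduction.** -/
theorem twins (hD : D3 G) (huv : u ≠ v) (hN : ∀ w, G.Adj u w ↔ G.Adj v w)
    (h3 : (univ.filter fun b => G.Adj u b).card = 3)
    (ih : ∀ S : Set V, u ∈ S → Lab (G.induce Sᶜ)) : Lab G := by
  obtain ⟨a, b, c, hab, hac, hbc, he⟩ := Finset.card_eq_three.mp h3
  have hu : ∀ x, G.Adj u x ↔ x = a ∨ x = b ∨ x = c := by
    intro x
    have h1 : x ∈ (univ.filter fun b => G.Adj u b) ↔ G.Adj u x := by simp
    rw [← h1, he]
    simp
  have hv : ∀ x, G.Adj v x ↔ x = a ∨ x = b ∨ x = c := fun x => (hN x).symm.trans (hu x)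
  set S : Set V := {x | x = u ∨ x = v ∨ x = a ∨ x = b ∨ x = c} with hSdef
  have hS : ∀ x, x ∈ S ↔ x = u ∨ x = v ∨ x = a ∨ x = b ∨ x = c := fun x => Iff.rfl
  obtain ⟨g, g9, gadj, gne⟩ := ih S (Or.inl rfl)
  set f : V → ℕ := fun x => if h : x ∈ Sᶜ then g ⟨x, h⟩ else 0 with hf
  have fe : ∀ x (h : x ∉ S), f x = g ⟨x, h⟩ := fun x h => dif_pos (show x ∈ Sᶜ from h)
  have f9 : ∀ x, f x ≤ 9 := by
    intro x
    by_cases h : x ∉ S
    · rw [fe x h]; exact g9 _
    · have : f x = 0 := dif_neg h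
      omega
  have fadj : ∀ p q, p ∉ S → q ∉ S → G.Adj p q → fr (f p) (f q) = true := by
    intro p q hp hq hpq
    rw [fe p hp, fe q hq]
    exact abs_iff.mp (gadj ⟨p, hp⟩ ⟨q, hq⟩ hpq)
  have fne : ∀ p q w, p ∉ S → q ∉ S → w ∉ S → p ≠ q → G.Adj p w → G.Adj w q → f p ≠ f q := by
    intro p q w hp hq hw hne hpw hwq
    rw [fe p hp, fe q hq]
    exact gne ⟨p, hp⟩ ⟨q, hq⟩ ⟨w, hw⟩ (fun h => hne (congrArg Subtype.val h)) hpw hwq
  by_cases h1 : G.Adj a b
  · exact lab_ab hD hu hv huv hab hac hbc h1 S hS f f9 fadj fne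
  · by_cases h2 : G.Adj a c
    · exact lab_ab (a := a) (b := c) (c := b) hD (fun x => (hu x).trans (by tauto))
        (fun x => (hv x).trans (by tauto)) huv hac hab hbc.symm h2 S
        (fun x => (hS x).trans (by tauto)) f f9 fadj fne
    · by_cases h3 : G.Adj b c
      · exact lab_ab (a := b) (b := c) (c := a) hD (fun x => (hu x).trans (by tauto))
          (fun x => (hv x).trans (by tauto)) huv hbc hab.symm hac.symm h3 S
          (fun x => (hS x).trans (by tauto)) f f9 fadj fne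
      · exact lab_ind hD hu hv huv hab hac hbc h1 h2 h3 S hS f f9 fadj fne

end twins

/-- **Top level.** -/
theorem top (T : CubicCase.{u}) (n : ℕ) : ∀ (V : Type u) [Fintype V] (G : SimpleGraph V),
    Fintype.card V = n → D3 G → Lab G := by
  induction n using Nat.strong_induction_on with
  | _ n ih =>
    intro V _ G hn hD
    have sub : ∀ S : Set V, (∃ x, x ∉ S) → Lab (G.induce S) := by
      rintro S ⟨x, hx⟩
      refine ih (Fintype.card S) ?_ S (G.induce S) rfl (hD.induce S)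
      rw [← hn]
      exact Fintype.card_subtype_lt hx
    by_cases hne : Nonempty V
    · obtain ⟨x0⟩ := hne
      by_cases hC : G.Connected
      · by_cases hN : NT G
        · exact conn_case T _ V G rfl hD hC hN
        · unfold NT at hN
          push Not at hN
          obtain ⟨u, v, huv, hN, h3⟩ := hN
          exact twins hD huv hN (le_antisymm (hD u) h3) fun S hS => sub Sᶜ ⟨u, fun h => h hS⟩
      · -- a proper closed set
        set S : Set V := {y | G.Reachable x0 y} with hS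
        have hcl : ∀ u ∈ S, ∀ v, G.Adj u v → v ∈ S := fun u hu v huv =>
          SimpleGraph.Reachable.trans hu huv.reachable
        have hx : ∃ x, x ∉ S := by
          by_contra hcon
          push Not at hcon
          apply hC
          rw [SimpleGraph.connected_iff_exists_forall_reachable]
          exact ⟨x0, hcon⟩
        exact Lab.split S hcl (sub S hx)
          (sub Sᶜ ⟨x0, fun h => h (SimpleGraph.Reachable.refl x0)⟩)
    · exact ⟨fun _ => 0, fun v => (hne ⟨v⟩).elim, fun v => (hne ⟨v⟩).elim,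
        fun v => (hne ⟨v⟩).elim⟩

end Helper97.L9
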