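import Pool.Agent.helper33.L9.T1J
import Pool.Agent.helper17.L9.LoopRegion
import Pool.Agent.helper58.L9.KgMain
import Pool.Agent.helper58.L9.K5Fin
import Pool.Agent.helper97.L9.StA
import Pool.Agent.helper97.L9.Top

/-!
# Assembly

The cubic case from `T1` (a cut without monochromatic neighbourhoods) and `T3` (a maximal state with
one or two roots), and all graphs with maximum degree at most three.
-/

namespace Helper97.L9

open Finset Classical Helper42.L9 Helper33.L9

universe u

/-- the statement of `T3` -/
def T3 : Prop :=
  ∀ (V : Type u) [Fintype V] (G : SimpleGraph V),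
    (∀ v, (univ.filter fun b => G.Adj v b).card = 3) → ∀ X D : V → Prop, StA G X D → Lab G

/-- the extension theorem of the joint stage -/
def JAll : Prop :=
  ∀ (V : Type u) [Fintype V] (G : SimpleGraph V),
    (∀ v, (univ.filter fun b => G.Adj v b).card = 3) → ∀ X : V → Prop, World G X →
      Helper33.Joint.JExtT G X

theorem t1 (hJ : JAll.{u}) (V : Type u) [Fintype V] (G : SimpleGraph V)
    (hcub : ∀ v, (univ.filter fun b => G.Adj v b).card = 3) (hX : ∃ X, NoMono G X) : Lab G := by
  obtain ⟨X, hW⟩ := exists_world (fun v => (hcub v).le) hX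
  exact Helper33.Joint.t1_of_joint hcub hW
    (Helper17.L9.loop_region hW.noMono hcub hW.star)
    (Pool.Agent.helper58.L9.k5_region hW.noMono hcub)
    (Pool.Agent.helper58.L9.k4_region hW.noMono hcub hW.star) (hJ V G hcub X hW)

theorem cubicCase (hJ : JAll.{u}) (hT3 : T3.{u}) : CubicCase.{u} := by
  intro V _ G hcub hconn hK
  rcases exists_StA hcub hconn hK with h | ⟨X, D, h⟩
  · exact t1 hJ V G hcub h
  · exact hT3 V G hcub X D h

/-- **All graphs with maximum degree at most three** -/
theorem main (hJ : JAll.{u}) (hT3 : T3.{u}) (V : Type u) [Fintype V] (G : SimpleGraph V)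
    (hD : D3 G) : Lab G :=
  top (cubicCase hJ hT3) _ V G rfl hD

end Helper97.L9
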