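import Pool.Agent.helper33.L9.OffLoop
import Pool.Agent.helper33.L9.Config

/-!
# `U_5`'s in graph terms, local hypotheses

A copy of helper17's `OffConfig` on top of `OffLoop` (the original has namesakes of `OffLoop`).
-/

set_option linter.unusedSimpArgs false
set_option linter.unusedSectionVars false

namespace Helper97.L9

open Finset Classical Helper42.L9 Helper33.L9 Helper33.Off

variable {V : Type*} [Fintype V] {G : SimpleGraph V} {X : V → Prop} {Z S : Finset V}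

section

variable {N : V → Prop} (hN : ∀ v, N v → Fr G X v) (hst : ∀ v, N v → StarAt G X v)
  (hcub : ∀ v, (univ.filter fun b => G.Adj v b).card = 3)

include hcub in
/-- the outer link of an end of full degree -/
theorem outer_link (hI : InvZ G X Z) (h : StuckZ G X Z S) {a y z : V} (hF : Fr G X a)
    (haS : a ∈ S) (h2 : cc G X a = 2) (h4 : 4 ≤ Dq G X S a) (hcr : cr G X a = {y, z})
    (hyz : y ≠ z) : ∃ l, cr G X z = {a, l} ∧ z ∈ Z ∧ cc G X z = 2 ∧ l ∈ S ∧ l ≠ a := by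
  have h3 := count_bound (fun v => (hcub v).le) S hF
  have h5 := cc_two.mp h2
  have h6 : (pt G X a).card ≤ (univ.filter fun b => G.Adj a b).card :=
    Finset.card_le_card pt_subset
  have h7 := hcub a
  unfold Dq at h4
  have h8 : (pt G X a).card = 3 := by omega
  have h9 : pt G X a = univ.filter fun b => G.Adj a b :=
    Finset.eq_of_subset_of_card_le pt_subset (by omega)
  have h10 : ((pt G X a).filter fun w => partner G X w a ∉ S).card = 0 := by omega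
  rw [Finset.card_eq_zero, Finset.filter_eq_empty_iff] at h10
  have hz : z ∈ cr G X a := by rw [hcr]; simp
  have hz' := mem_cr.mp hz
  have hzp : z ∈ pt G X a := by
    rw [h9]
    simp [hz'.1]
  obtain ⟨g1, g2, g3⟩ := partner_spec hzp
  have hlS : partner G X z a ∈ S := not_not.mp (h10 hzp)
  have hzl : z ∈ cr G X (partner G X z a) := by
    refine mem_cr.mpr ⟨g2.symm, ?_⟩
    have h11 := hz'.2
    tauto
  obtain ⟨k1, k2, k3⟩ := inv_link hcub hI (hF.nb z hz'.1) (h.1 haS) (h.1 hlS) g1.symm hz hzl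
  exact ⟨_, k3, k1, k2, hlS, g1⟩

/-- the inner vertices `v2`, `v4`, `v3` of a path `v1 .. v5` with ends `v1`, `v5` are no middles
of a `P_4` -/
theorem five_noMid {v1 v2 v3 v4 : V} (n2 : NM G X v2) (n3 : NM G X v3) (c1 : cc G X v1 = 2)
    (c2 : cc G X v2 = 3) (c3 : cc G X v3 = 3) (c4 : cc G X v4 = 3)
    (o12 : ownR G X v1 v2) (o23 : ownR G X v2 v3) (o34 : ownR G X v3 v4) (h24 : v2 ≠ v4) :
    NoMid G X v2 := by
  have n13 : v1 ≠ v3 := by rintro rfl; omega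
  rintro b ⟨_, hb3, hb, _, ⟨s, hs, hs2⟩⟩
  have hb3' : b = v3 := by
    rcases own_two n2 (ownR_symm o12) o23 hb with h' | h' | h'
    · exact absurd h' n13
    · rw [h'] at c1; omega
    · exact h'.symm
  subst hb3'
  rcases own_two n3 (ownR_symm o23) o34 hs with h' | h' | h'
  · exact h24 h'
  · rw [h'] at c2; omega
  · rw [h'] at c4; omega

include hcub in
/-- **`U_5`'s in graph terms**, from the two wires. -/
theorem u5_of_wires (hI : InvZ G X Z) (h : StuckZ G X Z S)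
    {v1 v2 v3 v4 v5 : V} (f1 : Fr G X v1) (f2 : Fr G X v2) (f3 : Fr G X v3) (f4 : Fr G X v4)
    (f5 : Fr G X v5) (s2 : StarAt G X v2) (s3 : StarAt G X v3)
    (c1 : cc G X v1 = 2) (c2 : cc G X v2 = 3) (c3 : cc G X v3 = 3)
    (c4 : cc G X v4 = 3) (c5 : cc G X v5 = 2) (o12 : ownR G X v1 v2) (o23 : ownR G X v2 v3)
    (o34 : ownR G X v3 v4) (o45 : ownR G X v4 v5) (h24 : v2 ≠ v4)
    (d1 : 4 ≤ dg (QE G X S).val v1) (d5 : 4 ≤ dg (QE G X S).val v5)
    {kA kB : ℕ} {pA uA vA qA yA pB uB vB qB yB : ℕ → V}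
    (hA' : Wire G X Z S kA pA uA vA qA yA v4 v1) (hB' : Wire G X Z S kB pB uB vB qB yB v2 v5)
    (dAB : ∀ i < kA, ∀ j < kB, uA i ≠ uB j ∧ uA i ≠ vB j ∧ vA i ≠ uB j ∧ vA i ≠ vB j)
    (dy : ∀ i ≤ kA, ∀ j ≤ kB, yA i ≠ yB j) :
    ∃ (z1 z3 z5 l1 l5 : V),
      U5 G X Z S v1 v2 v3 v4 v5 z1 z3 z5 l1 l5 kA kB pA uA vA qA yA pB uB vB qB yB := by
  have n12 := ownR_ne o12
  have n23 := ownR_ne o23
  have n34 := ownR_ne o34
  have n45 := ownR_ne o45
  have n13 : v1 ≠ v3 := by rintro rfl; omega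
  have n14 : v1 ≠ v4 := by rintro rfl; omega
  have n25 : v2 ≠ v5 := by rintro rfl; omega
  have n35 : v3 ≠ v5 := by rintro rfl; omega
  have n15 : v1 ≠ v5 := by
    rintro rfl
    exact h24 (own_one hcub c1 o12 (ownR_symm o45))
  -- membership
  have hv1S : v1 ∈ S := by
    by_contra hn
    rw [dg_QE_notMem hn] at d1
    omega
  have hv5S : v5 ∈ S := by
    by_contra hn
    rw [dg_QE_notMem hn] at d5
    omega
  rw [dg_QE hv1S] at d1
  rw [dg_QE hv5S] at d5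
  -- the middles `v2`, `v4` are no middles of a `P_4`
  have m2 : NoMid G X v2 := five_noMid f2.self f3.self c1 c2 c3 c4 o12 o23 o34 h24
  have m4 : NoMid G X v4 := five_noMid f4.self f3.self c5 c4 c3 c2 (ownR_symm o45)
    (ownR_symm o34) (ownR_symm o23) h24.symm
  have m1 : NoMid G X v1 := NoMid_of_end c1
  have m5 : NoMid G X v5 := NoMid_of_end c5
  have m3 : ∀ b, (∃ d, Mid (ownR G X) (cc G X) b d) → b ≠ v3 := by
    rintro b ⟨d, hd⟩ rfl
    obtain ⟨_, _, _, ⟨s, hs, hs2⟩, _⟩ := hd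
    rcases own_two f3.self (ownR_symm o23) o34 hs with h' | h' | h'
    · exact h24 h'
    · rw [h'] at c2; omega
    · rw [h'] at c4; omega
  have hv4S := hA'.σS
  have hv2S := hB'.σS
  have hv3S := inner_own hcub h f2 s2 hv2S c2 o23
  -- cross neighbours
  have second : ∀ a y, cc G X a = 2 → y ∈ cr G X a → ∃ z, z ≠ y ∧ cr G X a = {y, z} := by
    intro a y ha hy
    have h1 := cc_two.mp ha
    obtain ⟨b, d, hbd, he⟩ := Finset.card_eq_two.mp h1
    rw [he, Finset.mem_insert, Finset.mem_singleton] at hy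
    rcases hy with rfl | rfl
    · exact ⟨d, hbd.symm, he⟩
    · exact ⟨b, hbd, by rw [he, Finset.pair_comm]⟩
  obtain ⟨z1, hz1, cr1⟩ := second v1 (yA kA) c1 hA'.yτ
  obtain ⟨z5, hz5, cr5⟩ := second v5 (yB kB) c5 hB'.yτ
  obtain ⟨l1, a1, a2, a3, a4, a5⟩ := outer_link hcub hI h f1 hv1S c1 d1 cr1 hz1.symm
  obtain ⟨l5, b1, b2, b3, b4, b5⟩ := outer_link hcub hI h f5 hv5S c5 d5 cr5 hz5.symm
  obtain ⟨z3, hz3⟩ := Finset.card_eq_one.mp ((cc_three hcub f3.self).mp c3)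
  obtain ⟨g1, g2, g3⟩ := beta hcub h f3 s3 hv3S c3 h24 (ownR_symm o23) o34 c2 c4
    (by rw [hz3]; simp : z3 ∈ cr G X v3)
  have hz1v1 : v1 ∈ cr G X z1 := by rw [a1]; simp
  have hz5v5 : v5 ∈ cr G X z5 := by rw [b1]; simp
  -- an end which is no end of the wire sees no link
  have noy : ∀ {k : ℕ} {p u v q y : ℕ → V} {σ τ a : V}, Wire G X Z S k p u v q y σ τ →
      NoMid G X a → a ≠ σ → a ≠ τ → ∀ i ≤ k, a ∉ cr G X (y i) := by
    intro k p u v q y σ τ a hw ha h1 h2 i hi hmem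
    rw [hw.link i hi, Finset.mem_insert, Finset.mem_singleton] at hmem
    rcases hmem with hm | hm
    · by_cases h0 : i = 0
      · simp only [h0, if_true] at hm
        exact h1 hm
      · simp only [h0, if_false] at hm
        exact ha.ne ⟨_, Mid_symm (hw.mid (i := i - 1) (by omega))⟩ hm.symm
    · by_cases h0 : i = k
      · simp only [h0, if_true] at hm
        exact h2 hm
      · simp only [h0, if_false] at hm
        exact ha.ne ⟨_, hw.mid (i := i) (by omega)⟩ hm.symm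
  -- the end `τ` sees only the last link
  have lasty : ∀ {k : ℕ} {p u v q y : ℕ → V} {σ τ : V}, Wire G X Z S k p u v q y σ τ →
      NoMid G X τ → τ ≠ σ → ∀ i ≤ k, τ ∈ cr G X (y i) → i = k := by
    intro k p u v q y σ τ hw ha h1 i hi hmem
    by_contra h0
    rw [hw.link i hi, Finset.mem_insert, Finset.mem_singleton] at hmem
    simp only [h0, if_false] at hmem
    rcases hmem with hm | hm
    · by_cases h0 : i = 0
      · simp only [h0, if_true] at hm
        exact h1 hm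
      · simp only [h0, if_false] at hm
        exact ha.ne ⟨_, Mid_symm (hw.mid (i := i - 1) (by omega))⟩ hm.symm
    · exact ha.ne ⟨_, hw.mid (i := i) (by omega)⟩ hm.symm
  refine ⟨z1, z3, z5, l1, l5,
    ⟨o12, o23, o34, o45, c1, c2, c3, c4, c5, ?_, ⟨hv1S, hv2S, hv3S, hv4S, hv5S⟩, hA', hB', cr1,
    inner_cr_eq hcub f2.self c2 hB'.yσ, hz3, inner_cr_eq hcub f4.self c4 hA'.yσ, cr5, a1, g2, b1,
    ⟨a2, a3, a4, a5⟩, ⟨g3, g1⟩, ⟨b2, b3, b4, b5⟩, ?_, ?_, ?_, ?_, dAB, dy, ?_, ?_⟩⟩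
  · simp only [List.nodup_cons, List.mem_cons, List.not_mem_nil, or_false, not_or,
      List.nodup_nil, and_true, not_false_eq_true]
    exact ⟨⟨n12, n13, n14, n15⟩, ⟨n23, h24, n25⟩, ⟨n34, n35⟩, n45⟩
  · intro i hi he
    rw [he] at hz1v1
    have := lasty hA' m1 n14 i hi hz1v1
    rw [this] at he
    exact hz1 he
  · intro i hi he
    rw [he] at hz1v1
    exact noy hB' m1 n12 n15 i hi hz1v1
  · intro i hi he
    rw [he] at hz5v5
    exact noy hA' m5 n45.symm n15.symm i hi hz5v5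
  · intro i hi he
    rw [he] at hz5v5
    have := lasty hB' m5 n25.symm i hi hz5v5
    rw [this] at he
    exact hz5 he
  · intro i hi
    have hu : ∃ d, Mid (ownR G X) (cc G X) (uA i) d := ⟨_, hA'.mid hi⟩
    have hv : ∃ d, Mid (ownR G X) (cc G X) (vA i) d := ⟨_, Mid_symm (hA'.mid hi)⟩
    simp only [List.mem_cons, List.not_mem_nil, or_false, not_or]
    exact ⟨⟨m1.ne hu, m2.ne hu, m3 _ hu, m4.ne hu, m5.ne hu⟩,
      ⟨m1.ne hv, m2.ne hv, m3 _ hv, m4.ne hv, m5.ne hv⟩⟩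
  · intro i hi
    have hu : ∃ d, Mid (ownR G X) (cc G X) (uB i) d := ⟨_, hB'.mid hi⟩
    have hv : ∃ d, Mid (ownR G X) (cc G X) (vB i) d := ⟨_, Mid_symm (hB'.mid hi)⟩
    simp only [List.mem_cons, List.not_mem_nil, or_false, not_or]
    exact ⟨⟨m1.ne hu, m2.ne hu, m3 _ hu, m4.ne hu, m5.ne hu⟩,
      ⟨m1.ne hv, m2.ne hv, m3 _ hv, m4.ne hv, m5.ne hv⟩⟩

theorem noMidN_of {x : V} (h : NoMid G X x) : NoMidN G X N x := by
  rintro b ⟨h1, h2, h3, ⟨s, h4, h5⟩, ⟨s', h6, h7⟩⟩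
  exact h b ⟨h1, h2, h3.1, ⟨s, h4.1, h5⟩, ⟨s', h6.1, h7⟩⟩

include hN hst hcub in
/-- **`U_5`'s in graph terms.** -/
theorem u5_config (hI : InvZ G X Z) (h : StuckZ G X Z S)
    {v1 v2 v3 v4 v5 : V} (c1 : cc G X v1 = 2) (c2 : cc G X v2 = 3) (c3 : cc G X v3 = 3)
    (c4 : cc G X v4 = 3) (c5 : cc G X v5 = 2) (o12 : ownN G X N v1 v2)
    (o23 : ownN G X N v2 v3) (o34 : ownN G X N v3 v4) (o45 : ownN G X N v4 v5) (h24 : v2 ≠ v4)
    (d1 : 4 ≤ dg (QE G X S).val v1) (d5 : 4 ≤ dg (QE G X S).val v5)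
    (hB : Port (ownN G X N) (cc G X) (QE G X S).val v2 v5 ∨
      Lp (ownN G X N) (cc G X) (QE G X S).val v2 v5)
    (hA : Port (ownN G X N) (cc G X) (QE G X S).val v4 v1 ∨
      Lp (ownN G X N) (cc G X) (QE G X S).val v4 v1) :
    ∃ (z1 z3 z5 l1 l5 : V) (kA kB : ℕ) (pA uA vA qA yA pB uB vB qB yB : ℕ → V),
      U5 G X Z S v1 v2 v3 v4 v5 z1 z3 z5 l1 l5 kA kB pA uA vA qA yA pB uB vB qB yB ∧
      UN N kA pA uA vA qA ∧ UN N kB pB uB vB qB := by
  have n1 := o12.2.1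
  have n2 := o12.2.2
  have n3 := o23.2.2
  have n4 := o34.2.2
  have n5 := o45.2.2
  have f1 := hN v1 n1
  have f2 := hN v2 n2
  have f3 := hN v3 n3
  have f4 := hN v4 n4
  have f5 := hN v5 n5
  have m2 : NoMidN G X N v2 := noMidN_of
    (five_noMid f2.self f3.self c1 c2 c3 c4 o12.1 o23.1 o34.1 h24)
  have m4 : NoMidN G X N v4 := noMidN_of (five_noMid f4.self f3.self c5 c4 c3 c2
    (ownR_symm o45.1) (ownR_symm o34.1) (ownR_symm o23.1) h24.symm)
  have m1 : NoMidN G X N v1 := NoMidN_of_end c1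
  have m5 : NoMidN G X N v5 := NoMidN_of_end c5
  have wA : ∃ (k : ℕ) (p u v q y : ℕ → V), Wire G X Z S k p u v q y v4 v1 ∧ UN N k p u v q := by
    rcases hA with hA | hA
    · obtain ⟨y, hy⟩ := wire_of_port hN hcub hI h hA (fun _ => v1) (fun _ => v1) (fun _ => v1)
        (fun _ => v1)
      exact ⟨0, _, _, _, _, y, hy, fun i hi => absurd hi (by omega)⟩
    · obtain ⟨k, p, u, v, q, y, _, hw, hn⟩ := wire_of_lp hN hst hcub hI h hA m4 m1
      exact ⟨k, p, u, v, q, y, hw, hn⟩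
  have wB : ∃ (k : ℕ) (p u v q y : ℕ → V), Wire G X Z S k p u v q y v2 v5 ∧ UN N k p u v q := by
    rcases hB with hB | hB
    · obtain ⟨y, hy⟩ := wire_of_port hN hcub hI h hB (fun _ => v1) (fun _ => v1) (fun _ => v1)
        (fun _ => v1)
      exact ⟨0, _, _, _, _, y, hy, fun i hi => absurd hi (by omega)⟩
    · obtain ⟨k, p, u, v, q, y, _, hw, hn⟩ := wire_of_lp hN hst hcub hI h hB m2 m5
      exact ⟨k, p, u, v, q, y, hw, hn⟩
  obtain ⟨kA, pA, uA, vA, qA, yA, hA', nA⟩ := wA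
  obtain ⟨kB, pB, uB, vB, qB, yB, hB', nB⟩ := wB
  have n15 : v1 ≠ v5 := by
    rintro rfl
    exact h24 (own_one hcub c1 o12.1 (ownR_symm o45.1))
  have dAB := wire_disj hN hcub hA' nA hB' nB m4 m2 m5 h24.symm (ownR_ne o45.1)
  have dy := wire_disj_y hN hcub hA' nA hB' nB m4 m1 m2 m5 h24.symm (ownR_ne o45.1)
    (ownR_ne o12.1) n15
  obtain ⟨z1, z3, z5, l1, l5, hU⟩ := u5_of_wires hcub hI h f1 f2 f3 f4 f5 (hst v2 n2) (hst v3 n3)
    c1 c2 c3 c4 c5 o12.1 o23.1 o34.1 o45.1 h24 d1 d5 hA' hB' dAB dy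
  exact ⟨z1, z3, z5, l1, l5, kA, kB, pA, uA, vA, qA, yA, pB, uB, vB, qB, yB, hU, nA, nB⟩

end

end Helper97.L9
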