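import Pool.Agent.helper33.L9.NetSpec
import Pool.Agent.helper97.L9.OffCfg
import Pool.Agent.helper58.L9.KhMain
import Pool.Agent.helper58.L9.K5Fin

/-!
# The conflicts of the vertices far from the roots form an `ENetX`

Loops, `U_5`'s with `z1 = z5` and `K_4`'s are regions without roots and legs; the own five-cycles are
nice; the remaining `U_5`'s are excluded by hypothesis.
-/

set_option linter.unusedSimpArgs false
set_option linter.unusedSectionVars false
set_option linter.unusedTactic false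

namespace Helper97.L9

open Finset Classical Helper42.L9 Helper33.L9 Helper33.Off
open Pool.Agent.helper40.L9 (Cyc Nice LamU)

variable {V : Type*} [Fintype V] {G : SimpleGraph V} {X D N : V → Prop} {Z S S' : Finset V}

/-- the cut of a maximal state -/
theorem StA.offW (h : StA G X D) : Helper17.L9.OffW G X D :=
  ⟨h.nm, fun w hw a ha => h.k0 w a hw ha⟩

theorem StA.noRepair (h : StA G X D) : Helper17.L9.NoRepair G X D :=
  fun _ _ hx hxc hc => h.rep hx hc hxc

theorem StA.two_roots (h : StA G X D) : ∃ x z, ∀ d, D d → d = x ∨ d = z := by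
  obtain ⟨x, z, _, hd⟩ := h.two
  exact ⟨x, z, fun d h1 => (hd d).mp h1⟩

/-- a vertex next to a root is not far -/
theorem not_far {a c : V} (ha : D a) (hac : G.Adj a c) : ¬ Far G D c := fun h => h.2 a ha hac

/-- a vertex with a cross neighbour which is not far is a leg -/
theorem StA.leg_of_not_far (h : StA G X D) {c a : V} (ha : a ∈ cr G X c) (hn : ¬ Far G D c) :
    ¬ D c ∧ ∃ x, D x ∧ G.Adj x c := by
  have h1 := h.not_root ha
  refine ⟨h1, ?_⟩
  by_contra hcon
  push Not at hcon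
  exact hn ⟨h1, hcon⟩

/-- an end with two link vertices as cross neighbours is not a leg -/
theorem StA.two_links (hcub : ∀ v, (univ.filter fun b => G.Adj v b).card = 3) (h : StA G X D)
    {t a b r s : V} (hcr : cr G X t = {a, b}) (hab : a ≠ b) (hra : a ∈ cr G X r)
    (hsb : b ∈ cr G X s) (hr : r ≠ t) (hs : s ≠ t) (hrs : X r ↔ X t) (hss : X s ↔ X t) :
    ∀ x, ownR G X t x → ¬ D x := by
  intro x hx hD
  have ha := mem_cr.mp (by rw [hcr]; simp : a ∈ cr G X t)
  have hb := mem_cr.mp (by rw [hcr]; simp : b ∈ cr G X t)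
  have ht : ¬ D t := h.not_root (by rw [hcr]; simp : a ∈ cr G X t)
  obtain ⟨w, h1, h2, h3⟩ := h.noflip x t hD ht hx.1.symm
  have hra' := mem_cr.mp hra
  have hsb' := mem_cr.mp hsb
  have hwx : w ≠ x := fun e => h1 (e ▸ hD)
  have hax : a ≠ x := by
    rintro rfl
    exact ha.2 hx.2.symm
  have hbx : b ≠ x := by
    rintro rfl
    exact hb.2 hx.2.symm
  have hw : w = a ∨ w = b := by
    by_contra hcon
    push Not at hcon
    have h4 : ({w, x, a, b} : Finset V) ⊆ univ.filter fun z => G.Adj t z := by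
      intro z hz
      simp only [Finset.mem_insert, Finset.mem_singleton] at hz
      rw [Finset.mem_filter]
      refine ⟨Finset.mem_univ _, ?_⟩
      rcases hz with rfl | rfl | rfl | rfl
      · exact h2
      · exact hx.1
      · exact ha.1
      · exact hb.1
    have h5 := Finset.card_le_card h4
    rw [hcub t] at h5
    have h6 : ({w, x, a, b} : Finset V).card = 4 := by
      rw [Finset.card_insert_of_notMem, Finset.card_insert_of_notMem,
        Finset.card_insert_of_notMem, Finset.card_singleton]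
      · rw [Finset.mem_singleton]; exact hab
      · simp only [Finset.mem_insert, Finset.mem_singleton, not_or]
        exact ⟨hax.symm, hbx.symm⟩
      · simp only [Finset.mem_insert, Finset.mem_singleton, not_or]
        exact ⟨hwx, hcon.1, hcon.2⟩
    omega
  rcases hw with rfl | rfl
  · exact h3 (mem_pt.mpr ⟨ha.1, r, hr, hra'.1.symm, hrs⟩)
  · exact h3 (mem_pt.mpr ⟨hb.1, s, hs, hsb'.1.symm, hss⟩)

/-! ### loops -/

section

variable {k : ℕ} {p u v q y : ℕ → V} {σ τ t : V}

/-- a wire from `t` to `t` is a loop in the sense of `LoopG` -/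
theorem loopG_of_wire (h2 : cc G X t = 2) (hk : 0 < k) (hw : Wire G X Z S k p u v q y t t)
    (hne : y 0 ≠ y k) :
    Helper17.L9.LoopG G X k u v p q (fun i => y (i + 1)) t (y 0) (y k) := by
  have y0 := mem_cr.mp hw.yσ
  have yk := mem_cr.mp hw.yτ
  have u0 := mem_cr.mp (hw.yu hk)
  have vk := hw.yv (i := k - 1) (by omega)
  have e : k - 1 + 1 = k := by omega
  rw [e] at vk
  have vk := mem_cr.mp vk
  refine ⟨hw.wireG, hk, h2, y0, yk, ?_, ?_, hne, ?_⟩
  · exact ⟨u0.1.symm, u0.2⟩
  · exact ⟨vk.1.symm, vk.2⟩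
  · exact ⟨(hw.p0 hk).1.symm, (hw.p0 hk).2.symm, (hw.pk hk).1.symm, (hw.pk hk).2.symm⟩

theorem cc_notN {x : V} (h : ¬ N x) : NoMidN G X N x := fun _ hb => h hb.2.2.1.2.1

/-- **Loops**: no loop among the vertices far from the roots -/
theorem off_noLoop (hcub : ∀ v, (univ.filter fun b => G.Adj v b).card = 3) (h : StA G X D)
    (hI : InvZ G X Z) (hS : StuckZ G X Z S) (hFar : ∀ v, N v → Far G D v)
    (hnl : NoLeg G X D N) (hreg : ∀ Lam, Region G X Z Lam → (∀ v ∈ Lam, Far G D v) → False)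
    {t : V} (ht : N t → cc G X t = 2) (hL : Lp (ownN G X N) (cc G X) (QE G X S).val t t) :
    False := by
  have hN : ∀ v, N v → Fr G X v := fun v hv => h.fr_of_far (hFar v hv)
  have hst : ∀ v, N v → StarAt G X v := fun v hv => h.star v (hFar v hv).1
  have hm : NoMidN G X N t := by
    by_cases hn : N t
    · exact NoMidN_of_end (ht hn)
    · exact cc_notN hn
  obtain ⟨k, p, u, v, q, y, hk, hw, hn⟩ := wire_of_lp hN hst hcub hI hS hL hm hm
  have hne : y 0 ≠ y k := by
    intro he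
    have := hw.nyy 0 (by omega) k le_rfl he
    omega
  -- `t` is an end
  have hnt : ¬ D t := h.not_root hw.yσ
  have h1 : ({y 0, y k} : Finset V) ⊆ cr G X t := by
    intro z hz
    rw [Finset.mem_insert, Finset.mem_singleton] at hz
    rcases hz with rfl | rfl
    · exact hw.yσ
    · exact hw.yτ
  have h3 := Finset.card_le_card h1
  rw [Finset.card_pair hne] at h3
  have h4 := cr_bounds hcub t (h.nm t hnt)
  have h2 : cc G X t = 2 := Helper33.Off.cc_two.mpr (by omega)
  have hcr : cr G X t = {y 0, y k} := end_cr h2 hw.yσ hw.yτ hne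
  have hG := loopG_of_wire h2 hk hw hne
  have hk1 : k - 1 < k := by omega
  have e1 : k - 1 + 1 = k := by omega
  -- the links
  have hlegs : ∀ c a, ownR G X c a → D a → ¬ Far G D c := fun c a hc ha =>
    not_far ha hc.1.symm
  have hA : Helper17.L9.LA G X D k (fun i => y (i + 1)) t (y 0) (y k) := by
    rintro r a (rfl | rfl | rfl | ⟨i, hi, rfl⟩) hra ha
    · have hv : y k ∈ cr G X (v (k - 1)) := by
        have := hw.yv (i := k - 1) hk1
        rwa [e1] at this
      refine h.two_links hcub hcr hne (hw.yu hk) hv (hw.nσ 0 hk).1 (hw.nσ _ hk1).2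
        (hw.sides 0 hk) ?_ a hra ha
      exact ((hw.unit _ hk1).uv.2.symm).trans (hw.sides _ hk1)
    · have hl := hw.link 0 (by omega)
      have h0 : ¬ (0 = k) := by omega
      simp only [if_true, h0, if_false] at hl
      exact hnl.me (y 0) (u 0) t (v 0) (hlegs _ _ hra ha) (by rw [hl, Finset.pair_comm])
        (hw.nσ 0 hk).1 (wire_midN hw hn hk) h2
    · have hl := hw.link k le_rfl
      have h0 : ¬ (k = 0) := by omega
      simp only [if_true, h0, if_false] at hl
      exact hnl.me (y k) (v (k - 1)) t (u (k - 1)) (hlegs _ _ hra ha) hl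
        (hw.nσ _ hk1).2 (MidN_symm (wire_midN hw hn hk1)) h2
    · have hl := hw.link (i + 1) (by omega)
      have h0 : ¬ (i + 1 = 0) := by omega
      have h0' : ¬ (i + 1 = k) := by omega
      simp only [h0, h0', if_false, Nat.add_sub_cancel] at hl
      refine hnl.mm (y (i + 1)) (v i) (u (i + 1)) (u i) (v (i + 1)) (hlegs _ _ hra ha) hl
        ?_ ?_ (MidN_symm (wire_midN hw hn (by omega))) (wire_midN hw hn hi)
      · exact (hw.nuv (i + 1) hi i (by omega)).symm
      · intro e
        have := hw.nuu i (by omega) (i + 1) hi e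
        omega
  obtain ⟨Lam, hLam, hF⟩ := Helper17.L9.loopG_region_all h.offW hcub hG hI (hS.1 hw.σS)
    (fun i hi => ⟨hS.1 (hw.mem i hi).2.1, hS.1 (hw.mem i hi).2.2.1, hS.1 (hw.mem i hi).1,
      hS.1 (hw.mem i hi).2.2.2⟩) hA h.noRepair
  exact hreg Lam hLam hF

/-! ### `U_5`'s -/

/-- the links of a wire of a `U_5` are far from the roots -/
theorem wire_far (hcub : ∀ v, (univ.filter fun b => G.Adj v b).card = 3) (h : StA G X D)
    (hnl : NoLeg G X D N) (hw : Wire G X Z S k p u v q y σ τ) (hn : UN N k p u v q)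
    (hτ : cc G X τ = 2) {e : V} (he : ownR G X σ e) (he2 : cc G X e = 2) (h4 : 4 ≤ Dq G X S e)
    (hστ : σ ≠ τ) (h0 : 0 < k → Far G D (y 0)) : ∀ i ≤ k, Far G D (y i) := by
  intro i hi
  have hl := hw.link i hi
  by_contra hnf
  obtain ⟨hnr, x, hx, hxc⟩ := h.leg_of_not_far (c := y i)
    (a := if i = 0 then σ else v (i - 1)) (by rw [hl]; simp) hnf
  by_cases i0 : i = 0
  · subst i0
    by_cases k0 : 0 = k
    · subst k0
      simp only [if_true] at hl
      exact h.link_end_port' hcub hx hnr hxc hl hστ hτ he he2 h4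
    · exact hnf (h0 (by omega))
  · have ei : i - 1 + 1 = i := by omega
    by_cases ik : i = k
    · subst ik
      simp only [i0, if_true, if_false] at hl
      exact hnl.me (y i) (v (i - 1)) τ (u (i - 1)) hnf hl (hw.nτ _ (by omega)).2
        (MidN_symm (wire_midN hw hn (by omega))) hτ
    · simp only [i0, ik, if_false] at hl
      refine hnl.mm (y i) (v (i - 1)) (u i) (u (i - 1)) (v i) hnf hl
        (hw.nuv i (by omega) (i - 1) (by omega)).symm ?_
        (MidN_symm (wire_midN hw hn (by omega))) (wire_midN hw hn (by omega))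
      intro e
      have := hw.nuu (i - 1) (by omega) i (by omega) e
      omega

end

/-- **`U_5`'s** -/
theorem off_noU (hcub : ∀ v, (univ.filter fun b => G.Adj v b).card = 3) (h : StA G X D)
    (hI : InvZ G X Z) (hS : StuckZ G X Z S) (hSS : S' ⊆ S) (hFar : ∀ v, N v → Far G D v)
    (hnl : NoLeg G X D N) (hnu : NoLegU G X D N Z S S')
    (hreg : ∀ Lam, Region G X Z Lam → (∀ v ∈ Lam, Far G D v) → False)
    (hOk : ∀ t : Helper33.Joint.U5T V, t.Is G X Z S → t.z1 ≠ t.z5 →
      (∀ x, t.lam x → Far G D x) → False)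
    {v1 v2 v3 v4 v5 : V} (c1 : cc G X v1 = 2) (c2 : cc G X v2 = 3) (c3 : cc G X v3 = 3)
    (c4 : cc G X v4 = 3) (c5 : cc G X v5 = 2) (o12 : ownN G X N v1 v2)
    (o23 : ownN G X N v2 v3) (o34 : ownN G X N v3 v4) (o45 : ownN G X N v4 v5) (h24 : v2 ≠ v4)
    (d1 : 4 ≤ dg (QE G X S').val v1) (d5 : 4 ≤ dg (QE G X S').val v5)
    (hB : Port (ownN G X N) (cc G X) (QE G X S).val v2 v5 ∨
      Lp (ownN G X N) (cc G X) (QE G X S).val v2 v5)
    (hA : Port (ownN G X N) (cc G X) (QE G X S).val v4 v1 ∨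
      Lp (ownN G X N) (cc G X) (QE G X S).val v4 v1) : False := by
  have hN : ∀ v, N v → Fr G X v := fun v hv => h.fr_of_far (hFar v hv)
  have hst : ∀ v, N v → StarAt G X v := fun v hv => h.star v (hFar v hv).1
  have n1 := o12.2.1
  have n2 := o12.2.2
  have n3 := o23.2.2
  have n4 := o34.2.2
  have n5 := o45.2.2
  have D1 := d1.trans (dg_le_of_le (QE_mono (G := G) (X := X) hSS) v1)
  have D5 := d5.trans (dg_le_of_le (QE_mono (G := G) (X := X) hSS) v5)
  obtain ⟨z1, z3, z5, l1, l5, kA, kB, pA, uA, vA, qA, yA, pB, uB, vB, qB, yB, hU, nA, nB⟩ :=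
    u5_config hN hst hcub hI hS c1 c2 c3 c4 c5 o12 o23 o34 o45 h24 D1 D5 hB hA
  have hv1 : v1 ∈ S' := by
    by_contra hn
    rw [dg_QE_notMem hn] at d1
    omega
  have hv5 : v5 ∈ S' := by
    by_contra hn
    rw [dg_QE_notMem hn] at d5
    omega
  rw [dg_QE hv1] at d1
  rw [dg_QE hv5] at d5
  rw [dg_QE hU.mem.1] at D1
  rw [dg_QE hU.mem.2.2.2.2] at D5
  have hnd := hU.nd
  simp only [List.nodup_cons, List.mem_cons, List.not_mem_nil, or_false, not_or,
    List.nodup_nil, and_true, not_false_eq_true] at hnd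
  obtain ⟨⟨n12, n13, n14, n15⟩, ⟨n23, n24, n25⟩, ⟨n34, n35⟩, n45⟩ := hnd
  -- the links are far
  obtain ⟨f1, f2⟩ := hnu ⟨v1, v2, v3, v4, v5, z1, z3, z5, l1, l5, kA, kB, pA, uA, vA, qA, yA, pB,
    uB, vB, qB, yB⟩ hU n1 n2 n3 n4 n5 nA nB hv1 hv5 d1 d5
  have fA : ∀ i ≤ kA, Far G D (yA i) := wire_far hcub h hnl hU.A nA c1 o45.1 c5 D5 (Ne.symm n14) f1
  have fB : ∀ i ≤ kB, Far G D (yB i) := wire_far hcub h hnl hU.B nB c5 (ownR_symm o12.1) c1 D1
    n25 f2
  by_cases hz : z1 = z5
  · subst hz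
    have hl : cr G X z1 = {v1, v5} := by
      have h1 := hU.cz1
      have h2 : v5 ∈ cr G X z1 := by rw [hU.cz5]; simp
      rw [h1, Finset.mem_insert, Finset.mem_singleton] at h2
      rcases h2 with h2 | h2
      · exact absurd h2.symm n15
      · rw [h1, h2]
    have fz : Far G D z1 := by
      by_contra hnf
      obtain ⟨hnr, x, hx, hxc⟩ := h.leg_of_not_far (c := z1) (a := v1) (by rw [hl]; simp) hnf
      exact h.link_end_end hcub hx hnr hxc hl n15 c1 c5
    have hNM : Pool.Agent.helper58.L9.LinkNM G X z1 kA kB yA yB := by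
      have key : ∀ y b, Far G D y → ownR G X y b → NM G X b := fun y b hy hb =>
        h.nm b fun hb' => hy.2 b hb' hb.1.symm
      rintro y b (rfl | ⟨i, hi, rfl⟩ | ⟨i, hi, rfl⟩) hb
      · exact key _ b fz hb
      · exact key _ b (fA i hi) hb
      · exact key _ b (fB i hi) hb
    obtain ⟨Lam, h1, h2⟩ := Pool.Agent.helper58.L9.k5_region_off hcub hU h.offW hFar n1 n2 n3 n4
      n5 (fun i hi => ⟨(nA i hi).2.1, (nA i hi).2.2.1⟩)
      (fun i hi => ⟨(nB i hi).2.1, (nB i hi).2.2.1⟩) hNM hI hS.1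
    exact hreg Lam h1 h2
  · refine hOk ⟨v1, v2, v3, v4, v5, z1, z3, z5, l1, l5, kA, kB, pA, uA, vA, qA, yA, pB,
      uB, vB, qB, yB⟩ hU hz ?_
    rintro x (rfl | rfl | rfl | rfl | rfl | ⟨i, hi, rfl | rfl⟩ | ⟨i, hi, rfl⟩ |
      ⟨i, hi, rfl | rfl⟩ | ⟨i, hi, rfl⟩)
    · exact hFar _ n1
    · exact hFar _ n2
    · exact hFar _ n3
    · exact hFar _ n4
    · exact hFar _ n5
    · exact hFar _ (nA i hi).2.1
    · exact hFar _ (nA i hi).2.2.1
    · exact fA i hi
    · exact hFar _ (nB i hi).2.1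
    · exact hFar _ (nB i hi).2.2.1
    · exact fB i hi

/-- **The conflicts of the vertices of `N` inside `S'` form an `ENetX`.** -/
theorem off_enet (hcub : ∀ v, (univ.filter fun b => G.Adj v b).card = 3) (h : StA G X D)
    (hI : InvZ G X Z) (hS : StuckZ G X Z S) (hSS : S' ⊆ S) (hFar : ∀ v, N v → Far G D v)
    (hcl : ∀ u v, ownR G X u v → N u → N v) (hnl : NoLeg G X D N)
    (hnu : NoLegU G X D N Z S S')
    (hreg : ∀ Lam, Region G X Z Lam → (∀ v ∈ Lam, Far G D v) → False)
    (hOk : ∀ t : Helper33.Joint.U5T V, t.Is G X Z S → t.z1 ≠ t.z5 →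
      (∀ x, t.lam x → Far G D x) → False)
    {c' : V → ℕ} (hc' : ∀ v, N v → cc G X v ≤ c' v) :
    ENetX (ownN G X N) (cN G X N) c' (QE G X S').val := by
  have hN : ∀ v, N v → Fr G X v := fun v hv => h.fr_of_far (hFar v hv)
  have hst : ∀ v, N v → StarAt G X v := fun v hv => h.star v (hFar v hv).1
  have hle : (QE G X S').val ≤ (QE G X S).val := QE_mono hSS
  have hM : Dle (ownN G X N) (cc G X) (QE G X S).val := dle_of hN hst hcub
  have lift : ∀ {a b : V}, (Port (ownN G X N) (cc G X) (QE G X S').val a b ∨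
      Lp (ownN G X N) (cc G X) (QE G X S').val a b) →
      (Port (ownN G X N) (cc G X) (QE G X S).val a b ∨
        Lp (ownN G X N) (cc G X) (QE G X S).val a b) :=
    fun hh => hh.imp (port_le hM hle) (lp_le hM hle)
  refine enetx_of hN hst hcl hcub hc' ?_ ?_ ?_ ?_
  · intro t ht hL
    exact off_noLoop hcub h hI hS hFar hnl hreg ht (lp_le hM hle hL)
  · intro s u w v t _ c1 c2 c3 c4 c5 o1 o2 o3 o4 huv d1 d5 hB hA
    exact off_noU hcub h hI hS hSS hFar hnl hnu hreg hOk c1 c2 c3 c4 c5 o1 o2 o3 o4 huv d1 d5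
      (lift hB) (lift hA)
  · intro a b d e f _ _ _ _ _ _ h1 h2 h3 h4 h5 hnd ha
    have hc := cyc_of h1.1 h2.1 h3.1 h4.1 h5.1 hnd
    have hD : ∀ i, ¬ D ((![a, b, d, e, f] : Fin 5 → V) i) := by
      intro i
      fin_cases i
      · exact (hFar a h1.2.1).1
      · exact (hFar b h2.2.1).1
      · exact (hFar d h3.2.1).1
      · exact (hFar e h4.2.1).1
      · exact (hFar f h5.2.1).1
    exact hI.C _ (h.nice hcub _ hc hD) 0 (hS.1 (hSS ha))
  · intro a b d e na nb nd ne ha hb hd he hn r1 r2 r3 r4 r5 r6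
    obtain ⟨Lam, k1, k2⟩ := Pool.Agent.helper58.L9.k4_region_off h.offW h.noRepair hcub
      (fun v hv => h.star v hv) h.two_roots hFar hI hS ha hb hd he na nb nd ne hn
      (rg_le hM hle r1) (rg_le hM hle r2) (rg_le hM hle r3) (rg_le hM hle r4) (rg_le hM hle r5)
      (rg_le hM hle r6)
    exact hreg Lam k1 k2

end Helper97.L9
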