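import Pool.Agent.helper33.L9.T3
import Pool.Agent.helper42.L9.NoLegU
import Pool.Agent.helper97.L9.OffNet
import Pool.Agent.helper97.L9.Final

/-!
# The joint extension theorem, local form; T3 and the cubic case from it
-/

set_option autoImplicit false
set_option linter.unusedSectionVars false

namespace Helper97.L9

open Finset Classical Helper42.L9 Helper33.L9 Helper33.Off
open Helper33.Joint (U5T JExtT)

universe u

variable {V : Type*} [Fintype V] {G : SimpleGraph V} {X D : V → Prop}

/-- the local facts: the neighbourhoods of all vertices with a cross neighbour, and of the own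
neighbours of the links, are not monochromatic -/
structure LocNM (t : U5T V) (G : SimpleGraph V) (X : V → Prop) : Prop where
  cr : ∀ w, (∃ a, a ∈ cr G X w) → NM G X w
  lA : ∀ i ≤ t.kA, ∀ b, ownR G X (t.yA i) b → NM G X b
  lB : ∀ i ≤ t.kB, ∀ b, ownR G X (t.yB i) b → NM G X b

/-- the extension theorem of the joint stage under local hypotheses -/
def JExtLoc (G : SimpleGraph V) (X : V → Prop) : Prop :=
  ∀ (Z S : Finset V) (t : U5T V), InvZ G X Z → StuckZ G X Z S → t.Is G X Z S → t.z1 ≠ t.z5 →
    t.Loc G X → LocNM t G X → t.Ext G X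

/-- the case without roots -/
theorem jextT_of_loc (hX : NoMono G X) (hJ : JExtLoc G X) : JExtT G X := by
  intro Z S t hI hS hU hz
  have hF : ∀ v, Fr G X v := Fr.of_noMono hX
  have hn : ∀ w, NM G X w := fun w => (hF w).self
  exact hJ Z S t hI hS hU hz ⟨hF _, hF _, hF _, hF _, hF _,
    fun i _ => ⟨hF _, hF _, hF _, hF _⟩, fun i _ => ⟨hF _, hF _, hF _, hF _⟩⟩
    ⟨fun w _ => hn w, fun _ _ b _ => hn b, fun _ _ b _ => hn b⟩

/-- the case with roots -/
theorem jextD_of_loc (hcub : ∀ v, (univ.filter fun b => G.Adj v b).card = 3) (h : StA G X D)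
    (hJ : JExtLoc G X) : JExtD G X D := by
  intro Z S t hI hok
  have hL := hok.loc hcub h
  obtain ⟨hS, hU, hz, hF⟩ := hok
  have key : ∀ y b, t.lam y → ownR G X y b → NM G X b := fun y b hy hb =>
    h.nm b fun hb' => (hF y hy).2 b hb' hb.1.symm
  exact hJ Z S t hI hS hU hz hL ⟨fun w ⟨a, ha⟩ => h.nm w (h.not_root ha),
    fun i hi b hb => key _ b (Helper33.Joint.lam_yA hi) hb,
    fun i hi b hb => key _ b (Helper33.Joint.lam_yB hi) hb⟩

/-- the joint extension theorem for all graphs -/
def JLocAll : Prop :=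
  ∀ (V : Type u) [Fintype V] (G : SimpleGraph V),
    (∀ v, (univ.filter fun b => G.Adj v b).card = 3) → ∀ X : V → Prop, JExtLoc G X

/-- the side of the roots for all graphs -/
def PlusAll : Prop :=
  ∀ (V : Type u) [Fintype V] (G : SimpleGraph V),
    (∀ v, (univ.filter fun b => G.Adj v b).card = 3) → ∀ X D : V → Prop, StA G X D →
      AtPlus G X D

theorem jAll (hJ : JLocAll.{u}) : JAll.{u} := fun V _ G hcub X hW =>
  jextT_of_loc hW.noMono (hJ V G hcub X)

/-- **T3** from the joint extension theorem and the side of the roots -/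
theorem t3 (hJ : JLocAll.{u}) (hP : PlusAll.{u}) : T3.{u} := by
  intro V _ G hcub X D h
  exact t3_of_parts hcub h (jextD_of_loc hcub h (hJ V G hcub X))
    (fun Z S S' N hI hS hSS hFar hcl hnl hnu hreg hOk c' hc' =>
      off_enet hcub h hI hS hSS hFar hcl hnl hnu hreg hOk hc')
    (fun Z S S' N hI hS hSS hmin hFar hcl hfull =>
      Helper42.NL.noLegU_minus hcub h hI hS hSS hmin hFar hcl hfull)
    (hP V G hcub X D h)

/-- **The theorem** from the two remaining parts -/
theorem main' (hJ : JLocAll.{u}) (hP : PlusAll.{u}) (V : Type u) [Fintype V]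
    (G : SimpleGraph V) (hD : D3 G) : Lab G :=
  main (jAll hJ) (t3 hJ hP) V G hD

end Helper97.L9
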