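import Pool.Agent.helper40.L9.JFin
import Pool.Agent.helper97.L9.JD

/-!
# The local joint extension theorem from the `Y`-mode
-/

set_option autoImplicit false
set_option linter.unusedSectionVars false

namespace Helper97.L9

open Finset Classical Helper33.L9 Helper33.Off
open Helper33.Joint (U5T)

universe u

/-- the `Y`-mode for all graphs -/
def YAll : Prop :=
  ∀ (V : Type u) [Fintype V] (G : SimpleGraph V),
    (∀ v, (univ.filter fun b => G.Adj v b).card = 3) → ∀ X : V → Prop,
      Pool.Agent.helper40.L9.YMode G X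

theorem jLoc_of_Y (hY : YAll.{u}) : JLocAll.{u} := by
  intro V _ G hcub X Z S t _ _ hU _ _ hn
  exact Pool.Agent.helper40.L9.jext_local hcub (hY V G hcub X) (hY V G hcub fun v => ¬ X v) hU
    (fun i hi b hb => hn.lA i hi b hb) (fun i hi b hb => hn.lB i hi b hb)
    (fun b _ d hd => hn.cr d ⟨b, mem_crs.mp hd⟩) (fun b _ d hd => hn.cr d ⟨b, mem_crs.mp hd⟩)

end Helper97.L9
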