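import Pool.Agent.helper97.L9.JD

/-!
# The conclusion in the form of the frozen statement
-/

set_option autoImplicit false

namespace Helper97.L9

/-- **The conclusion**, from the two remaining parts. -/
theorem concl (hJ : JLocAll.{0}) (hP : PlusAll.{0}) :
    ∀ (V : Type) [Fintype V] [DecidableEq V] (G : SimpleGraph V) [DecidableRel G.Adj],
      (∀ v, G.degree v ≤ 3) →
      ∃ f : V → ℕ, (∀ v, f v ≤ 9) ∧
        (∀ u v, G.Adj u v → 2 ≤ |(f u : ℤ) - (f v : ℤ)|) ∧
        (∀ u v w, u ≠ v → G.Adj u w → G.Adj w v → f u ≠ f v) := by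
  intro V _ _ G _ hdeg
  refine main' hJ hP V G fun v => ?_
  have h1 := hdeg v
  rw [← SimpleGraph.card_neighborFinset_eq_degree] at h1
  refine le_trans (le_of_eq ?_) h1
  congr 1
  ext b
  simp

end Helper97.L9
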