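import Pool.Agent.helper17.L9.JSet

/-!
# The F-mode of the joint stage

All vertices around a `U_5` are labelled.  Given labels of `v1 .. v5` (any parity), of the first and
last links of the wires (odd) and of the first units which satisfy the numerical constraints, the
`U_5` can be labelled: first the wires, then the four links, then `v1 .. v5`.
-/

set_option autoImplicit false
set_option linter.unusedSectionVars false
set_option linter.unusedSimpArgs false
set_option linter.unusedVariables false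

namespace Helper97.L9.F

open Finset Classical Helper33.L9
open Helper42.L9 hiding near gp
open Pool.Agent.helper58.L9
open Helper17.L9
open Pool.Agent.helper40.L9 (ParOK JSt Bad Tol LamU JExt)
open Pool.Agent.helper40.L9.J (kk M3 nbm gp Core SdR SdV)

variable {V : Type*} [Fintype V] {G : SimpleGraph V} {X L L2 : V → Prop} {f f2 g : V → ℕ}

/-- **Several new vertices of any parity**: everything near a new vertex of wrong parity is
labelled. -/
theorem jst_any (h : JSt G X L f) (P : V → Prop) (hP : ∀ x, P x → ¬ L x)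
    (hg : ∀ x, ¬ P x → g x = f x) (hle : ∀ x, P x → g x ≤ 9)
    (hall : ∀ x y, P x → Helper33.L9.near G x y → ¬ (X x ↔ Even (g x)) → L y ∨ P y)
    (hne : ∀ x y, P x → Helper33.L9.near G x y → (L y ∨ P y) → g x ≠ g y)
    (hadj : ∀ x y, P x → G.Adj x y → (L y ∨ P y) → gp (g x) (g y)) :
    JSt G X (fun x => L x ∨ P x) g := by
  have hgL : ∀ x, L x → g x = f x := fun x hx => hg x fun hp => hP x hp hx
  refine ⟨?_, ?_, ?_, ?_, ?_⟩
  · rintro v (hv | hv)
    · rw [hgL v hv]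
      exact h.le v hv
    · exact hle v hv
  · rintro a b ha hb hab
    rcases ha with ha | ha
    · rcases hb with hb | hb
      · rw [hgL a ha, hgL b hb]
        exact h.adj a b ha hb hab
      · exact (hadj b a hb hab.symm (Or.inl ha)).symm
    · exact hadj a b ha hab hb
  · rintro a b ha hb hab
    rcases ha with ha | ha
    · rcases hb with hb | hb
      · rw [hgL a ha, hgL b hb]
        exact h.ne a b ha hb hab
      · exact (hne b a hb (Helper33.L9.near_symm hab) (Or.inl ha)).symm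
    · exact hne a b ha hab hb
  · rintro e v he hb hev
    by_cases hL : L e
    · exact Or.inl (h.adjL e v hL ((bad_congr (hgL e hL)).mp hb) hev)
    · exact hall e v (he.resolve_left hL) ⟨hev.ne, Or.inl hev⟩ hb
  · rintro e v he hb hv hn
    by_cases hL : L e
    · exact tol_mono (fun x hx => Or.inl hx) hgL
        (h.tol e v hL ((bad_congr (hgL e hL)).mp hb) (fun hh => hv (Or.inl hh)) hn)
    · exact absurd (hall e v (he.resolve_left hL) hn hb) hv

/-- the surroundings of a link `y` with own neighbour `b`, and its label `n` -/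
structure Slot (G : SimpleGraph V) (X L : V → Prop) (f : V → ℕ) (n : ℕ) (y b c d : V) : Prop where
  nb : Nb G b y c d
  Xd : X d
  Lb : L b
  Lc : L c ∨ X c
  hb : f b ≠ n
  hc : L c → f c ≠ n
  hd : L d → Even (f d)

/-- conditions off the links -/
structure Base (G : SimpleGraph V) (X L L2 : V → Prop) (f f2 : V → ℕ) (P : V → Prop) (g : V → ℕ) :
    Prop where
  st : JSt G X L f
  sub : ∀ x, L x → L2 x
  eqL : ∀ x, L x → f2 x = f x
  par : ∀ x, L2 x → ¬ L x → (X x ↔ Even (f2 x))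
  nP : ∀ x, X x ∨ L x → ¬ P x
  eqP : ∀ x, ¬ P x → g x = f2 x

/-- an `X`-vertex adjacent to an unlabelled vertex has an even label -/
theorem Base.evn {P : V → Prop} (h : Base G X L L2 f f2 P g) {x w : V} (hx : X x) (hw : ¬ L w)
    (hwx : G.Adj w x) (hL : L2 x) : Even (f2 x) := by
  by_cases h1 : L x
  · rw [h.eqL x h1]
    exact (adj_par h.st hw hwx h1).mp hx
  · exact (h.par x hL h1).mp hx

theorem Base.ne {P : V → Prop} (h : Base G X L L2 f f2 P g) {n : ℕ} (hn : n % 2 = 1) {x w : V}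
    (hw : ¬ L w) (hwx : G.Adj w x) (hx : X x ∨ (L x ∧ f x ≠ n)) (hL : L2 x ∨ P x) : g x ≠ n := by
  have h1 : ¬ P x := h.nP x (hx.imp id And.left)
  have h2 : L2 x := hL.resolve_right h1
  rw [h.eqP x h1]
  rcases hx with hx | hx
  · have := h.evn hx hw hwx h2
    rw [Nat.even_iff] at this
    omega
  · rw [h.eqL x hx.1]
    exact hx.2

/-- the label of a link -/
theorem Base.link {P : V → Prop} (h : Base G X L L2 f f2 P g) {n : ℕ} (hn : n % 2 = 1)
    {y a b c a1 a2 b1 b2 c1 c2 : V} (hy : Nb G y a b c) (ha : Nb G a y a1 a2)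
    (hb : Nb G b y b1 b2) (hs : Slot G X L f n y c c1 c2) (Ly : ¬ L y) (La : ¬ L a) (Lb : ¬ L b)
    (Xa : X a) (Xb : X b) (k1 : X a1 ∨ (L a1 ∧ f a1 ≠ n)) (k2 : X a2 ∨ (L a2 ∧ f a2 ≠ n))
    (k3 : X b1 ∨ (L b1 ∧ f b1 ≠ n)) (k4 : X b2 ∨ (L b2 ∧ f b2 ≠ n)) :
    ∀ x, Helper33.L9.near G y x → (L2 x ∨ P x) → g x ≠ n := by
  intro x hx hL
  rcases near9 hy ha hb hs.nb hx with r | r | r | r | r | r | r | r | r
  · subst r
    exact h.ne hn Ly hy.ha (Or.inl Xa) hL
  · subst r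
    exact h.ne hn Ly hy.hb (Or.inl Xb) hL
  · subst r
    exact h.ne hn Ly hy.hc (Or.inr ⟨hs.Lb, hs.hb⟩) hL
  · subst r
    exact h.ne hn La ha.hb k1 hL
  · subst r
    exact h.ne hn La ha.hc k2 hL
  · subst r
    exact h.ne hn Lb hb.hb k3 hL
  · subst r
    exact h.ne hn Lb hb.hc k4 hL
  · subst r
    have h1 : ¬ P x := h.nP x hs.Lc.symm
    have h2 : L2 x := hL.resolve_right h1
    rw [h.eqP x h1]
    by_cases h3 : L x
    · rw [h.eqL x h3]
      exact hs.hc h3
    · have h4 := (h.par x h2 h3).mp (hs.Lc.resolve_left h3)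
      rw [Nat.even_iff] at h4
      omega
  · subst r
    have h1 : ¬ P x := h.nP x (Or.inl hs.Xd)
    have h2 : L2 x := hL.resolve_right h1
    rw [h.eqP x h1]
    have h4 : Even (f2 x) := by
      by_cases h3 : L x
      · rw [h.eqL x h3]
        exact hs.hd h3
      · exact (h.par x h2 h3).mp hs.Xd
    rw [Nat.even_iff] at h4
    omega

/-- the numerical conditions for one side which do not depend on the kind of the chord -/
structure FA (z w b l b0 n1 n2 n3 n4 n5 y x : ℕ) : Prop where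
  y9 : y ≤ 9
  yo : y % 2 = 1
  yz : y ≠ z
  y1 : gp y n1
  y2 : y ≠ n2
  x9 : x ≤ 9
  xo : x % 2 = 1
  x4 : gp x n4
  x3 : x ≠ n3
  x5 : x ≠ n5
  g1 : gp n1 z
  l1 : n1 ≠ l
  w1 : n1 ≠ w
  b1 : n1 ≠ b
  z2 : n2 ≠ z
  b4 : n4 ≠ b0

theorem FA.ofR {z w b c l n1 n2 n3 n4 n5 y : ℕ} (h : SdR z w b c l n1 n2 n3 n4 n5 y) :
    FA z w b l b n1 n2 n3 n4 n5 y y := by
  obtain ⟨h1, h2, h3, h4, h5, h6, h7, h8, h9, h10, h11, h12, h13, h14, h15, h16, h17⟩ := h
  exact ⟨h1, h2, h3, h6, h8, h1, h2, h7, h9, h10, h11, h12, h13, h14, h16, h17⟩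

theorem FA.ofV {z w b c l b0 c0 M n1 n2 n3 n4 n5 y x u : ℕ}
    (h : SdV z w b c l b0 c0 M n1 n2 n3 n4 n5 y x u) : FA z w b l b0 n1 n2 n3 n4 n5 y x := by
  obtain ⟨h1, h2, h3, h4, h5, h6, h7, h8, h9, h10, h11, h12, h13, h14, h15, h16, h17, h18, h19,
    h20, h21, h22, h23, h24, h25⟩ := h
  exact ⟨h1, h2, h3, h6, h7, h8, h9, h12, h14, h15, h19, h20, h21, h22, h23, h24⟩

theorem gp_symm {m n : ℕ} (h : gp m n) : gp n m := h.symm

theorem gp_one {m n : ℕ} (h : gp m n) : n + 1 ≠ m ∧ m + 1 ≠ n := by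
  unfold gp at h
  omega

theorem gp_ne {m n : ℕ} (h : gp m n) : m ≠ n := by
  unfold gp at h
  omega

section frame

variable {v1 v2 v3 v4 v5 z1 z3 z5 l1 l5 w1 w3 w3' w5 yA0 yAk yB0 yBk ua va ub vb ba0 bak bb0
  bbk : V}

/-- the last two steps, in the frame of `UNb` -/
theorem frame (hN : UNb G X v1 v2 v3 v4 v5 z1 z3 z5 l1 l5 w1 w3 w3' w5 yA0 yAk yB0 yBk ua va ub vb
      ba0 bak bb0 bbk)
    (h : JSt G X L f) (h2 : JSt G X L2 f2) (sub : ∀ x, L x → L2 x) (eqL : ∀ x, L x → f2 x = f x)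
    (par : ∀ x, L2 x → ¬ L x → (X x ↔ Even (f2 x))) (c3 : cc G X v3 = 3)
    (N1 : ¬ L2 v1) (N2 : ¬ L2 v2) (N3 : ¬ L2 v3) (N4 : ¬ L2 v4) (N5 : ¬ L2 v5)
    (NAk : ¬ L2 yAk) (NA0 : ¬ L2 yA0) (NBk : ¬ L2 yBk) (NB0 : ¬ L2 yB0)
    (Lz1 : L z1) (Lz3 : L z3) (Lz5 : L z5) (Ll1 : L l1) (Ll5 : L l5) (Lw1 : L w1) (Lw5 : L w5)
    (Lva : ¬ L va) (Lua : ¬ L ua) (Lvb : ¬ L vb) (Lub : ¬ L ub)
    {sva tva sua tua svb tvb sub' tub cAk dAk cA0 dA0 cBk dBk cB0 dB0 : V}
    (mva : Nb G va yAk sva tva) (mua : Nb G ua yA0 sua tua)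
    (mvb : Nb G vb yBk svb tvb) (mub : Nb G ub yB0 sub' tub)
    {n1 n2 n3 n4 n5 nAk nA0 nBk nB0 : ℕ}
    (eA : yA0 = yAk → nA0 = nAk) (eB : yB0 = yBk → nB0 = nBk)
    (xsva : X sva ∨ (L sva ∧ f sva ≠ nAk)) (xtva : X tva ∨ (L tva ∧ f tva ≠ nAk))
    (xsua : X sua ∨ (L sua ∧ f sua ≠ nA0)) (xtua : X tua ∨ (L tua ∧ f tua ≠ nA0))
    (xsvb : X svb ∨ (L svb ∧ f svb ≠ nBk)) (xtvb : X tvb ∨ (L tvb ∧ f tvb ≠ nBk))
    (xsub : X sub' ∨ (L sub' ∧ f sub' ≠ nB0)) (xtub : X tub ∨ (L tub ∧ f tub ≠ nB0))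
    (sAk : Slot G X L f nAk yAk bak cAk dAk) (sA0 : Slot G X L f nA0 yA0 ba0 cA0 dA0)
    (sBk : Slot G X L f nBk yBk bbk cBk dBk) (sB0 : Slot G X L f nB0 yB0 bb0 cB0 dB0)
    (core : Core (f z3) n1 n2 n3 n4 n5)
    (A : FA (f z1) (f w1) (f bak) (f l1) (f ba0) n1 n2 n3 n4 n5 nAk nA0)
    (B : FA (f z5) (f w5) (f bbk) (f l5) (f bb0) n5 n4 n3 n2 n1 nBk nB0)
    (hva : (va = v4 ∧ n1 ≠ n4) ∨
      (L2 va ∧ va ∉ [v1, v2, v3, v4, v5] ∧ gp (f2 va) nAk ∧ n1 % 2 = 1))
    (hua : (ua = v1 ∧ n1 ≠ n4) ∨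
      (L2 ua ∧ ua ∉ [v1, v2, v3, v4, v5] ∧ gp (f2 ua) nA0 ∧ n4 ≠ f2 ua))
    (hvb : (vb = v2 ∧ n5 ≠ n2) ∨
      (L2 vb ∧ vb ∉ [v1, v2, v3, v4, v5] ∧ gp (f2 vb) nBk ∧ n5 % 2 = 1))
    (hub : (ub = v5 ∧ n5 ≠ n2) ∨
      (L2 ub ∧ ub ∉ [v1, v2, v3, v4, v5] ∧ gp (f2 ub) nB0 ∧ n2 ≠ f2 ub)) :
    ∃ g : V → ℕ, JSt G X (fun x => (L2 x ∨ (x = yAk ∨ x = yA0 ∨ x = yBk ∨ x = yB0)) ∨
      (x = v1 ∨ x = v2 ∨ x = v3 ∨ x = v4 ∨ x = v5)) g := by
  have hnd := hN.nd
  simp only [List.nodup_cons, List.mem_cons, List.not_mem_nil, or_false, not_or,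
    List.nodup_nil, and_true, not_false_eq_true] at hnd
  obtain ⟨⟨n12, n13, n14, n15⟩, ⟨n23, n24, n25⟩, ⟨n34, n35⟩, n45⟩ := hnd
  -- the links
  set P : V → Prop := fun x => x = yAk ∨ x = yA0 ∨ x = yBk ∨ x = yB0 with hPdef
  set g3 : V → ℕ := fun x => if x = yAk then nAk else if x = yA0 then nA0 else
    if x = yBk then nBk else if x = yB0 then nB0 else f2 x with hg3
  have dAB := hN.dAB
  have gAk : g3 yAk = nAk := by simp [hg3]
  have gA0 : g3 yA0 = nA0 := by
    by_cases e : yA0 = yAk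
    · simp [hg3, e, eA e]
    · simp [hg3, e]
  have gBk : g3 yBk = nBk := by
    simp [hg3, dAB.2.1.symm, dAB.2.2.2.symm]
  have gB0 : g3 yB0 = nB0 := by
    by_cases e : yB0 = yBk
    · simp [hg3, e, dAB.2.1.symm, dAB.2.2.2.symm, eB e]
    · simp [hg3, e, dAB.1.symm, dAB.2.2.1.symm]
  have PX : ∀ x, P x → ¬ X x := by
    rintro x (rfl | rfl | rfl | rfl)
    exacts [hN.Ak, hN.A0, hN.Bk, hN.B0]
  have PL2 : ∀ x, P x → ¬ L2 x := by
    rintro x (rfl | rfl | rfl | rfl)
    exacts [NAk, NA0, NBk, NB0]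
  have base : Base G X L L2 f f2 P g3 := by
    refine ⟨h, sub, eqL, par, ?_, ?_⟩
    · rintro x (hx | hx) hp
      · exact PX x hp hx
      · exact PL2 x hp (sub x hx)
    · intro x hx
      rw [hPdef] at hx
      simp only [not_or] at hx
      simp [hg3, hx.1, hx.2.1, hx.2.2.1, hx.2.2.2]
  have nL : ∀ {x}, ¬ L2 x → ¬ L x := fun hx hh => hx (sub _ hh)
  have keyAk := base.link A.yo hN.ak (a1 := v2) (a2 := z1) hN.n1.rot.rot mva sAk (nL NAk) (nL N1)
    Lva hN.X1 hN.Xva (Or.inl hN.X2) (Or.inr ⟨Lz1, A.yz.symm⟩) xsva xtva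
  have keyA0 := base.link A.xo hN.a0 (a1 := v3) (a2 := v5) hN.n4.rot.rot mua sA0 (nL NA0) (nL N4)
    Lua hN.X4 hN.Xua (Or.inl hN.X3) (Or.inl hN.X5) xsua xtua
  have keyBk := base.link B.yo hN.bk (a1 := v4) (a2 := z5) hN.n5.rot.rot mvb sBk (nL NBk) (nL N5)
    Lvb hN.X5 hN.Xvb (Or.inl hN.X4) (Or.inr ⟨Lz5, B.yz.symm⟩) xsvb xtvb
  have keyB0 := base.link B.xo hN.b0 (a1 := v1) (a2 := v3) hN.n2.rot.rot mub sB0 (nL NB0) (nL N2)
    Lub hN.X2 hN.Xub (Or.inl hN.X1) (Or.inl hN.X3) xsub xtub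
  have st3 : JSt G X (fun x => L2 x ∨ P x) g3 := by
    refine jst_set h2 P PL2 base.eqP ?_ ?_ ?_ ?_
    · rintro x (rfl | rfl | rfl | rfl)
      · rw [gAk]; exact A.y9
      · rw [gA0]; exact A.x9
      · rw [gBk]; exact B.y9
      · rw [gB0]; exact B.x9
    · intro x hx
      have h1 := PX x hx
      have h3 : ¬ Even (g3 x) := by
        rw [Nat.even_iff]
        rcases hx with rfl | rfl | rfl | rfl
        · rw [gAk, A.yo]; omega
        · rw [gA0, A.xo]; omega
        · rw [gBk, B.yo]; omega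
        · rw [gB0, B.xo]; omega
      exact iff_of_false h1 h3
    · rintro x y (rfl | rfl | rfl | rfl) hn hy
      · rw [gAk]; exact (keyAk y hn hy).symm
      · rw [gA0]; exact (keyA0 y hn hy).symm
      · rw [gBk]; exact (keyBk y hn hy).symm
      · rw [gB0]; exact (keyB0 y hn hy).symm
    · rintro x y (rfl | rfl | rfl | rfl) hn hs hy
      · rcases hN.ak.all y hn with r | r | r
        · subst r
          exact absurd (hy.resolve_right fun hp => PX _ hp hN.X1) N1
        · subst r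
          have h3 := hy.resolve_right fun hp => PX _ hp hN.Xva
          rcases hva with ⟨e, _⟩ | ⟨_, _, e, _⟩
          · exact absurd (e ▸ h3) N4
          · rw [gAk, base.eqP y (fun hp => PX _ hp hN.Xva)]
            exact gp_one e
        · subst r
          exact absurd (iff_of_false hN.Cak hN.Ak) hs
      · rcases hN.a0.all y hn with r | r | r
        · subst r
          exact absurd (hy.resolve_right fun hp => PX _ hp hN.X4) N4
        · subst r
          have h3 := hy.resolve_right fun hp => PX _ hp hN.Xua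
          rcases hua with ⟨e, _⟩ | ⟨_, _, e, _⟩
          · exact absurd (e ▸ h3) N1
          · rw [gA0, base.eqP y (fun hp => PX _ hp hN.Xua)]
            exact gp_one e
        · subst r
          exact absurd (iff_of_false hN.Ca0 hN.A0) hs
      · rcases hN.bk.all y hn with r | r | r
        · subst r
          exact absurd (hy.resolve_right fun hp => PX _ hp hN.X5) N5
        · subst r
          have h3 := hy.resolve_right fun hp => PX _ hp hN.Xvb
          rcases hvb with ⟨e, _⟩ | ⟨_, _, e, _⟩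
          · exact absurd (e ▸ h3) N2
          · rw [gBk, base.eqP y (fun hp => PX _ hp hN.Xvb)]
            exact gp_one e
        · subst r
          exact absurd (iff_of_false hN.Cbk hN.Bk) hs
      · rcases hN.b0.all y hn with r | r | r
        · subst r
          exact absurd (hy.resolve_right fun hp => PX _ hp hN.X2) N2
        · subst r
          have h3 := hy.resolve_right fun hp => PX _ hp hN.Xub
          rcases hub with ⟨e, _⟩ | ⟨_, _, e, _⟩
          · exact absurd (e ▸ h3) N5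
          · rw [gB0, base.eqP y (fun hp => PX _ hp hN.Xub)]
            exact gp_one e
        · subst r
          exact absurd (iff_of_false hN.Cb0 hN.B0) hs
  -- the core
  obtain ⟨k1, k2, k3, k4, k5, k3e, k12, k23, k34, k45, k13, k24, k35, kz3, k2z, k4z⟩ := core
  set Q : V → Prop := fun x => x = v1 ∨ x = v2 ∨ x = v3 ∨ x = v4 ∨ x = v5 with hQdef
  set g4 : V → ℕ := fun x => if x = v1 then n1 else if x = v2 then n2 else if x = v3 then n3 else
    if x = v4 then n4 else if x = v5 then n5 else g3 x with hg4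
  have e1 : g4 v1 = n1 := by simp [hg4]
  have e2 : g4 v2 = n2 := by simp [hg4, Ne.symm n12]
  have e3 : g4 v3 = n3 := by simp [hg4, Ne.symm n13, Ne.symm n23]
  have e4 : g4 v4 = n4 := by simp [hg4, Ne.symm n14, Ne.symm n24, Ne.symm n34]
  have e5 : g4 v5 = n5 := by simp [hg4, Ne.symm n15, Ne.symm n25, Ne.symm n35, Ne.symm n45]
  have eqQ : ∀ x, ¬ Q x → g4 x = g3 x := by
    intro x hx
    rw [hQdef] at hx
    simp only [not_or] at hx
    simp [hg4, hx.1, hx.2.1, hx.2.2.1, hx.2.2.2.1, hx.2.2.2.2]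
  have QX : ∀ x, Q x → X x := by
    rintro x (rfl | rfl | rfl | rfl | rfl)
    exacts [hN.X1, hN.X2, hN.X3, hN.X4, hN.X5]
  have QL : ∀ x, Q x → ¬ (L2 x ∨ P x) := by
    intro x hx
    rintro (h3 | h3)
    · rcases hx with rfl | rfl | rfl | rfl | rfl
      exacts [N1 h3, N2 h3, N3 h3, N4 h3, N5 h3]
    · exact PX x h3 (QX x hx)
  -- labels around
  have oL : ∀ x, L x → g4 x = f x := by
    intro x hx
    rw [eqQ x (fun hq => QL x hq (Or.inl (sub x hx))), base.eqP x (base.nP x (Or.inr hx)),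
      eqL x hx]
  have oP : ∀ x, P x → g4 x = g3 x := fun x hx => eqQ x fun hq => PX x hx (QX x hq)
  have oAk : g4 yAk = nAk := by rw [oP _ (Or.inl rfl), gAk]
  have oA0 : g4 yA0 = nA0 := by rw [oP _ (Or.inr (Or.inl rfl)), gA0]
  have oBk : g4 yBk = nBk := by rw [oP _ (Or.inr (Or.inr (Or.inl rfl))), gBk]
  have oB0 : g4 yB0 = nB0 := by rw [oP _ (Or.inr (Or.inr (Or.inr rfl))), gB0]
  have o2 : ∀ x, X x → x ∉ [v1, v2, v3, v4, v5] → g4 x = f2 x := by
    intro x hx hn
    simp only [List.mem_cons, List.not_mem_nil, or_false, not_or] at hn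
    have hq' : ¬ Q x := by
      rintro (e | e | e | e | e)
      exacts [hn.1 e, hn.2.1 e, hn.2.2.1 e, hn.2.2.2.1 e, hn.2.2.2.2 e]
    rw [eqQ x hq', base.eqP x (base.nP x (Or.inl hx))]
  -- the third neighbours of `z3`
  have ow3 : ∀ x, ¬ X x → Helper33.L9.near G v3 x → ((L2 x ∨ P x) ∨ Q x) → g4 x % 2 = 1 := by
    intro x hx hn hL
    have h3 : L2 x ∨ P x := hL.resolve_right fun hq => hx (QX x hq)
    rw [eqQ x (fun hq => hx (QX x hq))]
    rcases h3 with h3 | h3
    · rw [base.eqP x (fun hp => PL2 x hp h3)]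
      have h4 : X x ↔ Even (f2 x) := by
        by_cases h5 : L x
        · rw [eqL x h5]
          exact near_par h (nL N3) c3 hn h5
        · exact par x h3 h5
      have h6 : ¬ Even (f2 x) := fun e => hx (h4.mpr e)
      rw [Nat.even_iff] at h6
      omega
    · rcases h3 with r | r | r | r
      · rw [r, gAk]; exact A.yo
      · rw [r, gA0]; exact A.xo
      · rw [r, gBk]; exact B.yo
      · rw [r, gB0]; exact B.xo
  have tA : g4 va ≠ n1 := by
    rcases hva with ⟨e, e'⟩ | ⟨e, e', e'', e'''⟩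
    · rw [e, e4]; exact e'.symm
    · rw [o2 va hN.Xva e']
      have := base.evn hN.Xva (nL NAk) hN.ak.hb e
      rw [Nat.even_iff] at this
      omega
  have tB : g4 vb ≠ n5 := by
    rcases hvb with ⟨e, e'⟩ | ⟨e, e', e'', e'''⟩
    · rw [e, e2]; exact e'.symm
    · rw [o2 vb hN.Xvb e']
      have := base.evn hN.Xvb (nL NBk) hN.bk.hb e
      rw [Nat.even_iff] at this
      omega
  have uA' : g4 ua ≠ n4 := by
    rcases hua with ⟨e, e'⟩ | ⟨e, e', e'', e'''⟩
    · rw [e, e1]; exact e'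
    · rw [o2 ua hN.Xua e']; exact e'''.symm
  have uB' : g4 ub ≠ n2 := by
    rcases hub with ⟨e, e'⟩ | ⟨e, e', e'', e'''⟩
    · rw [e, e5]; exact e'
    · rw [o2 ub hN.Xub e']; exact e'''.symm
  have Lbak := sAk.Lb
  have Lba0 := sA0.Lb
  have Lbbk := sBk.Lb
  have Lbb0 := sB0.Lb
  have inL : ∀ {x}, L x → ((L2 x ∨ P x) ∨ Q x) := fun hx => Or.inl (Or.inl (sub _ hx))
  have inP : ∀ {x}, P x → ((L2 x ∨ P x) ∨ Q x) := fun hx => Or.inl (Or.inr hx)
  have inQ : ∀ {x}, Q x → ((L2 x ∨ P x) ∨ Q x) := fun hx => Or.inr hx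
  have iAk : P yAk := Or.inl rfl
  have iA0 : P yA0 := Or.inr (Or.inl rfl)
  have iBk : P yBk := Or.inr (Or.inr (Or.inl rfl))
  have iB0 : P yB0 := Or.inr (Or.inr (Or.inr rfl))
  have q1 : Q v1 := Or.inl rfl
  have q2 : Q v2 := Or.inr (Or.inl rfl)
  have q3 : Q v3 := Or.inr (Or.inr (Or.inl rfl))
  have q4 : Q v4 := Or.inr (Or.inr (Or.inr (Or.inl rfl)))
  have q5 : Q v5 := Or.inr (Or.inr (Or.inr (Or.inr rfl)))
  have iva : (L2 va ∨ P va) ∨ Q va := by
    rcases hva with ⟨e, _⟩ | ⟨e, _⟩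
    · rw [e]; exact inQ q4
    · exact Or.inl (Or.inl e)
  have iua : (L2 ua ∨ P ua) ∨ Q ua := by
    rcases hua with ⟨e, _⟩ | ⟨e, _⟩
    · rw [e]; exact inQ q1
    · exact Or.inl (Or.inl e)
  have ivb : (L2 vb ∨ P vb) ∨ Q vb := by
    rcases hvb with ⟨e, _⟩ | ⟨e, _⟩
    · rw [e]; exact inQ q2
    · exact Or.inl (Or.inl e)
  have iub : (L2 ub ∨ P ub) ∨ Q ub := by
    rcases hub with ⟨e, _⟩ | ⟨e, _⟩
    · rw [e]; exact inQ q5
    · exact Or.inl (Or.inl e)
  have hw : ∀ {x}, x = w3 ∨ x = w3' → Helper33.L9.near G v3 x → ((L2 x ∨ P x) ∨ Q x) →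
      n3 ≠ g4 x := by
    intro x hx hn' hL
    have hX : ¬ X x := by
      rcases hx with rfl | rfl
      exacts [hN.W3, hN.W3']
    have := ow3 x hX hn' hL
    omega
  refine ⟨g4, jst_any st3 Q QL eqQ ?_ ?_ ?_ ?_⟩
  · rintro x (rfl | rfl | rfl | rfl | rfl)
    · rw [e1]; exact k1
    · rw [e2]; exact k2
    · rw [e3]; exact k3
    · rw [e4]; exact k4
    · rw [e5]; exact k5
  · rintro x y (rfl | rfl | rfl | rfl | rfl) hn hb
    · rcases hN.near1 hn with r | r | r | r | r | r | r | r | r <;> rw [r]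
      exacts [inQ q2, inL Lz1, inP iAk, inQ q3, inP iB0, inL Ll1, inL Lw1, iva, inL Lbak]
    · rcases hN.near2 hn with r | r | r | r | r | r | r | r | r <;> rw [r]
      exacts [inQ q1, inQ q3, inP iB0, inL Lz1, inP iAk, inQ q4, inL Lz3, iub, inL Lbb0]
    · exfalso
      rw [e3] at hb
      apply hb
      rw [Nat.even_iff]
      exact iff_of_true hN.X3 k3e
    · rcases hN.near4 hn with r | r | r | r | r | r | r | r | r <;> rw [r]
      exacts [inQ q3, inQ q5, inP iA0, inL Lz3, inQ q2, inL Lz5, inP iBk, iua, inL Lba0]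
    · rcases hN.near5 hn with r | r | r | r | r | r | r | r | r <;> rw [r]
      exacts [inQ q4, inL Lz5, inP iBk, inP iA0, inQ q3, inL Ll5, inL Lw5, ivb, inL Lbbk]
  · rintro x y (rfl | rfl | rfl | rfl | rfl) hn hy
    · rw [e1]
      rcases hN.near1 hn with r | r | r | r | r | r | r | r | r <;> rw [r]
      · rw [e2]; exact gp_ne k12
      · rw [oL _ Lz1]; exact gp_ne A.g1
      · rw [oAk]; exact (gp_ne A.y1).symm
      · rw [e3]; exact k13
      · rw [oB0]; exact B.x5.symm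
      · rw [oL _ Ll1]; exact A.l1
      · rw [oL _ Lw1]; exact A.w1
      · exact tA.symm
      · rw [oL _ Lbak]; exact A.b1
    · rw [e2]
      rcases hN.near2 hn with r | r | r | r | r | r | r | r | r <;> rw [r]
      · rw [e1]; exact (gp_ne k12).symm
      · rw [e3]; exact gp_ne k23
      · rw [oB0]; exact (gp_ne B.x4).symm
      · rw [oL _ Lz1]; exact A.z2
      · rw [oAk]; exact A.y2.symm
      · rw [e4]; exact k24
      · rw [oL _ Lz3]; exact k2z
      · exact uB'.symm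
      · rw [oL _ Lbb0]; exact B.b4
    · rw [e3]
      rcases hN.near3 hn with r | r | r | r | r | r | r | r | r
      · rw [r, e2]; exact (gp_ne k23).symm
      · rw [r, e4]; exact gp_ne k34
      · rw [r, oL _ Lz3]; exact gp_ne kz3
      · rw [r, oB0]; exact B.x3.symm
      · rw [r, e1]; exact k13.symm
      · rw [r, e5]; exact k35
      · rw [r, oA0]; exact A.x3.symm
      · exact hw (Or.inl r) hn hy
      · exact hw (Or.inr r) hn hy
    · rw [e4]
      rcases hN.near4 hn with r | r | r | r | r | r | r | r | r <;> rw [r]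
      · rw [e3]; exact (gp_ne k34).symm
      · rw [e5]; exact gp_ne k45
      · rw [oA0]; exact (gp_ne A.x4).symm
      · rw [oL _ Lz3]; exact k4z
      · rw [e2]; exact k24.symm
      · rw [oL _ Lz5]; exact B.z2
      · rw [oBk]; exact B.y2.symm
      · exact uA'.symm
      · rw [oL _ Lba0]; exact A.b4
    · rw [e5]
      rcases hN.near5 hn with r | r | r | r | r | r | r | r | r <;> rw [r]
      · rw [e4]; exact (gp_ne k45).symm
      · rw [oL _ Lz5]; exact gp_ne B.g1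
      · rw [oBk]; exact (gp_ne B.y1).symm
      · rw [oA0]; exact A.x5.symm
      · rw [e3]; exact k35.symm
      · rw [oL _ Ll5]; exact B.l1
      · rw [oL _ Lw5]; exact B.w1
      · exact tB.symm
      · rw [oL _ Lbbk]; exact B.b1
  · rintro x y (rfl | rfl | rfl | rfl | rfl) hn hy
    · rw [e1]
      rcases hN.n1.all y hn with r | r | r <;> rw [r]
      · rw [e2]; exact k12
      · rw [oL _ Lz1]; exact A.g1
      · rw [oAk]; exact gp_symm A.y1
    · rw [e2]
      rcases hN.n2.all y hn with r | r | r <;> rw [r]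
      · rw [e1]; exact gp_symm k12
      · rw [e3]; exact k23
      · rw [oB0]; exact gp_symm B.x4
    · rw [e3]
      rcases hN.n3.all y hn with r | r | r <;> rw [r]
      · rw [e2]; exact gp_symm k23
      · rw [e4]; exact k34
      · rw [oL _ Lz3]; exact kz3
    · rw [e4]
      rcases hN.n4.all y hn with r | r | r <;> rw [r]
      · rw [e3]; exact gp_symm k34
      · rw [e5]; exact k45
      · rw [oA0]; exact gp_symm A.x4
    · rw [e5]
      rcases hN.n5.all y hn with r | r | r <;> rw [r]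
      · rw [e4]; exact gp_symm k45
      · rw [oL _ Lz5]; exact B.g1
      · rw [oBk]; exact gp_symm B.y1

end frame

end Helper97.L9.F
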