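import Pool.Agent.helper97.L9.FMode
import Pool.Agent.helper45.L9.JSlots

/-!
# The F-mode of the joint stage, in the context `JC`

`fmode`: all vertices around the `U_5` are labelled; labels of `v1 .. v5` (any parity), of the links
(odd) and of the first units are given.
-/

set_option autoImplicit false
set_option linter.unusedSectionVars false
set_option linter.unusedSimpArgs false
set_option linter.unusedVariables false

namespace Helper97.L9.F

open Finset Classical Helper33.L9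
open Helper42.L9 hiding near gp
open Pool.Agent.helper58.L9 hiding Fr
open Helper17.L9
open Pool.Agent.helper45.L9 (JC)
open Pool.Agent.helper40.L9 (ParOK JSt Bad Tol LamU JExt)
open Pool.Agent.helper40.L9.J (kk M3 nbm gp Core SdR SdV)

variable {V : Type*} [Fintype V] {G : SimpleGraph V} {X L L2 : V → Prop} {f f2 g : V → ℕ}
  {Z S : Finset V}

/-- the data of a virtual chord: mask, label `c` of the first unit, labels `y`, `x` of the last and
of the first link -/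
def WData (f : V → ℕ) (p q : V) (c y x : ℕ) : Prop :=
  ∃ M ∈ M3, (∀ j, j < 5 → M.testBit j = true → 2 * j ≠ f p ∧ 2 * j ≠ f q) ∧
    c % 2 = 0 ∧ c ≤ 8 ∧ (kk M (y / 2)).testBit (c / 2) = true ∧ gp c x

theorem kk_sub {M y c : ℕ} (h : (kk M y).testBit c = true) : M.testBit c = true := by
  unfold kk at h
  split_ifs at h with h1
  · rw [← h1.2, Nat.testBit_and, Bool.and_eq_true] at h
    exact h.1
  · exact h

/-- a wire with unlabelled units, links and ends -/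
theorem wire_step (hcub : ∀ v, (univ.filter fun b => G.Adj v b).card = 3) {k : ℕ}
    {p u v q y : ℕ → V} {σ τ : V} (hw : Helper33.L9.Wire G X Z S k p u v q y σ τ) (Xσ : X σ)
    (h : JSt G X L f) (hu : ∀ i, i < k → ¬ L (u i)) (hv : ∀ i, i < k → ¬ L (v i))
    (hy : ∀ i, i ≤ k → ¬ L (y i)) (hσ : ¬ L σ) (hτ : ¬ L τ)
    (hNM : ∀ i, 0 < i → i < k → ∀ b, ownR G X (y i) b → NMAt G X b) {c yl x : ℕ}
    (hy9 : yl ≤ 9) (hyo : yl % 2 = 1) (hd : k ≠ 0 → WData f (p 0) (q 0) c yl x) :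
    ∃ g, JSt G X (fun x => L x ∨ WS k u v y x) g ∧ (∀ x, ¬ WS k u v y x → g x = f x) ∧
      (k ≠ 0 → g (u 0) = c ∧ gp (g (v (k - 1))) yl) ∧ ∀ x, WS k u v y x → (X x ↔ Even (g x)) := by
  by_cases hk : k = 0
  · subst hk
    have hno : ∀ x, ¬ WS 0 u v y x := by
      rintro x (⟨i, hi, _⟩ | ⟨i, _, hi, _⟩) <;> omega
    exact ⟨f, jst_congr h fun x => ⟨Or.inl, fun hh => hh.resolve_right (hno x)⟩, fun _ _ => rfl,
      fun hh => absurd rfl hh, fun x hx => absurd hx (hno x)⟩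
  obtain ⟨M, hM, hp, hc2, hc8, hkk, hgx⟩ := hd hk
  obtain ⟨a, b, T, hab, fa, fb, hT, hTy, hT1⟩ := kk_wire (L := M) (c := c / 2) (y := yl / 2)
    (p0 := f (p 0)) (q0 := f (q 0)) (pk := f (p (k - 1))) (qk := f (q (k - 1))) hM (by omega)
    (by omega) (kk_sub hkk) hkk hp
  have ec : 2 * (c / 2) = c := by omega
  have ey : 2 * (yl / 2) + 1 = yl := by omega
  rw [ec] at fa fb hT1
  rw [ey] at hTy
  have hcp := hp (c / 2) (by omega) (kk_sub hkk)
  rw [ec] at hcp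
  obtain ⟨g, g1, g2, g3, g4, g5⟩ := wire_fill_jst hcub hw Xσ (by omega : 0 < k) h hu hv
    (fun i h1 h2 => hy i h2.le) hNM hab (mem_evs.mpr ⟨hc2, hc8⟩) hcp fa fb hT
    (fun h1 => hT1 (by rw [h1]) (by rw [h1])) (fun hh => absurd hh hσ) (fun hh => absurd hh hτ)
    (fun hh => absurd hh (hy 0 (Nat.zero_le _))) (fun hh => absurd hh (hy k le_rfl))
  refine ⟨g, g1, g2, fun _ => ⟨g3, ?_⟩, g5⟩
  rw [g4]
  have hTe := (mem_evs.mp hT.mem.1)
  unfold gp
  omega

section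

variable {v1 v2 v3 v4 v5 z1 z3 z5 l1 l5 : V} {kA kB : ℕ}
  {pA uA vA qA yA pB uB vB qB yB : ℕ → V} {w1 w3 w3' w5 ba0 bak bb0 bbk : V}
  (hcub : ∀ v, (univ.filter fun b => G.Adj v b).card = 3)
  (H : JC G X Z S L f v1 v2 v3 v4 v5 z1 z3 z5 l1 l5 kA kB pA uA vA qA yA pB uB vB qB yB
    w1 w3 w3' w5 ba0 bak bb0 bbk)

include hcub H

/-- the other neighbours of the end `va` of the last link -/
theorem nb_va : ∃ s t, Nb G (if kA = 0 then v4 else vA (kA - 1)) (yA kA) s t ∧ X s ∧ X t := by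
  by_cases hk : kA = 0
  · rw [if_pos hk]
    have := H.n.n4
    rw [hk]
    exact ⟨v3, v5, this.rot.rot, H.n.X3, H.n.X5⟩
  · rw [if_neg hk]
    have h1 : kA - 1 < kA := by omega
    have h2 := wN_v hcub H.h.A H.n.X4 h1
    have h3 : kA - 1 + 1 = kA := by omega
    rw [h3] at h2
    exact ⟨uA (kA - 1), qA (kA - 1), h2.rot.rot, wX_u H.h.A H.n.X4 h1, wX_q H.h.A H.n.X4 h1⟩

/-- the other neighbours of the end `ua` of the first link -/
theorem nb_ua : ∃ s t, Nb G (if 0 = kA then v1 else uA 0) (yA 0) s t ∧ X s ∧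
    (X t ∨ (kA = 0 ∧ t = z1)) := by
  by_cases hk : 0 = kA
  · rw [if_pos hk]
    have := H.n.n1
    rw [← hk] at this
    exact ⟨v2, z1, this.rot.rot, H.n.X2, Or.inr ⟨hk.symm, rfl⟩⟩
  · rw [if_neg hk]
    have h1 : 0 < kA := by omega
    have h2 := wN_u hcub H.h.A H.n.X4 h1
    exact ⟨pA 0, vA 0, h2.rot.rot, wX_p H.h.A H.n.X4 h1, Or.inl (wX_v H.h.A H.n.X4 h1)⟩

/-- **The F-mode theorem.** -/
theorem fmode
    (hNMA : ∀ i, 0 < i → i < kA → ∀ b, ownR G X (yA i) b → NMAt G X b)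
    (hNMB : ∀ i, 0 < i → i < kB → ∀ b, ownR G X (yB i) b → NMAt G X b)
    (Lz1 : L z1) (Lz3 : L z3) (Lz5 : L z5) (Ll1 : L l1) (Ll5 : L l5) (Lw1 : L w1) (Lw5 : L w5)
    {cAk dAk cA0 dA0 cBk dBk cB0 dB0 : V} {n1 n2 n3 n4 n5 nAk nA0 nBk nB0 cA cB : ℕ}
    (sAk : Slot G X L f nAk (yA kA) bak cAk dAk) (sA0 : Slot G X L f nA0 (yA 0) ba0 cA0 dA0)
    (sBk : Slot G X L f nBk (yB kB) bbk cBk dBk) (sB0 : Slot G X L f nB0 (yB 0) bb0 cB0 dB0)
    (core : Core (f z3) n1 n2 n3 n4 n5)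
    (A : FA (f z1) (f w1) (f bak) (f l1) (f ba0) n1 n2 n3 n4 n5 nAk nA0)
    (B : FA (f z5) (f w5) (f bbk) (f l5) (f bb0) n5 n4 n3 n2 n1 nBk nB0)
    (rA : kA = 0 → nA0 = nAk ∧ n1 ≠ n4)
    (rB : kB = 0 → nB0 = nBk ∧ n5 ≠ n2)
    (wA : kA ≠ 0 → n1 % 2 = 1 ∧ n4 ≠ cA ∧ WData f (pA 0) (qA 0) cA nAk nA0)
    (wB : kB ≠ 0 → n5 % 2 = 1 ∧ n2 ≠ cB ∧ WData f (pB 0) (qB 0) cB nBk nB0) :
    ∃ f', JSt G X (fun x => L x ∨ LamU v1 v2 v3 v4 v5 kA kB uA vA yA uB vB yB x) f' := by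
  have R := H.rev
  obtain ⟨n12, n13, n14, n15, n23, n24, n25, n34, n35, n45⟩ := H.nd5
  -- wire `A`
  obtain ⟨f1, st1, o1, q1, p1⟩ := wire_step hcub H.h.A H.n.X4 H.st (fun i hi => H.uuA hi)
    (fun i hi => H.uvA hi) (fun i hi => H.uyA hi) H.u4 H.u1 hNMA A.y9 A.yo
    (fun hk => (wA hk).2.2)
  -- positions
  have XuA : ∀ i, i < kA → X (uA i) := fun i hi => wX_u H.h.A H.n.X4 hi
  have XvA : ∀ i, i < kA → X (vA i) := fun i hi => wX_v H.h.A H.n.X4 hi
  have XuB : ∀ i, i < kB → X (uB i) := fun i hi => wX_u H.h.B H.n.X2 hi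
  have XvB : ∀ i, i < kB → X (vB i) := fun i hi => wX_v H.h.B H.n.X2 hi
  have YA : ∀ i, i ≤ kA → ¬ X (yA i) := fun i hi => wY H.h.A H.n.X4 hi
  have YB : ∀ i, i ≤ kB → ¬ X (yB i) := fun i hi => wY H.h.B H.n.X2 hi
  have WAL : ∀ x, WS kA uA vA yA x → ¬ L x := by
    rintro x (⟨i, hi, rfl | rfl⟩ | ⟨i, _, hi, rfl⟩)
    exacts [H.uuA hi, H.uvA hi, H.uyA hi.le]
  have WBL : ∀ x, WS kB uB vB yB x → ¬ L x := by
    rintro x (⟨i, hi, rfl | rfl⟩ | ⟨i, _, hi, rfl⟩)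
    exacts [R.uuA hi, R.uvA hi, R.uyA hi.le]
  have cuA : ∀ i, i < kA → cc G X (uA i) = 3 ∧ cc G X (vA i) = 3 := fun i hi =>
    ⟨(H.h.A.unit i hi).cu, (H.h.A.unit i hi).cv⟩
  have cuB : ∀ i, i < kB → cc G X (uB i) = 3 ∧ cc G X (vB i) = 3 := fun i hi =>
    ⟨(H.h.B.unit i hi).cu, (H.h.B.unit i hi).cv⟩
  -- members of the wires are different from other vertices
  have WAx : ∀ x, WS kA uA vA yA x → X x → ∃ i, i < kA ∧ (x = uA i ∨ x = vA i) := by
    rintro x (h1 | ⟨i, _, hi, rfl⟩) hx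
    · exact h1
    · exact absurd hx (YA i hi.le)
  have WBx : ∀ x, WS kB uB vB yB x → X x → ∃ i, i < kB ∧ (x = uB i ∨ x = vB i) := by
    rintro x (h1 | ⟨i, _, hi, rfl⟩) hx
    · exact h1
    · exact absurd hx (YB i hi.le)
  have WAy : ∀ x, WS kA uA vA yA x → ¬ X x → ∃ i, 0 < i ∧ i < kA ∧ x = yA i := by
    rintro x (⟨i, hi, rfl | rfl⟩ | h1) hx
    · exact absurd (XuA i hi) hx
    · exact absurd (XvA i hi) hx
    · exact h1
  have WBy : ∀ x, WS kB uB vB yB x → ¬ X x → ∃ i, 0 < i ∧ i < kB ∧ x = yB i := by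
    rintro x (⟨i, hi, rfl | rfl⟩ | h1) hx
    · exact absurd (XuB i hi) hx
    · exact absurd (XvB i hi) hx
    · exact h1
  have WAv : ∀ x, WS kA uA vA yA x → x ∉ [v1, v2, v3, v4, v5] := by
    intro x hx
    simp only [List.mem_cons, List.not_mem_nil, or_false, not_or]
    rcases hx with ⟨i, hi, rfl | rfl⟩ | ⟨i, _, hi, rfl⟩
    · exact (H.nA hi).1
    · exact (H.nA hi).2
    · have := YA i hi.le
      exact ⟨fun e => this (e ▸ H.n.X1), fun e => this (e ▸ H.n.X2), fun e => this (e ▸ H.n.X3),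
        fun e => this (e ▸ H.n.X4), fun e => this (e ▸ H.n.X5)⟩
  have WBv : ∀ x, WS kB uB vB yB x → x ∉ [v1, v2, v3, v4, v5] := by
    intro x hx
    simp only [List.mem_cons, List.not_mem_nil, or_false, not_or]
    rcases hx with ⟨i, hi, rfl | rfl⟩ | ⟨i, _, hi, rfl⟩
    · have := (R.nA hi).1
      exact ⟨this.2.2.2.2, this.2.2.2.1, this.2.2.1, this.2.1, this.1⟩
    · have := (R.nA hi).2
      exact ⟨this.2.2.2.2, this.2.2.2.1, this.2.2.1, this.2.1, this.1⟩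
    · have := YB i hi.le
      exact ⟨fun e => this (e ▸ H.n.X1), fun e => this (e ▸ H.n.X2), fun e => this (e ▸ H.n.X3),
        fun e => this (e ▸ H.n.X4), fun e => this (e ▸ H.n.X5)⟩
  have WAB : ∀ x, WS kA uA vA yA x → ¬ WS kB uB vB yB x := by
    intro x hx hy
    by_cases hX : X x
    · obtain ⟨i, hi, h1⟩ := WAx x hx hX
      obtain ⟨j, hj, h2⟩ := WBx x hy hX
      have h3 := H.h.dAB i hi j hj
      rcases h1 with h1 | h1 <;> rcases h2 with h2 | h2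
      · exact h3.1 (h1.symm.trans h2)
      · exact h3.2.1 (h1.symm.trans h2)
      · exact h3.2.2.1 (h1.symm.trans h2)
      · exact h3.2.2.2 (h1.symm.trans h2)
    · obtain ⟨i, _, hi, h1⟩ := WAy x hx hX
      obtain ⟨j, _, hj, h2⟩ := WBy x hy hX
      exact H.h.dy i hi.le j hj.le (h1.symm.trans h2)
  have yAW : ∀ i, (i = 0 ∨ i = kA) → ¬ WS kA uA vA yA (yA i) ∧ ¬ WS kB uB vB yB (yA i) := by
    intro i hi
    have hi' : i ≤ kA := by omega
    refine ⟨fun hx => ?_, fun hx => ?_⟩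
    · obtain ⟨j, h0, hj, h1⟩ := WAy _ hx (YA i hi')
      have := H.h.A.nyy i hi' j hj.le h1
      omega
    · obtain ⟨j, h0, hj, h1⟩ := WBy _ hx (YA i hi')
      exact H.h.dy i hi' j hj.le h1
  have yBW : ∀ i, (i = 0 ∨ i = kB) → ¬ WS kA uA vA yA (yB i) ∧ ¬ WS kB uB vB yB (yB i) := by
    intro i hi
    have hi' : i ≤ kB := by omega
    refine ⟨fun hx => ?_, fun hx => ?_⟩
    · obtain ⟨j, h0, hj, h1⟩ := WAy _ hx (YB i hi')
      exact H.h.dy j hj.le i hi' h1.symm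
    · obtain ⟨j, h0, hj, h1⟩ := WBy _ hx (YB i hi')
      have := H.h.B.nyy i hi' j hj.le h1
      omega
  -- wire `B`
  have pBf : kB ≠ 0 → f1 (pB 0) = f (pB 0) ∧ f1 (qB 0) = f (qB 0) := by
    intro hk
    have hk0 : 0 < kB := by omega
    have h1 := H.h.B.unit 0 hk0
    have key : ∀ x, X x → cc G X x = 2 → f1 x = f x := by
      intro x hX h2
      refine o1 x fun hx => ?_
      obtain ⟨i, hi, e | e⟩ := WAx x hx hX
      · have := (cuA i hi).1
        rw [← e] at this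
        omega
      · have := (cuA i hi).2
        rw [← e] at this
        omega
    exact ⟨key _ (wX_p H.h.B H.n.X2 hk0) h1.cp, key _ (wX_q H.h.B H.n.X2 hk0) h1.cq⟩
  obtain ⟨f2, st2, o2, q2, p2⟩ := wire_step hcub H.h.B H.n.X2 st1
    (fun i hi => by
      rintro (h1 | h1)
      · exact R.uuA hi h1
      · exact WAB _ h1 (Or.inl ⟨i, hi, Or.inl rfl⟩))
    (fun i hi => by
      rintro (h1 | h1)
      · exact R.uvA hi h1
      · exact WAB _ h1 (Or.inl ⟨i, hi, Or.inr rfl⟩))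
    (fun i hi => by
      rintro (h1 | h1)
      · exact R.uyA hi h1
      · obtain ⟨j, h0, hj, h2⟩ := WAy _ h1 (YB i hi)
        exact H.h.dy j hj.le i hi h2.symm)
    (by
      rintro (h1 | h1)
      · exact H.u2 h1
      · exact WAv _ h1 (by simp))
    (by
      rintro (h1 | h1)
      · exact H.u5 h1
      · exact WAv _ h1 (by simp)) hNMB B.y9 B.yo (c := cB) (x := nB0)
    (fun hk => by
      obtain ⟨M, h1, h2, h3⟩ := (wB hk).2.2
      refine ⟨M, h1, ?_, h3⟩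
      rw [(pBf hk).1, (pBf hk).2]
      exact h2)
  -- the state before the links
  have oL : ∀ x, L x → f2 x = f x := fun x hx => by
    rw [o2 x (fun hh => WBL x hh hx), o1 x (fun hh => WAL x hh hx)]
  have oA : ∀ x, WS kA uA vA yA x → f2 x = f1 x := fun x hx => o2 x (WAB x hx)
  have par : ∀ x, ((L x ∨ WS kA uA vA yA x) ∨ WS kB uB vB yB x) → ¬ L x →
      (X x ↔ Even (f2 x)) := by
    rintro x ((h1 | h1) | h1) h2
    · exact absurd h1 h2
    · rw [oA x h1]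
      exact p1 x h1
    · exact p2 x h1
  have notv : ∀ x, x ∈ [v1, v2, v3, v4, v5] → ¬ L x →
      ¬ ((L x ∨ WS kA uA vA yA x) ∨ WS kB uB vB yB x) := by
    rintro x hx hL ((h1 | h1) | h1)
    · exact hL h1
    · exact WAv x h1 hx
    · exact WBv x h1 hx
  have notyA : ∀ i, (i = 0 ∨ i = kA) →
      ¬ ((L (yA i) ∨ WS kA uA vA yA (yA i)) ∨ WS kB uB vB yB (yA i)) := by
    rintro i hi ((h1 | h1) | h1)
    · exact H.uyA (by omega) h1
    · exact (yAW i hi).1 h1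
    · exact (yAW i hi).2 h1
  have notyB : ∀ i, (i = 0 ∨ i = kB) →
      ¬ ((L (yB i) ∨ WS kA uA vA yA (yB i)) ∨ WS kB uB vB yB (yB i)) := by
    rintro i hi ((h1 | h1) | h1)
    · exact R.uyA (by omega) h1
    · exact (yBW i hi).1 h1
    · exact (yBW i hi).2 h1
  obtain ⟨sva, tva, mva, xsva, xtva⟩ := nb_va hcub H
  obtain ⟨sua, tua, mua, xsua, xtua⟩ := nb_ua hcub H
  obtain ⟨svb, tvb, mvb, xsvb, xtvb⟩ := nb_va hcub R
  obtain ⟨sub', tub, mub, xsub, xtub⟩ := nb_ua hcub R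
  obtain ⟨g, hg⟩ := frame (L2 := fun x => (L x ∨ WS kA uA vA yA x) ∨ WS kB uB vB yB x) H.n H.st
    st2 (fun x hx => Or.inl (Or.inl hx)) oL par H.h.c3
    (notv v1 (by simp) H.u1) (notv v2 (by simp) H.u2) (notv v3 (by simp) H.u3)
    (notv v4 (by simp) H.u4) (notv v5 (by simp) H.u5)
    (notyA kA (Or.inr rfl)) (notyA 0 (Or.inl rfl)) (notyB kB (Or.inr rfl)) (notyB 0 (Or.inl rfl))
    Lz1 Lz3 Lz5 Ll1 Ll5 Lw1 Lw5 H.uva H.uua R.uva R.uua mva mua mvb mub
    (n1 := n1) (n2 := n2) (n3 := n3) (n4 := n4) (n5 := n5)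
    (fun e => by
      by_cases hk : kA = 0
      · exact (rA hk).1
      · have := H.h.A.nyy 0 (Nat.zero_le _) kA le_rfl e
        omega)
    (fun e => by
      by_cases hk : kB = 0
      · exact (rB hk).1
      · have := H.h.B.nyy 0 (Nat.zero_le _) kB le_rfl e
        omega)
    (Or.inl xsva) (Or.inl xtva) (Or.inl xsua)
    (xtua.imp id fun hh => by
      rw [hh.2, (rA hh.1).1]
      exact ⟨Lz1, A.yz.symm⟩)
    (Or.inl xsvb) (Or.inl xtvb) (Or.inl xsub)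
    (xtub.imp id fun hh => by
      rw [hh.2, (rB hh.1).1]
      exact ⟨Lz5, B.yz.symm⟩)
    sAk sA0 sBk sB0 core A B
    (by
      by_cases hk : kA = 0
      · left
        rw [if_pos hk]
        exact ⟨rfl, (rA hk).2⟩
      · right
        rw [if_neg hk]
        have hW : WS kA uA vA yA (vA (kA - 1)) := Or.inl ⟨kA - 1, by omega, Or.inr rfl⟩
        refine ⟨Or.inl (Or.inr hW), WAv _ hW, ?_, (wA hk).1⟩
        rw [oA _ hW]
        exact (q1 hk).2)
    (by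
      by_cases hk : kA = 0
      · left
        rw [if_pos hk.symm]
        exact ⟨rfl, (rA hk).2⟩
      · right
        have hk' : ¬ (0 = kA) := fun e => hk e.symm
        rw [if_neg hk']
        have hW : WS kA uA vA yA (uA 0) := Or.inl ⟨0, by omega, Or.inl rfl⟩
        refine ⟨Or.inl (Or.inr hW), WAv _ hW, ?_, ?_⟩
        · rw [oA _ hW, (q1 hk).1]
          obtain ⟨M, _, _, _, _, _, h6⟩ := (wA hk).2.2
          exact h6
        · rw [oA _ hW, (q1 hk).1]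
          exact (wA hk).2.1)
    (by
      by_cases hk : kB = 0
      · left
        rw [if_pos hk]
        exact ⟨rfl, (rB hk).2⟩
      · right
        rw [if_neg hk]
        have hW : WS kB uB vB yB (vB (kB - 1)) := Or.inl ⟨kB - 1, by omega, Or.inr rfl⟩
        exact ⟨Or.inr hW, WBv _ hW, (q2 hk).2, (wB hk).1⟩)
    (by
      by_cases hk : kB = 0
      · left
        rw [if_pos hk.symm]
        exact ⟨rfl, (rB hk).2⟩
      · right
        have hk' : ¬ (0 = kB) := fun e => hk e.symm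
        rw [if_neg hk']
        have hW : WS kB uB vB yB (uB 0) := Or.inl ⟨0, by omega, Or.inl rfl⟩
        refine ⟨Or.inr hW, WBv _ hW, ?_, ?_⟩
        · rw [(q2 hk).1]
          obtain ⟨M, _, _, _, _, _, h6⟩ := (wB hk).2.2
          exact h6
        · rw [(q2 hk).1]
          exact (wB hk).2.1)
  refine ⟨g, jst_congr hg fun x => ?_⟩
  unfold LamU WS
  constructor
  · rintro ((((h1 | h1 | ⟨i, h0, hi, h1⟩) | h1 | ⟨i, h0, hi, h1⟩) | h1) | h1)
    · exact Or.inl h1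
    · exact Or.inr (Or.inr (Or.inr (Or.inr (Or.inr (Or.inr (Or.inl h1))))))
    · exact Or.inr (Or.inr (Or.inr (Or.inr (Or.inr (Or.inr (Or.inr (Or.inl ⟨i, hi.le, h1⟩)))))))
    · exact Or.inr (Or.inr (Or.inr (Or.inr (Or.inr (Or.inr (Or.inr (Or.inr (Or.inl h1))))))))
    · exact Or.inr (Or.inr (Or.inr (Or.inr (Or.inr (Or.inr (Or.inr (Or.inr (Or.inr
        ⟨i, hi.le, h1⟩))))))))
    · rcases h1 with h1 | h1 | h1 | h1
      · exact Or.inr (Or.inr (Or.inr (Or.inr (Or.inr (Or.inr (Or.inr (Or.inl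
          ⟨kA, le_rfl, h1⟩)))))))
      · exact Or.inr (Or.inr (Or.inr (Or.inr (Or.inr (Or.inr (Or.inr (Or.inl
          ⟨0, Nat.zero_le _, h1⟩)))))))
      · exact Or.inr (Or.inr (Or.inr (Or.inr (Or.inr (Or.inr (Or.inr (Or.inr (Or.inr
          ⟨kB, le_rfl, h1⟩))))))))
      · exact Or.inr (Or.inr (Or.inr (Or.inr (Or.inr (Or.inr (Or.inr (Or.inr (Or.inr
          ⟨0, Nat.zero_le _, h1⟩))))))))
    · rcases h1 with h1 | h1 | h1 | h1 | h1
      · exact Or.inr (Or.inl h1)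
      · exact Or.inr (Or.inr (Or.inl h1))
      · exact Or.inr (Or.inr (Or.inr (Or.inl h1)))
      · exact Or.inr (Or.inr (Or.inr (Or.inr (Or.inl h1))))
      · exact Or.inr (Or.inr (Or.inr (Or.inr (Or.inr (Or.inl h1)))))
  · rintro (h1 | h1 | h1 | h1 | h1 | h1 | h1 | ⟨i, hi, h1⟩ | h1 | ⟨i, hi, h1⟩)
    · exact Or.inl (Or.inl (Or.inl (Or.inl h1)))
    · exact Or.inr (Or.inl h1)
    · exact Or.inr (Or.inr (Or.inl h1))
    · exact Or.inr (Or.inr (Or.inr (Or.inl h1)))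
    · exact Or.inr (Or.inr (Or.inr (Or.inr (Or.inl h1))))
    · exact Or.inr (Or.inr (Or.inr (Or.inr (Or.inr h1))))
    · exact Or.inl (Or.inl (Or.inl (Or.inr (Or.inl h1))))
    · by_cases h2 : i = kA
      · exact Or.inl (Or.inr (Or.inl (h2 ▸ h1)))
      by_cases h3 : i = 0
      · exact Or.inl (Or.inr (Or.inr (Or.inl (h3 ▸ h1))))
      · exact Or.inl (Or.inl (Or.inl (Or.inr (Or.inr ⟨i, by omega, by omega, h1⟩))))
    · exact Or.inl (Or.inl (Or.inr (Or.inl h1)))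
    · by_cases h2 : i = kB
      · exact Or.inl (Or.inr (Or.inr (Or.inr (Or.inl (h2 ▸ h1)))))
      by_cases h3 : i = 0
      · exact Or.inl (Or.inr (Or.inr (Or.inr (Or.inr (h3 ▸ h1)))))
      · exact Or.inl (Or.inl (Or.inr (Or.inr ⟨i, by omega, by omega, h1⟩)))

end

end Helper97.L9.F
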