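import Pool.Agent.helper19.L9.PFin
import Pool.Agent.helper17.L9.PCyc
import Pool.Agent.helper58.L9.YMode
import Pool.Agent.helper97.L9.JY
import Pool.Agent.helper97.L9.Concl

/-!
# The theorem: every graph of maximum degree at most three has span at most nine
-/

set_option autoImplicit false

namespace Helper97.L9

open Finset Helper42.L9 Helper33.L9 Helper33.Off Helper19.P Helper85.Bn

universe u

theorem emb_perm {V : Type*} {n : ℕ} {g : Fin n → V} {E E' : List (Fin n × Fin n)}
    (h : E.Perm E') : emb g E = emb g E' := by
  unfold emb
  exact Multiset.coe_eq_coe.mpr (h.map _)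

/-- **The side of the roots** -/
theorem plusAll : PlusAll.{u} := by
  intro V _ G hcub X D h
  refine plus_all hcub h (specs1 V) (specs2 V) (hasK0 V) ?_
  intro S' hmin hside hE x z p l hx hz hxz hp hl
  refine Helper17.PC.at_cyc' hcub h hmin hside hE hx hz hxz hp hl ?_
  intro g c hg hc W N hd C
  rw [emb_perm (show Helper17.PC.eTSTS.Perm eTSTS by decide)]
  exact at_TSTS hg hc hd C

/-- **Every graph with maximum degree at most three has span at most nine.** -/
theorem all (V : Type u) [Fintype V] (G : SimpleGraph V) (hD : D3 G) : Lab G :=
  main' (jLoc_of_Y Helper58.L9.Y.yAll) plusAll V G hD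

end Helper97.L9
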