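import Pool.Agent.helper40.L9.JCore

/-!
# The joint stage: finite lemmas for two virtual chords

`tab`: for `O ∈ M2` (elements `lo < hi`) and every mask `B` with two, three or four elements a list
of pairs of masks such that for every `C ∈ M2` the pair `(u4 lo B C, u4 hi B C)` contains one of
them.  `cert`: for `O5, O1 ∈ M2` pairs of disjoint two-element lists for the two first links.
-/

namespace Helper97.L9.J

open Pool.Agent.helper40.L9.J

/-- the mask of the pair, its two elements, the lists -/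
abbrev Row : Type := ℕ × ℕ × ℕ × List (ℕ × List (ℕ × ℕ))

def tab : List Row :=
  [(3, 0, 1, [(3, [(0, 24), (8, 8), (16, 16), (24, 0)]), (5, [(0, 24), (16, 16)]),
    (6, [(8, 1), (16, 0)]), (9, [(0, 24), (4, 1), (4, 8), (4, 16)]),
    (10, [(4, 1), (8, 1), (16, 1), (24, 0)]), (12, [(0, 1), (20, 16)]),
    (17, [(4, 25), (8, 25), (12, 8)]), (18, [(8, 9), (28, 1), (28, 8)]),
    (20, [(4, 1), (8, 9)]), (24, [(4, 1), (8, 9), (12, 8)]),
    (7, [(8, 25), (16, 17), (16, 24), (24, 16)]),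
    (11, [(4, 25), (8, 25), (12, 9), (16, 25), (20, 17), (24, 24), (28, 1), (28, 8), (28, 16)]),
    (13, [(0, 25), (20, 16)]), (14, [(8, 1), (16, 1), (28, 16)]),
    (19, [(8, 25), (12, 9), (28, 8)]), (21, [(4, 25), (8, 25)]), (22, [(8, 9), (28, 1)]),
    (25, [(4, 25), (8, 25), (12, 8)]), (26, [(8, 9), (28, 1), (28, 8)]),
    (28, [(4, 1), (8, 9)]), (15, [(8, 25), (16, 25), (20, 17), (28, 16)]), (23, [(8, 25)]),
    (27, [(8, 25), (12, 9), (28, 8)]), (29, [(4, 25), (8, 25)]), (30, [(8, 9), (28, 1)])]),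
   (5, 0, 2, [(3, [(0, 16), (8, 1)]), (5, [(0, 16), (16, 0)]), (6, [(8, 1), (16, 0)]),
    (9, [(0, 16), (4, 1), (4, 2)]),
    (10, [(4, 3), (8, 3), (12, 1), (16, 19), (20, 17), (24, 17)]), (12, [(0, 0)]),
    (17, [(4, 19), (8, 19), (12, 1), (12, 2)]), (18, [(8, 3), (12, 1)]),
    (20, [(4, 3), (8, 3), (28, 1), (28, 2)]), (24, [(4, 3), (8, 3), (12, 1), (12, 2)]),
    (7, [(8, 17), (16, 16), (24, 1)]),
    (11, [(4, 19), (8, 19), (12, 1), (16, 19), (20, 17), (24, 17)]),
    (13, [(0, 16), (20, 1), (20, 2)]),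
    (14, [(8, 3), (16, 19), (20, 3), (20, 17), (24, 17), (28, 1)]),
    (19, [(8, 19), (12, 1)]), (21, [(4, 19), (8, 19), (28, 1), (28, 2)]),
    (22, [(8, 3), (28, 1)]), (25, [(4, 19), (8, 19), (12, 1), (12, 2)]),
    (26, [(8, 3), (12, 1)]), (28, [(4, 3), (8, 3), (28, 1), (28, 2)]),
    (15, [(8, 19), (16, 19), (20, 17), (24, 17), (28, 1)]), (23, [(8, 19), (28, 1)]),
    (27, [(8, 19), (12, 1)]), (29, [(4, 19), (8, 19), (28, 1), (28, 2)]),
    (30, [(8, 3), (28, 1)])]),
   (6, 1, 2, [(3, [(0, 16), (8, 1)]), (5, [(16, 16), (17, 0)]),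
    (6, [(0, 17), (1, 1), (16, 16), (17, 0)]),
    (9, [(1, 3), (8, 2), (9, 1), (16, 18), (17, 17), (24, 16)]), (10, [(0, 17), (1, 1)]),
    (12, [(1, 0), (16, 2)]), (17, [(8, 2), (9, 1)]), (18, [(1, 19), (8, 19), (9, 1)]),
    (20, [(1, 3), (25, 1), (25, 2)]), (24, [(1, 3), (8, 2), (9, 1)]),
    (7, [(16, 17), (17, 16), (24, 16), (25, 1)]),
    (11, [(1, 19), (8, 19), (9, 1), (16, 19), (17, 17), (24, 17)]),
    (13, [(16, 18), (17, 3), (17, 17), (25, 1), (25, 2), (25, 16)]),
    (14, [(1, 3), (1, 17), (16, 19), (17, 1)]), (19, [(8, 19), (9, 1)]),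
    (21, [(25, 1), (25, 2)]), (22, [(1, 19), (9, 3), (25, 1)]), (25, [(8, 2), (9, 1)]),
    (26, [(1, 19), (8, 19), (9, 1)]), (28, [(1, 3), (25, 1), (25, 2)]),
    (15, [(16, 19), (17, 17), (25, 1)]), (23, [(25, 1)]), (27, [(8, 19), (9, 1)]),
    (29, [(25, 1), (25, 2)]), (30, [(1, 19), (9, 3), (25, 1)])]),
   (9, 0, 3, [(3, [(0, 0)]), (5, [(0, 4), (16, 1), (16, 2)]), (6, [(8, 3), (16, 1), (24, 2)]),
    (9, [(0, 4), (4, 0)]), (10, [(4, 0), (8, 1), (16, 1)]), (12, [(0, 0)]),
    (17, [(4, 7), (8, 7), (12, 5), (12, 6)]), (18, [(8, 3), (12, 5)]),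
    (20, [(4, 7), (8, 3)]), (24, [(4, 7), (8, 3), (12, 5), (12, 6)]),
    (7, [(8, 7), (16, 1), (24, 2)]), (11, [(4, 0), (8, 5), (16, 5)]),
    (13, [(0, 4), (20, 1), (20, 2)]), (14, [(8, 3), (16, 1), (28, 2)]),
    (19, [(8, 7), (12, 5)]), (21, [(4, 7), (8, 7)]), (22, [(8, 3)]),
    (25, [(4, 7), (8, 7), (12, 5), (12, 6)]), (26, [(8, 3), (12, 5)]),
    (28, [(4, 7), (8, 3)]), (15, [(8, 7), (16, 5), (20, 1), (28, 2)]), (23, [(8, 7)]),
    (27, [(8, 7), (12, 5)]), (29, [(4, 7), (8, 7)]), (30, [(8, 3)])]),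
   (10, 1, 3, [(3, [(0, 0)]), (5, [(16, 6), (17, 3), (17, 5), (24, 2), (24, 4), (25, 1)]),
    (6, [(0, 1), (16, 2)]), (9, [(1, 0), (8, 4), (16, 4)]), (10, [(0, 1), (1, 0)]),
    (12, [(1, 0), (16, 2)]), (17, [(8, 6), (9, 5)]), (18, [(1, 7), (8, 7), (9, 3), (9, 5)]),
    (20, [(1, 7), (9, 3)]), (24, [(1, 7), (8, 6), (9, 3), (9, 5)]),
    (7, [(16, 7), (17, 3), (17, 5), (24, 2), (24, 5), (25, 1)]),
    (11, [(1, 0), (8, 5), (16, 5)]),
    (13, [(16, 6), (17, 3), (17, 5), (25, 1), (25, 2), (25, 4)]),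
    (14, [(1, 1), (16, 3), (17, 2)]), (19, [(8, 7), (9, 5)]), (21, [(25, 7)]),
    (22, [(1, 7), (9, 3)]), (25, [(8, 6), (9, 5)]), (26, [(1, 7), (8, 7), (9, 3), (9, 5)]),
    (28, [(1, 7), (9, 3)]), (15, [(16, 7), (17, 3), (17, 5), (25, 1), (25, 2)]),
    (23, [(25, 7)]), (27, [(8, 7), (9, 5)]), (29, [(25, 7)]), (30, [(1, 7), (9, 3)])]),
   (12, 2, 3, [(3, [(1, 5), (16, 0)]), (5, [(0, 3), (16, 1), (16, 2), (16, 4)]),
    (6, [(0, 1), (16, 2)]), (9, [(1, 4), (2, 4), (3, 0), (16, 4)]), (10, [(1, 1), (3, 0)]),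
    (12, [(0, 3), (1, 1), (2, 2), (3, 0)]), (17, [(1, 5), (2, 6)]), (18, [(1, 5), (3, 3)]),
    (20, [(1, 7), (2, 7), (3, 3)]), (24, [(1, 5), (2, 6), (3, 3)]),
    (7, [(1, 7), (16, 1), (16, 2)]), (11, [(1, 5), (19, 0)]),
    (13, [(1, 7), (2, 7), (3, 3), (16, 7), (17, 5), (18, 6), (19, 1), (19, 2), (19, 4)]),
    (14, [(1, 3), (3, 1), (17, 1), (19, 2)]), (19, [(1, 5)]), (21, [(1, 7), (2, 7)]),
    (22, [(1, 7), (3, 3)]), (25, [(1, 5), (2, 6)]), (26, [(1, 5), (3, 3)]),
    (28, [(1, 7), (2, 7), (3, 3)]), (15, [(1, 7), (17, 5), (19, 1), (19, 2)]),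
    (23, [(1, 7)]), (27, [(1, 5)]), (29, [(1, 7), (2, 7)]), (30, [(1, 7), (3, 3)])]),
   (17, 0, 4, [(3, [(0, 8), (16, 5)]), (5, [(0, 12), (16, 3), (16, 5), (16, 6), (16, 9), (16, 10)]),
    (6, [(8, 11), (16, 1), (24, 10)]), (9, [(0, 12), (4, 5), (4, 6)]),
    (10, [(4, 7), (8, 11), (12, 13), (16, 3), (20, 5), (24, 9)]),
    (12, [(0, 3), (20, 5), (20, 6)]), (17, [(4, 12), (8, 12), (12, 0)]),
    (18, [(8, 9), (12, 0)]), (20, [(4, 3), (8, 3), (12, 0)]), (24, [(4, 0), (8, 3)]),
    (7, [(8, 15), (16, 5), (16, 9), (24, 10)]),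
    (11, [(4, 15), (8, 15), (12, 13), (16, 15), (20, 5), (24, 13)]),
    (13, [(0, 15), (20, 5), (20, 6)]), (14, [(8, 11), (16, 3), (20, 5)]),
    (19, [(8, 13), (12, 8), (28, 5)]),
    (21, [(4, 15), (8, 15), (12, 12), (28, 3), (28, 5), (28, 6), (28, 9), (28, 10)]),
    (22, [(8, 11), (28, 1), (28, 10)]), (25, [(4, 12), (8, 15), (12, 5), (12, 6)]),
    (26, [(8, 11), (12, 7), (12, 13), (28, 3), (28, 5), (28, 9)]),
    (28, [(4, 3), (8, 3), (28, 5), (28, 6)]), (15, [(8, 15), (16, 15), (20, 5)]),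
    (23, [(8, 15), (28, 5), (28, 9), (28, 10)]), (27, [(8, 15), (12, 13), (28, 5)]),
    (29, [(4, 15), (8, 15), (28, 5), (28, 6)]), (30, [(8, 11), (28, 3), (28, 5)])]),
   (18, 1, 4, [(3, [(0, 8), (16, 5)]), (5, [(16, 6), (17, 3), (17, 5), (24, 10), (24, 12), (25, 9)]),
    (6, [(0, 1), (16, 10)]), (9, [(1, 7), (8, 14), (9, 13), (16, 6), (17, 5), (24, 12)]),
    (10, [(0, 9), (1, 3), (1, 5)]), (12, [(1, 3), (16, 6), (17, 5)]),
    (17, [(8, 12), (9, 0)]), (18, [(1, 9), (8, 9), (9, 0)]), (20, [(1, 3), (9, 0)]),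
    (24, [(1, 0), (8, 6)]), (7, [(16, 15), (17, 5), (17, 11), (24, 10), (24, 13), (25, 9)]),
    (11, [(1, 15), (8, 15), (9, 13), (16, 15), (17, 5), (24, 13)]),
    (13, [(16, 6), (17, 5)]), (14, [(1, 3), (16, 15), (17, 5)]),
    (19, [(8, 13), (9, 8), (25, 5)]),
    (21, [(25, 3), (25, 5), (25, 6), (25, 9), (25, 10), (25, 12)]),
    (22, [(1, 11), (9, 1), (25, 10)]),
    (25, [(8, 14), (9, 7), (9, 13), (25, 5), (25, 6), (25, 12)]),
    (26, [(1, 9), (8, 15), (9, 3), (9, 5)]), (28, [(1, 3), (25, 5), (25, 6)]),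
    (15, [(16, 15), (17, 5)]), (23, [(25, 5), (25, 9), (25, 10)]),
    (27, [(8, 15), (9, 13), (25, 5)]), (29, [(25, 5), (25, 6)]),
    (30, [(1, 11), (9, 3), (25, 5)])]),
   (20, 2, 4, [(3, [(1, 13), (16, 8), (17, 5)]),
    (5, [(0, 3), (16, 5), (16, 6), (16, 9), (16, 10), (16, 12)]), (6, [(0, 1), (16, 10)]),
    (9, [(1, 13), (2, 14), (3, 7), (16, 12), (17, 5), (18, 6)]),
    (10, [(1, 13), (3, 7), (3, 11), (17, 5), (17, 9), (19, 3)]),
    (12, [(0, 3), (1, 5), (2, 6)]), (17, [(1, 12), (2, 12), (3, 0)]),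
    (18, [(1, 9), (3, 0)]), (20, [(1, 3), (2, 3), (3, 0)]), (24, [(1, 5), (2, 6), (3, 0)]),
    (7, [(1, 15), (16, 9), (16, 10), (17, 5)]), (11, [(1, 13), (17, 5)]),
    (13, [(1, 15), (2, 15), (3, 7), (16, 15), (17, 5), (18, 6)]),
    (14, [(1, 15), (3, 7), (3, 11), (17, 5), (17, 11), (19, 3)]),
    (19, [(1, 13), (19, 5), (19, 8)]),
    (21, [(1, 15), (2, 15), (3, 3), (19, 5), (19, 6), (19, 9), (19, 10), (19, 12)]),
    (22, [(1, 11), (3, 1), (19, 10)]),
    (25, [(1, 13), (2, 14), (3, 7), (19, 5), (19, 6), (19, 12)]),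
    (26, [(1, 13), (3, 7), (3, 11), (19, 3), (19, 5), (19, 9)]),
    (28, [(1, 7), (2, 7), (3, 3), (3, 5), (3, 6)]), (15, [(1, 15), (17, 5)]),
    (23, [(1, 15), (19, 5), (19, 9), (19, 10)]), (27, [(1, 13), (19, 5)]),
    (29, [(1, 15), (2, 15), (3, 7), (19, 5), (19, 6)]),
    (30, [(1, 15), (3, 7), (3, 11), (19, 3), (19, 5)])]),
   (24, 3, 4, [(3, [(0, 8), (5, 5)]), (5, [(1, 9), (2, 10), (3, 3), (4, 12), (5, 5), (6, 6)]),
    (6, [(1, 1), (2, 10)]), (9, [(0, 7), (4, 5), (4, 6), (4, 12)]),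
    (10, [(0, 7), (1, 3), (1, 5), (1, 9)]), (12, [(0, 3), (1, 5), (2, 6)]),
    (17, [(5, 12), (6, 12), (7, 0)]), (18, [(3, 9), (5, 9), (7, 0)]),
    (20, [(3, 3), (7, 0)]), (24, [(3, 3), (5, 5), (6, 6), (7, 0)]),
    (7, [(1, 9), (2, 10), (5, 5)]), (11, [(0, 15), (5, 5)]),
    (13, [(1, 15), (2, 15), (3, 7), (4, 15), (5, 5), (6, 6)]),
    (14, [(1, 3), (1, 5), (2, 15)]), (19, [(5, 13), (7, 5), (7, 8)]),
    (21, [(7, 3), (7, 5), (7, 6), (7, 9), (7, 10), (7, 12)]),
    (22, [(3, 11), (7, 1), (7, 10)]), (25, [(5, 13), (6, 14), (7, 5), (7, 6), (7, 12)]),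
    (26, [(3, 11), (5, 13), (7, 3), (7, 5), (7, 9)]), (28, [(3, 3), (7, 5), (7, 6)]),
    (15, [(1, 15), (2, 15), (5, 5)]), (23, [(7, 5), (7, 9), (7, 10)]),
    (27, [(5, 13), (7, 5)]), (29, [(7, 5), (7, 6)]), (30, [(3, 11), (7, 3), (7, 5)])])]

def cert : List (ℕ × ℕ × List (ℕ × ℕ)) :=
  [(3, 3, [(3, 12), (12, 3), (5, 18), (10, 17), (5, 24), (6, 24)]),
   (3, 5, [(3, 20), (12, 3), (17, 10), (6, 24), (5, 24)]),
   (3, 6, [(3, 12), (12, 3), (5, 18), (10, 17), (5, 24), (6, 24)]),
   (3, 9, [(3, 20), (20, 9), (12, 18), (9, 6), (3, 24)]),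
   (3, 10, [(3, 12), (12, 17), (20, 10), (3, 20), (3, 24)]),
   (3, 12, [(3, 20), (12, 3), (17, 10), (6, 24), (5, 24)]),
   (3, 17, [(3, 12), (12, 3), (5, 18), (10, 17), (5, 24), (6, 24)]),
   (3, 18, [(3, 12), (12, 3), (5, 18), (10, 17), (5, 24), (6, 24)]),
   (3, 20, [(3, 12), (12, 3), (5, 18), (10, 17), (5, 24), (6, 24)]),
   (3, 24, [(3, 12), (12, 3), (5, 18), (10, 17), (5, 24), (6, 24)]),
   (5, 3, [(3, 12), (20, 3), (9, 18), (6, 24), (5, 24)]),
   (5, 5, [(3, 20), (20, 3), (5, 10), (18, 9), (5, 24), (6, 24)]),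
   (5, 6, [(3, 12), (20, 3), (9, 18), (6, 24), (5, 24)]),
   (5, 9, [(3, 20), (20, 9), (24, 6), (3, 24), (6, 9)]),
   (5, 10, [(3, 12), (5, 18), (24, 5), (6, 24), (3, 24)]),
   (5, 12, [(3, 12), (20, 3), (9, 18), (6, 24), (5, 24)]),
   (5, 17, [(3, 12), (20, 3), (9, 18), (6, 24), (5, 24)]),
   (5, 18, [(3, 12), (20, 3), (9, 18), (6, 24), (5, 24)]),
   (5, 20, [(3, 12), (20, 3), (9, 18), (6, 24), (5, 24)]),
   (5, 24, [(3, 12), (20, 3), (9, 18), (6, 24), (5, 24)]),
   (6, 3, [(3, 12), (12, 3), (5, 18), (10, 17), (5, 24), (6, 24)]),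
   (6, 5, [(3, 20), (12, 3), (17, 10), (6, 24), (5, 24)]),
   (6, 6, [(3, 12), (12, 3), (5, 18), (10, 17), (5, 24), (6, 24)]),
   (6, 9, [(3, 20), (20, 9), (12, 18), (9, 6), (3, 24)]),
   (6, 10, [(3, 12), (12, 17), (24, 6), (3, 24), (3, 20)]),
   (6, 12, [(3, 12), (12, 3), (5, 18), (10, 17), (5, 24), (6, 24)]),
   (6, 17, [(3, 12), (12, 3), (5, 18), (10, 17), (5, 24), (6, 24)]),
   (6, 18, [(3, 12), (12, 3), (5, 18), (10, 17), (5, 24), (10, 20)]),
   (6, 20, [(3, 12), (12, 3), (5, 18), (10, 17), (5, 24), (6, 24)]),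
   (6, 24, [(3, 12), (12, 3), (5, 18), (10, 17), (5, 24), (6, 24)]),
   (9, 3, [(5, 18), (10, 5), (17, 12), (6, 24), (9, 18)]),
   (9, 5, [(5, 10), (10, 17), (24, 6), (5, 24), (5, 18)]),
   (9, 6, [(5, 10), (10, 5), (6, 17), (9, 18), (5, 24), (6, 24)]),
   (9, 9, [(5, 18), (18, 5), (6, 9), (17, 10), (5, 24), (6, 24)]),
   (9, 10, [(5, 18), (10, 5), (17, 12), (6, 24), (9, 18)]),
   (9, 12, [(5, 10), (10, 17), (18, 12), (5, 18), (5, 24)]),
   (9, 17, [(5, 10), (10, 5), (6, 17), (9, 18), (6, 24), (17, 12)]),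
   (9, 18, [(5, 10), (10, 5), (6, 17), (9, 18), (5, 24), (6, 24)]),
   (9, 20, [(5, 10), (10, 5), (6, 17), (9, 18), (5, 24), (6, 24)]),
   (9, 24, [(5, 10), (10, 5), (6, 17), (9, 18), (5, 24), (6, 24)]),
   (10, 3, [(5, 10), (10, 5), (6, 17), (9, 18), (5, 24), (6, 24)]),
   (10, 5, [(5, 10), (10, 17), (24, 6), (5, 24), (5, 18)]),
   (10, 6, [(5, 10), (10, 5), (6, 17), (9, 18), (5, 24), (6, 24)]),
   (10, 9, [(5, 10), (10, 17), (24, 6), (5, 24), (5, 18)]),
   (10, 10, [(5, 10), (10, 5), (6, 17), (9, 18), (5, 24), (6, 24)]),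
   (10, 12, [(5, 10), (10, 17), (18, 12), (5, 18), (5, 24)]),
   (10, 17, [(5, 10), (10, 5), (6, 17), (9, 18), (5, 24), (6, 24)]),
   (10, 18, [(5, 10), (10, 5), (6, 17), (9, 18), (5, 24), (12, 18)]),
   (10, 20, [(5, 10), (10, 5), (6, 17), (9, 18), (5, 24), (6, 24)]),
   (10, 24, [(5, 10), (10, 5), (6, 17), (9, 18), (5, 24), (6, 24)]),
   (12, 3, [(3, 12), (12, 17), (20, 10), (3, 20), (3, 24)]),
   (12, 5, [(3, 20), (12, 3), (17, 10), (6, 24), (5, 24)]),
   (12, 6, [(3, 12), (12, 3), (5, 18), (10, 17), (5, 24), (6, 24)]),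
   (12, 9, [(3, 20), (20, 9), (12, 18), (9, 6), (3, 24)]),
   (12, 10, [(3, 12), (12, 17), (20, 10), (3, 20), (3, 24)]),
   (12, 12, [(3, 12), (12, 3), (5, 18), (10, 17), (5, 24), (6, 24)]),
   (12, 17, [(3, 12), (12, 3), (5, 18), (10, 17), (5, 24), (6, 24)]),
   (12, 18, [(3, 12), (12, 3), (5, 18), (10, 17), (5, 24), (10, 20)]),
   (12, 20, [(3, 12), (12, 3), (5, 18), (10, 17), (5, 24), (6, 24)]),
   (12, 24, [(3, 12), (12, 3), (5, 18), (10, 17), (5, 24), (6, 24)]),
   (17, 3, [(3, 12), (12, 3), (5, 18), (10, 17), (5, 24), (6, 24)]),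
   (17, 5, [(3, 20), (12, 3), (17, 10), (6, 24), (5, 24)]),
   (17, 6, [(3, 12), (12, 3), (5, 18), (10, 17), (5, 24), (6, 24)]),
   (17, 9, [(3, 20), (20, 10), (12, 17), (9, 6), (3, 24)]),
   (17, 10, [(3, 12), (12, 17), (20, 10), (3, 20), (3, 24)]),
   (17, 12, [(3, 12), (12, 3), (5, 18), (10, 17), (5, 24), (6, 24)]),
   (17, 17, [(3, 12), (12, 3), (5, 18), (10, 17), (5, 24), (6, 24)]),
   (17, 18, [(3, 12), (12, 3), (5, 18), (10, 17), (5, 24), (6, 24)]),
   (17, 20, [(3, 12), (12, 3), (5, 18), (10, 17), (5, 24), (6, 24)]),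
   (17, 24, [(3, 12), (12, 3), (5, 18), (10, 17), (5, 24), (6, 24)]),
   (18, 3, [(3, 12), (12, 3), (5, 18), (10, 17), (5, 24), (6, 24)]),
   (18, 5, [(3, 20), (12, 3), (17, 10), (6, 24), (5, 24)]),
   (18, 6, [(3, 12), (12, 3), (5, 18), (10, 17), (5, 24), (6, 24)]),
   (18, 9, [(3, 20), (20, 9), (12, 18), (9, 6), (3, 24)]),
   (18, 10, [(3, 12), (12, 17), (17, 6), (18, 9), (6, 24)]),
   (18, 12, [(3, 12), (12, 3), (5, 18), (10, 17), (5, 24), (6, 24)]),
   (18, 17, [(3, 12), (12, 3), (5, 18), (10, 17), (5, 24), (6, 24)]),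
   (18, 18, [(3, 12), (12, 3), (5, 18), (10, 17), (5, 24), (10, 20)]),
   (18, 20, [(3, 12), (12, 3), (5, 18), (10, 17), (5, 24), (6, 24)]),
   (18, 24, [(3, 12), (12, 3), (5, 18), (10, 17), (5, 24), (6, 24)]),
   (20, 3, [(3, 12), (12, 3), (5, 18), (10, 17), (5, 24), (6, 24)]),
   (20, 5, [(3, 20), (12, 3), (17, 10), (6, 24), (5, 24)]),
   (20, 6, [(3, 12), (12, 3), (5, 18), (10, 17), (5, 24), (6, 24)]),
   (20, 9, [(3, 20), (20, 9), (12, 18), (9, 6), (3, 24)]),
   (20, 10, [(3, 12), (12, 17), (24, 6), (3, 24), (3, 20)]),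
   (20, 12, [(3, 12), (12, 3), (5, 18), (10, 17), (5, 24), (6, 24)]),
   (20, 17, [(3, 12), (12, 3), (5, 18), (10, 17), (5, 24), (6, 24)]),
   (20, 18, [(3, 12), (12, 3), (5, 18), (10, 17), (5, 24), (10, 20)]),
   (20, 20, [(3, 12), (12, 3), (5, 18), (10, 17), (5, 24), (6, 24)]),
   (20, 24, [(3, 12), (12, 3), (5, 18), (10, 17), (5, 24), (6, 24)]),
   (24, 3, [(3, 12), (12, 3), (5, 18), (10, 17), (5, 24), (6, 24)]),
   (24, 5, [(3, 20), (12, 3), (17, 10), (6, 24), (5, 24)]),
   (24, 6, [(3, 12), (12, 3), (5, 18), (10, 17), (5, 24), (6, 24)]),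
   (24, 9, [(3, 20), (20, 9), (12, 18), (9, 6), (3, 24)]),
   (24, 10, [(3, 12), (12, 17), (20, 10), (3, 20), (3, 24)]),
   (24, 12, [(3, 12), (12, 3), (5, 18), (10, 17), (5, 24), (6, 24)]),
   (24, 17, [(3, 12), (12, 3), (5, 18), (10, 17), (5, 24), (6, 24)]),
   (24, 18, [(3, 12), (12, 3), (5, 18), (10, 17), (5, 24), (10, 20)]),
   (24, 20, [(3, 12), (12, 3), (5, 18), (10, 17), (5, 24), (6, 24)]),
   (24, 24, [(3, 12), (12, 3), (5, 18), (10, 17), (5, 24), (6, 24)])]

/-- `m ⊆ n` -/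
def sub (m n : ℕ) : Bool := Nat.beq (Nat.land m n) m

/-- no two different elements -/
def bad (m n : ℕ) : Bool :=
  Nat.beq m 0 || Nat.beq n 0 || (Nat.beq m n && Nat.beq (Nat.land (Nat.shiftRight 65814 m) 1) 1)

/-- not all four cells are bad -/
def ok (P1 P2 Q1 Q2 : List (ℕ × ℕ)) : Bool :=
  P1.all fun p1 => P2.all fun p2 =>
    !(Q1.any fun q => bad p1.1 q.1 && bad p2.1 q.2) || !(Q2.any fun q => bad p1.2 q.1 && bad p2.2 q.2)

def mem (m : ℕ) (l : List ℕ) : Bool := l.any fun x => Nat.beq m x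

def get (B : ℕ) : List (ℕ × List (ℕ × ℕ)) → List (ℕ × ℕ)
  | [] => []
  | x :: l => bif Nat.beq x.1 B then x.2 else get B l

def keys : List ℕ := M2 ++ M3 ++ M4

/-- a list check, member by member -/
theorem all_split {α : Type*} {l : List α} {q : α → Bool} {n : ℕ} (hn : l.length = n)
    (h : ∀ i < n, (l[i]?.all q) = true) : l.all q = true := by
  rw [List.all_eq_true]
  intro x hx
  obtain ⟨i, hi, rfl⟩ := List.mem_iff_getElem.mp hx
  have h1 := h i (by omega)
  rw [List.getElem?_eq_getElem hi] at h1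
  simpa using h1

/-- the table is right -/
def covR (r : Row) : Bool :=
  keys.all fun B => M2.all fun C =>
    (get B r.2.2.2).any fun p => sub p.1 (u4 r.2.1 B C) && sub p.2 (u4 r.2.2.1 B C)

/-- the table is right -/
def cov : Bool := tab.all covR

def chk1R (r5 : Row) : Bool :=
  tab.all fun r1 => (Nat.beq r5.1 r1.1 && mem r1.1 [5, 9, 10]) ||
    (M3.all fun B => M3.all fun B' =>
      ok (get B r5.2.2.2) (get B r5.2.2.2) (get B' r1.2.2.2) (get B' r1.2.2.2))

def chk1 : Bool := tab.all chk1R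

def chk1xR (r5 : Row) : Bool :=
  tab.all fun r1 => M4.all fun B => M3.all fun B' =>
      ok (get (del B r1.2.1) r5.2.2.2) (get (del B r1.2.2.1) r5.2.2.2)
        (get B' r1.2.2.2) (get B' r1.2.2.2)

def chk1x : Bool := tab.all chk1xR

def chk1xxR (r5 : Row) : Bool :=
  tab.all fun r1 => M4.all fun B => M4.all fun B' =>
      ok (get (del B r1.2.1) r5.2.2.2) (get (del B r1.2.2.1) r5.2.2.2)
        (get (del B' r5.2.1) r1.2.2.2) (get (del B' r5.2.2.1) r1.2.2.2)

def chk1xx : Bool := tab.all chk1xxR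

def chk4R (r5 : Row) : Bool :=
  tab.all fun r1 => cert.any fun c => Nat.beq c.1 r5.1 && Nat.beq c.2.1 r1.1 &&
    (c.2.2.all fun x => mem x.1 M2 && mem x.2 M2 && Nat.beq (Nat.land x.1 x.2) 0 &&
      ok (get x.1 r5.2.2.2) (get x.1 r5.2.2.2) (get x.2 r1.2.2.2) (get x.2 r1.2.2.2)) &&
    (M4.all fun B => M4.all fun B' => c.2.2.any fun x => sub x.1 B && sub x.2 B')

def chk4 : Bool := tab.all chk4R

theorem tab_length : tab.length = 10 := rfl

/-- a product check, two rows of the inner table at a time -/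
theorem all_split5 {r : Option Row} {f : Row → Row → Bool}
    (h : ∀ k < 5, (r.all fun r5 => ((tab.drop (2 * k)).take 2).all (f r5)) = true) :
    (r.all fun r5 => tab.all (f r5)) = true := by
  cases r with
  | none => rfl
  | some r5 =>
    rw [Option.all_some, List.all_eq_true]
    intro x hx
    obtain ⟨i, hi, rfl⟩ := List.mem_iff_getElem.mp hx
    have hi' : i < 10 := by rwa [tab_length] at hi
    have h1 := h (i / 2) (by omega)
    rw [Option.all_some, List.all_eq_true] at h1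
    apply h1
    rw [List.mem_iff_getElem]
    refine ⟨i - 2 * (i / 2), ?_, ?_⟩
    · rw [List.length_take, List.length_drop, tab_length]
      omega
    · rw [List.getElem_take, List.getElem_drop]
      congr 1
      omega

def chk1B (r5 r1 : Row) : Bool :=
  (Nat.beq r5.1 r1.1 && mem r1.1 [5, 9, 10]) ||
    (M3.all fun B => M3.all fun B' =>
      ok (get B r5.2.2.2) (get B r5.2.2.2) (get B' r1.2.2.2) (get B' r1.2.2.2))

def chk1xB (r5 r1 : Row) : Bool :=
  M4.all fun B => M3.all fun B' =>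
      ok (get (del B r1.2.1) r5.2.2.2) (get (del B r1.2.2.1) r5.2.2.2)
        (get B' r1.2.2.2) (get B' r1.2.2.2)

set_option maxRecDepth 100000 in
theorem cov_0 : (tab[0]?.all covR) = true := by decide +kernel

set_option maxRecDepth 100000 in
theorem cov_1 : (tab[1]?.all covR) = true := by decide +kernel

set_option maxRecDepth 100000 in
theorem cov_2 : (tab[2]?.all covR) = true := by decide +kernel

set_option maxRecDepth 100000 in
theorem cov_3 : (tab[3]?.all covR) = true := by decide +kernel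

set_option maxRecDepth 100000 in
theorem cov_4 : (tab[4]?.all covR) = true := by decide +kernel

set_option maxRecDepth 100000 in
theorem cov_5 : (tab[5]?.all covR) = true := by decide +kernel

set_option maxRecDepth 100000 in
theorem cov_6 : (tab[6]?.all covR) = true := by decide +kernel

set_option maxRecDepth 100000 in
theorem cov_7 : (tab[7]?.all covR) = true := by decide +kernel

set_option maxRecDepth 100000 in
theorem cov_8 : (tab[8]?.all covR) = true := by decide +kernel

set_option maxRecDepth 100000 in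
theorem cov_9 : (tab[9]?.all covR) = true := by decide +kernel

theorem cov_true : cov = true := all_split tab_length fun i hi => by
  interval_cases i
  exacts [cov_0, cov_1, cov_2, cov_3, cov_4, cov_5, cov_6, cov_7, cov_8, cov_9]

set_option maxRecDepth 100000 in
theorem chk1_0_0 : (tab[0]?.all fun r5 => ((tab.drop (2 * 0)).take 2).all (chk1B r5)) = true := by
  decide +kernel

set_option maxRecDepth 100000 in
theorem chk1_0_1 : (tab[0]?.all fun r5 => ((tab.drop (2 * 1)).take 2).all (chk1B r5)) = true := by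
  decide +kernel

set_option maxRecDepth 100000 in
theorem chk1_0_2 : (tab[0]?.all fun r5 => ((tab.drop (2 * 2)).take 2).all (chk1B r5)) = true := by
  decide +kernel

set_option maxRecDepth 100000 in
theorem chk1_0_3 : (tab[0]?.all fun r5 => ((tab.drop (2 * 3)).take 2).all (chk1B r5)) = true := by
  decide +kernel

set_option maxRecDepth 100000 in
theorem chk1_0_4 : (tab[0]?.all fun r5 => ((tab.drop (2 * 4)).take 2).all (chk1B r5)) = true := by
  decide +kernel

theorem chk1_0 : (tab[0]?.all chk1R) = true :=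
  all_split5 (f := chk1B) fun k hk => by
    interval_cases k
    exacts [chk1_0_0, chk1_0_1, chk1_0_2, chk1_0_3, chk1_0_4]

set_option maxRecDepth 100000 in
theorem chk1_1_0 : (tab[1]?.all fun r5 => ((tab.drop (2 * 0)).take 2).all (chk1B r5)) = true := by
  decide +kernel

set_option maxRecDepth 100000 in
theorem chk1_1_1 : (tab[1]?.all fun r5 => ((tab.drop (2 * 1)).take 2).all (chk1B r5)) = true := by
  decide +kernel

set_option maxRecDepth 100000 in
theorem chk1_1_2 : (tab[1]?.all fun r5 => ((tab.drop (2 * 2)).take 2).all (chk1B r5)) = true := by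
  decide +kernel

set_option maxRecDepth 100000 in
theorem chk1_1_3 : (tab[1]?.all fun r5 => ((tab.drop (2 * 3)).take 2).all (chk1B r5)) = true := by
  decide +kernel

set_option maxRecDepth 100000 in
theorem chk1_1_4 : (tab[1]?.all fun r5 => ((tab.drop (2 * 4)).take 2).all (chk1B r5)) = true := by
  decide +kernel

theorem chk1_1 : (tab[1]?.all chk1R) = true :=
  all_split5 (f := chk1B) fun k hk => by
    interval_cases k
    exacts [chk1_1_0, chk1_1_1, chk1_1_2, chk1_1_3, chk1_1_4]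

set_option maxRecDepth 100000 in
theorem chk1_2_0 : (tab[2]?.all fun r5 => ((tab.drop (2 * 0)).take 2).all (chk1B r5)) = true := by
  decide +kernel

set_option maxRecDepth 100000 in
theorem chk1_2_1 : (tab[2]?.all fun r5 => ((tab.drop (2 * 1)).take 2).all (chk1B r5)) = true := by
  decide +kernel

set_option maxRecDepth 100000 in
theorem chk1_2_2 : (tab[2]?.all fun r5 => ((tab.drop (2 * 2)).take 2).all (chk1B r5)) = true := by
  decide +kernel

set_option maxRecDepth 100000 in
theorem chk1_2_3 : (tab[2]?.all fun r5 => ((tab.drop (2 * 3)).take 2).all (chk1B r5)) = true := by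
  decide +kernel

set_option maxRecDepth 100000 in
theorem chk1_2_4 : (tab[2]?.all fun r5 => ((tab.drop (2 * 4)).take 2).all (chk1B r5)) = true := by
  decide +kernel

theorem chk1_2 : (tab[2]?.all chk1R) = true :=
  all_split5 (f := chk1B) fun k hk => by
    interval_cases k
    exacts [chk1_2_0, chk1_2_1, chk1_2_2, chk1_2_3, chk1_2_4]

set_option maxRecDepth 100000 in
theorem chk1_3_0 : (tab[3]?.all fun r5 => ((tab.drop (2 * 0)).take 2).all (chk1B r5)) = true := by
  decide +kernel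

set_option maxRecDepth 100000 in
theorem chk1_3_1 : (tab[3]?.all fun r5 => ((tab.drop (2 * 1)).take 2).all (chk1B r5)) = true := by
  decide +kernel

set_option maxRecDepth 100000 in
theorem chk1_3_2 : (tab[3]?.all fun r5 => ((tab.drop (2 * 2)).take 2).all (chk1B r5)) = true := by
  decide +kernel

set_option maxRecDepth 100000 in
theorem chk1_3_3 : (tab[3]?.all fun r5 => ((tab.drop (2 * 3)).take 2).all (chk1B r5)) = true := by
  decide +kernel

set_option maxRecDepth 100000 in
theorem chk1_3_4 : (tab[3]?.all fun r5 => ((tab.drop (2 * 4)).take 2).all (chk1B r5)) = true := by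
  decide +kernel

theorem chk1_3 : (tab[3]?.all chk1R) = true :=
  all_split5 (f := chk1B) fun k hk => by
    interval_cases k
    exacts [chk1_3_0, chk1_3_1, chk1_3_2, chk1_3_3, chk1_3_4]

set_option maxRecDepth 100000 in
theorem chk1_4_0 : (tab[4]?.all fun r5 => ((tab.drop (2 * 0)).take 2).all (chk1B r5)) = true := by
  decide +kernel

set_option maxRecDepth 100000 in
theorem chk1_4_1 : (tab[4]?.all fun r5 => ((tab.drop (2 * 1)).take 2).all (chk1B r5)) = true := by
  decide +kernel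

set_option maxRecDepth 100000 in
theorem chk1_4_2 : (tab[4]?.all fun r5 => ((tab.drop (2 * 2)).take 2).all (chk1B r5)) = true := by
  decide +kernel

set_option maxRecDepth 100000 in
theorem chk1_4_3 : (tab[4]?.all fun r5 => ((tab.drop (2 * 3)).take 2).all (chk1B r5)) = true := by
  decide +kernel

set_option maxRecDepth 100000 in
theorem chk1_4_4 : (tab[4]?.all fun r5 => ((tab.drop (2 * 4)).take 2).all (chk1B r5)) = true := by
  decide +kernel

theorem chk1_4 : (tab[4]?.all chk1R) = true :=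
  all_split5 (f := chk1B) fun k hk => by
    interval_cases k
    exacts [chk1_4_0, chk1_4_1, chk1_4_2, chk1_4_3, chk1_4_4]

set_option maxRecDepth 100000 in
theorem chk1_5_0 : (tab[5]?.all fun r5 => ((tab.drop (2 * 0)).take 2).all (chk1B r5)) = true := by
  decide +kernel

set_option maxRecDepth 100000 in
theorem chk1_5_1 : (tab[5]?.all fun r5 => ((tab.drop (2 * 1)).take 2).all (chk1B r5)) = true := by
  decide +kernel

set_option maxRecDepth 100000 in
theorem chk1_5_2 : (tab[5]?.all fun r5 => ((tab.drop (2 * 2)).take 2).all (chk1B r5)) = true := by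
  decide +kernel

set_option maxRecDepth 100000 in
theorem chk1_5_3 : (tab[5]?.all fun r5 => ((tab.drop (2 * 3)).take 2).all (chk1B r5)) = true := by
  decide +kernel

set_option maxRecDepth 100000 in
theorem chk1_5_4 : (tab[5]?.all fun r5 => ((tab.drop (2 * 4)).take 2).all (chk1B r5)) = true := by
  decide +kernel

theorem chk1_5 : (tab[5]?.all chk1R) = true :=
  all_split5 (f := chk1B) fun k hk => by
    interval_cases k
    exacts [chk1_5_0, chk1_5_1, chk1_5_2, chk1_5_3, chk1_5_4]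

set_option maxRecDepth 100000 in
theorem chk1_6_0 : (tab[6]?.all fun r5 => ((tab.drop (2 * 0)).take 2).all (chk1B r5)) = true := by
  decide +kernel

set_option maxRecDepth 100000 in
theorem chk1_6_1 : (tab[6]?.all fun r5 => ((tab.drop (2 * 1)).take 2).all (chk1B r5)) = true := by
  decide +kernel

set_option maxRecDepth 100000 in
theorem chk1_6_2 : (tab[6]?.all fun r5 => ((tab.drop (2 * 2)).take 2).all (chk1B r5)) = true := by
  decide +kernel

set_option maxRecDepth 100000 in
theorem chk1_6_3 : (tab[6]?.all fun r5 => ((tab.drop (2 * 3)).take 2).all (chk1B r5)) = true := by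
  decide +kernel

set_option maxRecDepth 100000 in
theorem chk1_6_4 : (tab[6]?.all fun r5 => ((tab.drop (2 * 4)).take 2).all (chk1B r5)) = true := by
  decide +kernel

theorem chk1_6 : (tab[6]?.all chk1R) = true :=
  all_split5 (f := chk1B) fun k hk => by
    interval_cases k
    exacts [chk1_6_0, chk1_6_1, chk1_6_2, chk1_6_3, chk1_6_4]

set_option maxRecDepth 100000 in
theorem chk1_7_0 : (tab[7]?.all fun r5 => ((tab.drop (2 * 0)).take 2).all (chk1B r5)) = true := by
  decide +kernel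

set_option maxRecDepth 100000 in
theorem chk1_7_1 : (tab[7]?.all fun r5 => ((tab.drop (2 * 1)).take 2).all (chk1B r5)) = true := by
  decide +kernel

set_option maxRecDepth 100000 in
theorem chk1_7_2 : (tab[7]?.all fun r5 => ((tab.drop (2 * 2)).take 2).all (chk1B r5)) = true := by
  decide +kernel

set_option maxRecDepth 100000 in
theorem chk1_7_3 : (tab[7]?.all fun r5 => ((tab.drop (2 * 3)).take 2).all (chk1B r5)) = true := by
  decide +kernel

set_option maxRecDepth 100000 in
theorem chk1_7_4 : (tab[7]?.all fun r5 => ((tab.drop (2 * 4)).take 2).all (chk1B r5)) = true := by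
  decide +kernel

theorem chk1_7 : (tab[7]?.all chk1R) = true :=
  all_split5 (f := chk1B) fun k hk => by
    interval_cases k
    exacts [chk1_7_0, chk1_7_1, chk1_7_2, chk1_7_3, chk1_7_4]

set_option maxRecDepth 100000 in
theorem chk1_8_0 : (tab[8]?.all fun r5 => ((tab.drop (2 * 0)).take 2).all (chk1B r5)) = true := by
  decide +kernel

set_option maxRecDepth 100000 in
theorem chk1_8_1 : (tab[8]?.all fun r5 => ((tab.drop (2 * 1)).take 2).all (chk1B r5)) = true := by
  decide +kernel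

set_option maxRecDepth 100000 in
theorem chk1_8_2 : (tab[8]?.all fun r5 => ((tab.drop (2 * 2)).take 2).all (chk1B r5)) = true := by
  decide +kernel

set_option maxRecDepth 100000 in
theorem chk1_8_3 : (tab[8]?.all fun r5 => ((tab.drop (2 * 3)).take 2).all (chk1B r5)) = true := by
  decide +kernel

set_option maxRecDepth 100000 in
theorem chk1_8_4 : (tab[8]?.all fun r5 => ((tab.drop (2 * 4)).take 2).all (chk1B r5)) = true := by
  decide +kernel

theorem chk1_8 : (tab[8]?.all chk1R) = true :=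
  all_split5 (f := chk1B) fun k hk => by
    interval_cases k
    exacts [chk1_8_0, chk1_8_1, chk1_8_2, chk1_8_3, chk1_8_4]

set_option maxRecDepth 100000 in
theorem chk1_9_0 : (tab[9]?.all fun r5 => ((tab.drop (2 * 0)).take 2).all (chk1B r5)) = true := by
  decide +kernel

set_option maxRecDepth 100000 in
theorem chk1_9_1 : (tab[9]?.all fun r5 => ((tab.drop (2 * 1)).take 2).all (chk1B r5)) = true := by
  decide +kernel

set_option maxRecDepth 100000 in
theorem chk1_9_2 : (tab[9]?.all fun r5 => ((tab.drop (2 * 2)).take 2).all (chk1B r5)) = true := by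
  decide +kernel

set_option maxRecDepth 100000 in
theorem chk1_9_3 : (tab[9]?.all fun r5 => ((tab.drop (2 * 3)).take 2).all (chk1B r5)) = true := by
  decide +kernel

set_option maxRecDepth 100000 in
theorem chk1_9_4 : (tab[9]?.all fun r5 => ((tab.drop (2 * 4)).take 2).all (chk1B r5)) = true := by
  decide +kernel

theorem chk1_9 : (tab[9]?.all chk1R) = true :=
  all_split5 (f := chk1B) fun k hk => by
    interval_cases k
    exacts [chk1_9_0, chk1_9_1, chk1_9_2, chk1_9_3, chk1_9_4]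

theorem chk1_true : chk1 = true := all_split tab_length fun i hi => by
  interval_cases i
  exacts [chk1_0, chk1_1, chk1_2, chk1_3, chk1_4, chk1_5, chk1_6, chk1_7, chk1_8, chk1_9]

set_option maxRecDepth 100000 in
theorem chk1x_0_0 : (tab[0]?.all fun r5 => ((tab.drop (2 * 0)).take 2).all (chk1xB r5)) = true := by
  decide +kernel

set_option maxRecDepth 100000 in
theorem chk1x_0_1 : (tab[0]?.all fun r5 => ((tab.drop (2 * 1)).take 2).all (chk1xB r5)) = true := by
  decide +kernel

set_option maxRecDepth 100000 in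
theorem chk1x_0_2 : (tab[0]?.all fun r5 => ((tab.drop (2 * 2)).take 2).all (chk1xB r5)) = true := by
  decide +kernel

set_option maxRecDepth 100000 in
theorem chk1x_0_3 : (tab[0]?.all fun r5 => ((tab.drop (2 * 3)).take 2).all (chk1xB r5)) = true := by
  decide +kernel

set_option maxRecDepth 100000 in
theorem chk1x_0_4 : (tab[0]?.all fun r5 => ((tab.drop (2 * 4)).take 2).all (chk1xB r5)) = true := by
  decide +kernel

theorem chk1x_0 : (tab[0]?.all chk1xR) = true :=
  all_split5 (f := chk1xB) fun k hk => by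
    interval_cases k
    exacts [chk1x_0_0, chk1x_0_1, chk1x_0_2, chk1x_0_3, chk1x_0_4]

set_option maxRecDepth 100000 in
theorem chk1x_1_0 : (tab[1]?.all fun r5 => ((tab.drop (2 * 0)).take 2).all (chk1xB r5)) = true := by
  decide +kernel

set_option maxRecDepth 100000 in
theorem chk1x_1_1 : (tab[1]?.all fun r5 => ((tab.drop (2 * 1)).take 2).all (chk1xB r5)) = true := by
  decide +kernel

set_option maxRecDepth 100000 in
theorem chk1x_1_2 : (tab[1]?.all fun r5 => ((tab.drop (2 * 2)).take 2).all (chk1xB r5)) = true := by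
  decide +kernel

set_option maxRecDepth 100000 in
theorem chk1x_1_3 : (tab[1]?.all fun r5 => ((tab.drop (2 * 3)).take 2).all (chk1xB r5)) = true := by
  decide +kernel

set_option maxRecDepth 100000 in
theorem chk1x_1_4 : (tab[1]?.all fun r5 => ((tab.drop (2 * 4)).take 2).all (chk1xB r5)) = true := by
  decide +kernel

theorem chk1x_1 : (tab[1]?.all chk1xR) = true :=
  all_split5 (f := chk1xB) fun k hk => by
    interval_cases k
    exacts [chk1x_1_0, chk1x_1_1, chk1x_1_2, chk1x_1_3, chk1x_1_4]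

set_option maxRecDepth 100000 in
theorem chk1x_2_0 : (tab[2]?.all fun r5 => ((tab.drop (2 * 0)).take 2).all (chk1xB r5)) = true := by
  decide +kernel

set_option maxRecDepth 100000 in
theorem chk1x_2_1 : (tab[2]?.all fun r5 => ((tab.drop (2 * 1)).take 2).all (chk1xB r5)) = true := by
  decide +kernel

set_option maxRecDepth 100000 in
theorem chk1x_2_2 : (tab[2]?.all fun r5 => ((tab.drop (2 * 2)).take 2).all (chk1xB r5)) = true := by
  decide +kernel

set_option maxRecDepth 100000 in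
theorem chk1x_2_3 : (tab[2]?.all fun r5 => ((tab.drop (2 * 3)).take 2).all (chk1xB r5)) = true := by
  decide +kernel

set_option maxRecDepth 100000 in
theorem chk1x_2_4 : (tab[2]?.all fun r5 => ((tab.drop (2 * 4)).take 2).all (chk1xB r5)) = true := by
  decide +kernel

theorem chk1x_2 : (tab[2]?.all chk1xR) = true :=
  all_split5 (f := chk1xB) fun k hk => by
    interval_cases k
    exacts [chk1x_2_0, chk1x_2_1, chk1x_2_2, chk1x_2_3, chk1x_2_4]

set_option maxRecDepth 100000 in
theorem chk1x_3_0 : (tab[3]?.all fun r5 => ((tab.drop (2 * 0)).take 2).all (chk1xB r5)) = true := by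
  decide +kernel

set_option maxRecDepth 100000 in
theorem chk1x_3_1 : (tab[3]?.all fun r5 => ((tab.drop (2 * 1)).take 2).all (chk1xB r5)) = true := by
  decide +kernel

set_option maxRecDepth 100000 in
theorem chk1x_3_2 : (tab[3]?.all fun r5 => ((tab.drop (2 * 2)).take 2).all (chk1xB r5)) = true := by
  decide +kernel

set_option maxRecDepth 100000 in
theorem chk1x_3_3 : (tab[3]?.all fun r5 => ((tab.drop (2 * 3)).take 2).all (chk1xB r5)) = true := by
  decide +kernel

set_option maxRecDepth 100000 in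
theorem chk1x_3_4 : (tab[3]?.all fun r5 => ((tab.drop (2 * 4)).take 2).all (chk1xB r5)) = true := by
  decide +kernel

theorem chk1x_3 : (tab[3]?.all chk1xR) = true :=
  all_split5 (f := chk1xB) fun k hk => by
    interval_cases k
    exacts [chk1x_3_0, chk1x_3_1, chk1x_3_2, chk1x_3_3, chk1x_3_4]

set_option maxRecDepth 100000 in
theorem chk1x_4_0 : (tab[4]?.all fun r5 => ((tab.drop (2 * 0)).take 2).all (chk1xB r5)) = true := by
  decide +kernel

set_option maxRecDepth 100000 in
theorem chk1x_4_1 : (tab[4]?.all fun r5 => ((tab.drop (2 * 1)).take 2).all (chk1xB r5)) = true := by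
  decide +kernel

set_option maxRecDepth 100000 in
theorem chk1x_4_2 : (tab[4]?.all fun r5 => ((tab.drop (2 * 2)).take 2).all (chk1xB r5)) = true := by
  decide +kernel

set_option maxRecDepth 100000 in
theorem chk1x_4_3 : (tab[4]?.all fun r5 => ((tab.drop (2 * 3)).take 2).all (chk1xB r5)) = true := by
  decide +kernel

set_option maxRecDepth 100000 in
theorem chk1x_4_4 : (tab[4]?.all fun r5 => ((tab.drop (2 * 4)).take 2).all (chk1xB r5)) = true := by
  decide +kernel

theorem chk1x_4 : (tab[4]?.all chk1xR) = true :=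
  all_split5 (f := chk1xB) fun k hk => by
    interval_cases k
    exacts [chk1x_4_0, chk1x_4_1, chk1x_4_2, chk1x_4_3, chk1x_4_4]

set_option maxRecDepth 100000 in
theorem chk1x_5_0 : (tab[5]?.all fun r5 => ((tab.drop (2 * 0)).take 2).all (chk1xB r5)) = true := by
  decide +kernel

set_option maxRecDepth 100000 in
theorem chk1x_5_1 : (tab[5]?.all fun r5 => ((tab.drop (2 * 1)).take 2).all (chk1xB r5)) = true := by
  decide +kernel

set_option maxRecDepth 100000 in
theorem chk1x_5_2 : (tab[5]?.all fun r5 => ((tab.drop (2 * 2)).take 2).all (chk1xB r5)) = true := by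
  decide +kernel

set_option maxRecDepth 100000 in
theorem chk1x_5_3 : (tab[5]?.all fun r5 => ((tab.drop (2 * 3)).take 2).all (chk1xB r5)) = true := by
  decide +kernel

set_option maxRecDepth 100000 in
theorem chk1x_5_4 : (tab[5]?.all fun r5 => ((tab.drop (2 * 4)).take 2).all (chk1xB r5)) = true := by
  decide +kernel

theorem chk1x_5 : (tab[5]?.all chk1xR) = true :=
  all_split5 (f := chk1xB) fun k hk => by
    interval_cases k
    exacts [chk1x_5_0, chk1x_5_1, chk1x_5_2, chk1x_5_3, chk1x_5_4]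

set_option maxRecDepth 100000 in
theorem chk1x_6_0 : (tab[6]?.all fun r5 => ((tab.drop (2 * 0)).take 2).all (chk1xB r5)) = true := by
  decide +kernel

set_option maxRecDepth 100000 in
theorem chk1x_6_1 : (tab[6]?.all fun r5 => ((tab.drop (2 * 1)).take 2).all (chk1xB r5)) = true := by
  decide +kernel

set_option maxRecDepth 100000 in
theorem chk1x_6_2 : (tab[6]?.all fun r5 => ((tab.drop (2 * 2)).take 2).all (chk1xB r5)) = true := by
  decide +kernel

set_option maxRecDepth 100000 in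
theorem chk1x_6_3 : (tab[6]?.all fun r5 => ((tab.drop (2 * 3)).take 2).all (chk1xB r5)) = true := by
  decide +kernel

set_option maxRecDepth 100000 in
theorem chk1x_6_4 : (tab[6]?.all fun r5 => ((tab.drop (2 * 4)).take 2).all (chk1xB r5)) = true := by
  decide +kernel

theorem chk1x_6 : (tab[6]?.all chk1xR) = true :=
  all_split5 (f := chk1xB) fun k hk => by
    interval_cases k
    exacts [chk1x_6_0, chk1x_6_1, chk1x_6_2, chk1x_6_3, chk1x_6_4]

set_option maxRecDepth 100000 in
theorem chk1x_7_0 : (tab[7]?.all fun r5 => ((tab.drop (2 * 0)).take 2).all (chk1xB r5)) = true := by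
  decide +kernel

set_option maxRecDepth 100000 in
theorem chk1x_7_1 : (tab[7]?.all fun r5 => ((tab.drop (2 * 1)).take 2).all (chk1xB r5)) = true := by
  decide +kernel

set_option maxRecDepth 100000 in
theorem chk1x_7_2 : (tab[7]?.all fun r5 => ((tab.drop (2 * 2)).take 2).all (chk1xB r5)) = true := by
  decide +kernel

set_option maxRecDepth 100000 in
theorem chk1x_7_3 : (tab[7]?.all fun r5 => ((tab.drop (2 * 3)).take 2).all (chk1xB r5)) = true := by
  decide +kernel

set_option maxRecDepth 100000 in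
theorem chk1x_7_4 : (tab[7]?.all fun r5 => ((tab.drop (2 * 4)).take 2).all (chk1xB r5)) = true := by
  decide +kernel

theorem chk1x_7 : (tab[7]?.all chk1xR) = true :=
  all_split5 (f := chk1xB) fun k hk => by
    interval_cases k
    exacts [chk1x_7_0, chk1x_7_1, chk1x_7_2, chk1x_7_3, chk1x_7_4]

set_option maxRecDepth 100000 in
theorem chk1x_8_0 : (tab[8]?.all fun r5 => ((tab.drop (2 * 0)).take 2).all (chk1xB r5)) = true := by
  decide +kernel

set_option maxRecDepth 100000 in
theorem chk1x_8_1 : (tab[8]?.all fun r5 => ((tab.drop (2 * 1)).take 2).all (chk1xB r5)) = true := by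
  decide +kernel

set_option maxRecDepth 100000 in
theorem chk1x_8_2 : (tab[8]?.all fun r5 => ((tab.drop (2 * 2)).take 2).all (chk1xB r5)) = true := by
  decide +kernel

set_option maxRecDepth 100000 in
theorem chk1x_8_3 : (tab[8]?.all fun r5 => ((tab.drop (2 * 3)).take 2).all (chk1xB r5)) = true := by
  decide +kernel

set_option maxRecDepth 100000 in
theorem chk1x_8_4 : (tab[8]?.all fun r5 => ((tab.drop (2 * 4)).take 2).all (chk1xB r5)) = true := by
  decide +kernel

theorem chk1x_8 : (tab[8]?.all chk1xR) = true :=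
  all_split5 (f := chk1xB) fun k hk => by
    interval_cases k
    exacts [chk1x_8_0, chk1x_8_1, chk1x_8_2, chk1x_8_3, chk1x_8_4]

set_option maxRecDepth 100000 in
theorem chk1x_9_0 : (tab[9]?.all fun r5 => ((tab.drop (2 * 0)).take 2).all (chk1xB r5)) = true := by
  decide +kernel

set_option maxRecDepth 100000 in
theorem chk1x_9_1 : (tab[9]?.all fun r5 => ((tab.drop (2 * 1)).take 2).all (chk1xB r5)) = true := by
  decide +kernel

set_option maxRecDepth 100000 in
theorem chk1x_9_2 : (tab[9]?.all fun r5 => ((tab.drop (2 * 2)).take 2).all (chk1xB r5)) = true := by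
  decide +kernel

set_option maxRecDepth 100000 in
theorem chk1x_9_3 : (tab[9]?.all fun r5 => ((tab.drop (2 * 3)).take 2).all (chk1xB r5)) = true := by
  decide +kernel

set_option maxRecDepth 100000 in
theorem chk1x_9_4 : (tab[9]?.all fun r5 => ((tab.drop (2 * 4)).take 2).all (chk1xB r5)) = true := by
  decide +kernel

theorem chk1x_9 : (tab[9]?.all chk1xR) = true :=
  all_split5 (f := chk1xB) fun k hk => by
    interval_cases k
    exacts [chk1x_9_0, chk1x_9_1, chk1x_9_2, chk1x_9_3, chk1x_9_4]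

theorem chk1x_true : chk1x = true := all_split tab_length fun i hi => by
  interval_cases i
  exacts [chk1x_0, chk1x_1, chk1x_2, chk1x_3, chk1x_4, chk1x_5, chk1x_6, chk1x_7, chk1x_8, chk1x_9]

set_option maxRecDepth 100000 in
theorem chk1xx_0 : (tab[0]?.all chk1xxR) = true := by decide +kernel

set_option maxRecDepth 100000 in
theorem chk1xx_1 : (tab[1]?.all chk1xxR) = true := by decide +kernel

set_option maxRecDepth 100000 in
theorem chk1xx_2 : (tab[2]?.all chk1xxR) = true := by decide +kernel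

set_option maxRecDepth 100000 in
theorem chk1xx_3 : (tab[3]?.all chk1xxR) = true := by decide +kernel

set_option maxRecDepth 100000 in
theorem chk1xx_4 : (tab[4]?.all chk1xxR) = true := by decide +kernel

set_option maxRecDepth 100000 in
theorem chk1xx_5 : (tab[5]?.all chk1xxR) = true := by decide +kernel

set_option maxRecDepth 100000 in
theorem chk1xx_6 : (tab[6]?.all chk1xxR) = true := by decide +kernel

set_option maxRecDepth 100000 in
theorem chk1xx_7 : (tab[7]?.all chk1xxR) = true := by decide +kernel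

set_option maxRecDepth 100000 in
theorem chk1xx_8 : (tab[8]?.all chk1xxR) = true := by decide +kernel

set_option maxRecDepth 100000 in
theorem chk1xx_9 : (tab[9]?.all chk1xxR) = true := by decide +kernel

theorem chk1xx_true : chk1xx = true := all_split tab_length fun i hi => by
  interval_cases i
  exacts [chk1xx_0, chk1xx_1, chk1xx_2, chk1xx_3, chk1xx_4, chk1xx_5, chk1xx_6, chk1xx_7, chk1xx_8, chk1xx_9]

set_option maxRecDepth 100000 in
theorem chk4_0 : (tab[0]?.all chk4R) = true := by decide +kernel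

set_option maxRecDepth 100000 in
theorem chk4_1 : (tab[1]?.all chk4R) = true := by decide +kernel

set_option maxRecDepth 100000 in
theorem chk4_2 : (tab[2]?.all chk4R) = true := by decide +kernel

set_option maxRecDepth 100000 in
theorem chk4_3 : (tab[3]?.all chk4R) = true := by decide +kernel

set_option maxRecDepth 100000 in
theorem chk4_4 : (tab[4]?.all chk4R) = true := by decide +kernel

set_option maxRecDepth 100000 in
theorem chk4_5 : (tab[5]?.all chk4R) = true := by decide +kernel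

set_option maxRecDepth 100000 in
theorem chk4_6 : (tab[6]?.all chk4R) = true := by decide +kernel

set_option maxRecDepth 100000 in
theorem chk4_7 : (tab[7]?.all chk4R) = true := by decide +kernel

set_option maxRecDepth 100000 in
theorem chk4_8 : (tab[8]?.all chk4R) = true := by decide +kernel

set_option maxRecDepth 100000 in
theorem chk4_9 : (tab[9]?.all chk4R) = true := by decide +kernel

theorem chk4_true : chk4 = true := all_split tab_length fun i hi => by
  interval_cases i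
  exacts [chk4_0, chk4_1, chk4_2, chk4_3, chk4_4, chk4_5, chk4_6, chk4_7, chk4_8, chk4_9]

end Helper97.L9.J
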