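import Pool.Agent.helper97.L9.K23Tab

/-!
# The numerical part of the `K_{2,3}` reduction

`k23`: the labels of the five vertices `u, v | a, b, c` of a `K_{2,3}` can be chosen, whatever the
third neighbour `x` of `a` (second neighbours `s, t`), of `b` and of `c` are.
`k23ab`: the same if `a` and `b` are adjacent.
-/

namespace Helper97.L9

set_option linter.unusedSimpArgs false

theorem mn_idx_lt {x s t : ℕ} (hx : x ≤ 9) (hs : s ≤ 9) (ht : t ≤ 9) :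
    ix (100 * x + 10 * s + t) < 22 ∧ ∀ k < 17, chkA (100 * x + 10 * s + t) k = true := by
  have h := List.all_eq_true.mp chkA_all (100 * x + 10 * s + t)
    (List.mem_range.mpr (by omega))
  rw [Bool.and_eq_true, Nat.ble_eq] at h
  exact ⟨by omega, fun k hk => List.all_eq_true.mp h.2 k (List.mem_range.mpr hk)⟩

theorem ls_len {x s t k : ℕ} (hx : x ≤ 9) (hs : s ≤ 9) (ht : t ≤ 9) (hk : k < 17) :
    let m := mn (ix (100 * x + 10 * s + t))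
    (m.1.testBit k = true → 1 ≤ (lsA x s t k).length) ∧
    (m.2.1.testBit k = true → 2 ≤ (lsA x s t k).length) ∧
    (m.2.2.testBit k = true → 3 ≤ (lsA x s t k).length) :=
  chkA_len hs ht ((mn_idx_lt hx hs ht).2 k hk)

theorem not_beq_iff {a b : ℕ} : (!Nat.beq a b) = true ↔ a ≠ b := by
  rw [Bool.not_eq_true', ← Bool.not_eq_true, Nat.beq_eq]

theorem ls_nodup (x s t k : ℕ) : (lsA x s t k).Nodup := by
  unfold lsA
  split_ifs
  · exact List.nodup_nil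
  · exact List.nodup_range.filter _

theorem exists_avoid {l : List ℕ} (hl : l.Nodup) (F : Finset ℕ) (h : F.card < l.length) :
    ∃ a ∈ l, a ∉ F := by
  have h2 : F.card < l.toFinset.card := by rwa [List.toFinset_card_of_nodup hl]
  obtain ⟨a, ha, hF⟩ := Finset.exists_mem_notMem_of_card_lt_card h2
  exact ⟨a, List.mem_toFinset.mp ha, hF⟩

/-- the labels `u', v'` and `y` are fine for the data `(x, s, t)` -/
structure Fine (x s t u v y : ℕ) : Prop where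
  yl : y ≤ 9
  yu : fr y u = true
  yv : fr y v = true
  yx : fr y x = true
  ys : y ≠ s
  yt : y ≠ t
  ux : u ≠ x
  vx : v ≠ x

theorem fine_of {x s t k y : ℕ} (h : y ∈ lsA x s t k) :
    Fine x s t (pos.getD k (0, 1)).1 (pos.getD k (0, 1)).2 y := by
  unfold lsA at h
  split_ifs at h with h1
  · simp at h
  · push Not at h1
    rw [List.mem_filter, List.mem_range] at h
    obtain ⟨h2, h3⟩ := h
    unfold okA at h3
    simp only [Bool.and_eq_true, not_beq_iff] at h3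
    obtain ⟨⟨⟨⟨a1, a2⟩, a3⟩, a4⟩, a5⟩ := h3
    exact ⟨by omega, a1, a2, a3, a4, a5, h1.1, h1.2⟩

theorem pos_ok : (pos.all fun p => decide (p.1 ≤ 9 ∧ p.2 ≤ 9 ∧ p.1 ≠ p.2)) = true := by decide

theorem pos_get {k : ℕ} (hk : k < 17) : (pos.getD k (0, 1)).1 ≤ 9 ∧ (pos.getD k (0, 1)).2 ≤ 9 ∧
    (pos.getD k (0, 1)).1 ≠ (pos.getD k (0, 1)).2 := by
  have hl : k < pos.length := by simpa [pos] using hk
  have h := List.all_eq_true.mp pos_ok (pos.getD k (0, 1)) (by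
    rw [List.getD_eq_getElem pos (0, 1) hl]; exact List.getElem_mem hl)
  exact decide_eq_true_eq.mp h

/-- the conclusion for three data -/
def Sol (x₁ s₁ t₁ x₂ s₂ t₂ x₃ s₃ t₃ : ℕ) : Prop :=
  ∃ u v a b c : ℕ, u ≤ 9 ∧ v ≤ 9 ∧ u ≠ v ∧ Fine x₁ s₁ t₁ u v a ∧ Fine x₂ s₂ t₂ u v b ∧
    Fine x₃ s₃ t₃ u v c ∧ a ≠ b ∧ a ≠ c ∧ b ≠ c

theorem sol_of_fit {x₁ s₁ t₁ x₂ s₂ t₂ x₃ s₃ t₃ : ℕ} (h1 : x₁ ≤ 9) (h2 : s₁ ≤ 9) (h3 : t₁ ≤ 9)
    (h4 : x₂ ≤ 9) (h5 : s₂ ≤ 9) (h6 : t₂ ≤ 9) (h7 : x₃ ≤ 9) (h8 : s₃ ≤ 9) (h9 : t₃ ≤ 9)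
    (hf : fit (mn (ix (100 * x₁ + 10 * s₁ + t₁))) (mn (ix (100 * x₂ + 10 * s₂ + t₂)))
      (mn (ix (100 * x₃ + 10 * s₃ + t₃))) = true) :
    Sol x₁ s₁ t₁ x₂ s₂ t₂ x₃ s₃ t₃ := by
  unfold fit at hf
  rw [not_beq_iff] at hf
  obtain ⟨k, hk⟩ := Nat.exists_testBit_of_ne_zero hf
  rw [Nat.testBit_land, Nat.testBit_land, Bool.and_eq_true, Bool.and_eq_true] at hk
  obtain ⟨⟨k1, k2⟩, k3⟩ := hk
  have hk17 : k < 17 := by
    by_contra hcon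
    have hlt := List.all_eq_true.mp mins_lt _ (List.mem_range.mpr (mn_idx_lt h7 h8 h9).1)
    rw [decide_eq_true_eq] at hlt
    have := Nat.testBit_lt_two_pow (hlt.trans_le (Nat.pow_le_pow_right (by norm_num)
      (by omega : 17 ≤ k)))
    rw [this] at k3
    exact Bool.false_ne_true k3
  have g1 := (ls_len h1 h2 h3 hk17).2.2 k1
  have g2 := (ls_len h4 h5 h6 hk17).2.1 k2
  have g3 := (ls_len h7 h8 h9 hk17).1 k3
  obtain ⟨c, hc, _⟩ := exists_avoid (ls_nodup x₃ s₃ t₃ k) ∅ (by rw [Finset.card_empty]; omega)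
  obtain ⟨b, hb, hbF⟩ := exists_avoid (ls_nodup x₂ s₂ t₂ k) {c} (by
    rw [Finset.card_singleton]; omega)
  obtain ⟨a, ha, haF⟩ := exists_avoid (ls_nodup x₁ s₁ t₁ k) {b, c} (by
    have := Finset.card_le_two (a := b) (b := c); omega)
  simp only [Finset.mem_insert, Finset.mem_singleton, not_or] at hbF haF
  obtain ⟨p1, p2, p3⟩ := pos_get hk17
  exact ⟨_, _, a, b, c, p1, p2, p3, fine_of ha, fine_of hb, fine_of hc, haF.1, haF.2, hbF⟩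

theorem k23 {x₁ s₁ t₁ x₂ s₂ t₂ x₃ s₃ t₃ : ℕ} (h1 : x₁ ≤ 9) (h2 : s₁ ≤ 9) (h3 : t₁ ≤ 9)
    (h4 : x₂ ≤ 9) (h5 : s₂ ≤ 9) (h6 : t₂ ≤ 9) (h7 : x₃ ≤ 9) (h8 : s₃ ≤ 9) (h9 : t₃ ≤ 9) :
    Sol x₁ s₁ t₁ x₂ s₂ t₂ x₃ s₃ t₃ := by
  have h := List.all_eq_true.mp (List.all_eq_true.mp (List.all_eq_true.mp fit_all _
    (List.mem_range.mpr (mn_idx_lt h1 h2 h3).1)) _ (List.mem_range.mpr (mn_idx_lt h4 h5 h6).1)) _
    (List.mem_range.mpr (mn_idx_lt h7 h8 h9).1)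
  unfold fit6 at h
  simp only [Bool.or_eq_true] at h
  rcases h with ((((h | h) | h) | h) | h) | h
  · exact sol_of_fit h1 h2 h3 h4 h5 h6 h7 h8 h9 h
  · obtain ⟨u, v, a, c, b, e1, e2, e3, e4, e5, e6, e7, e8, e9⟩ :=
      sol_of_fit h1 h2 h3 h7 h8 h9 h4 h5 h6 h
    exact ⟨u, v, a, b, c, e1, e2, e3, e4, e6, e5, e8, e7, e9.symm⟩
  · obtain ⟨u, v, b, a, c, e1, e2, e3, e4, e5, e6, e7, e8, e9⟩ :=
      sol_of_fit h4 h5 h6 h1 h2 h3 h7 h8 h9 h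
    exact ⟨u, v, a, b, c, e1, e2, e3, e5, e4, e6, e7.symm, e9, e8⟩
  · obtain ⟨u, v, b, c, a, e1, e2, e3, e4, e5, e6, e7, e8, e9⟩ :=
      sol_of_fit h4 h5 h6 h7 h8 h9 h1 h2 h3 h
    exact ⟨u, v, a, b, c, e1, e2, e3, e6, e4, e5, e8.symm, e9.symm, e7⟩
  · obtain ⟨u, v, c, a, b, e1, e2, e3, e4, e5, e6, e7, e8, e9⟩ :=
      sol_of_fit h7 h8 h9 h1 h2 h3 h4 h5 h6 h
    exact ⟨u, v, a, b, c, e1, e2, e3, e5, e6, e4, e9, e7.symm, e8.symm⟩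
  · obtain ⟨u, v, c, b, a, e1, e2, e3, e4, e5, e6, e7, e8, e9⟩ :=
      sol_of_fit h7 h8 h9 h4 h5 h6 h1 h2 h3 h
    exact ⟨u, v, a, b, c, e1, e2, e3, e6, e5, e4, e9.symm, e8.symm, e7.symm⟩

theorem k23ab {x s t : ℕ} (hx : x ≤ 9) (hs : s ≤ 9) (ht : t ≤ 9) :
    ∃ u v a b c : ℕ, u ≤ 9 ∧ v ≤ 9 ∧ u ≠ v ∧ a ≤ 9 ∧ b ≤ 9 ∧ fr a u = true ∧ fr a v = true ∧
      fr b u = true ∧ fr b v = true ∧ fr a b = true ∧ Fine x s t u v c ∧ a ≠ c ∧ b ≠ c := by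
  have h := List.all_eq_true.mp tst_all (100 * x + 10 * s + t) (List.mem_range.mpr (by omega))
  have e1 : (100 * x + 10 * s + t) / 100 = x := by omega
  have e2 : (100 * x + 10 * s + t) / 10 % 10 = s := by omega
  have e3 : (100 * x + 10 * s + t) % 10 = t := by omega
  rw [Bool.and_eq_true, e1, e2, e3] at h
  obtain ⟨hw, h⟩ := h
  have hw' : wi (100 * x + 10 * s + t) / 1000 < 17 := by simpa using hw
  generalize wi (100 * x + 10 * s + t) = w at h hw'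
  have ha : w / 100 % 10 < 10 := Nat.mod_lt _ (by norm_num)
  have hb : w / 10 % 10 < 10 := Nat.mod_lt _ (by norm_num)
  have hc : w % 10 < 10 := Nat.mod_lt _ (by norm_num)
  generalize w / 100 % 10 = a at h ha
  generalize w / 10 % 10 = b at h hb
  generalize w % 10 = c at h hc
  have hpp := pos_get hw'
  generalize pos.getD (w / 1000) (0, 1) = p at h hpp
  unfold tst okA at h
  simp only [Bool.and_eq_true, not_beq_iff] at h
  obtain ⟨⟨⟨⟨⟨⟨⟨⟨⟨g1, g2⟩, g3⟩, g4⟩, g5⟩, g6⟩, g7⟩, ⟨⟨⟨⟨g8, g9⟩, g10⟩, g11⟩, g12⟩⟩, g13⟩, g14⟩ := h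
  exact ⟨p.1, p.2, a, b, c, hpp.1, hpp.2.1, hpp.2.2, by omega, by omega, g3, g4, g5, g6, g7,
    ⟨by omega, g8, g9, g10, g11, g12, g1, g2⟩, g13.symm, g14.symm⟩

end Helper97.L9
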