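import Mathlib.Data.Nat.Bitwise
import Mathlib.Data.Finset.Card
import Mathlib.Data.List.Range
import Mathlib.Tactic

/-!
# Tables for the `K_{2,3}` reduction
-/

namespace Helper97.L9

set_option linter.unusedSimpArgs false
set_option linter.style.longLine false

/-- `|a - b| >= 2` -/
def fr (a b : ℕ) : Bool := Nat.ble (a + 2) b || Nat.ble (b + 2) a

theorem fr_iff {a b : ℕ} : fr a b = true ↔ a + 2 ≤ b ∨ b + 2 ≤ a := by simp [fr]

/-- labels of `u, v` -/
def pos : List (ℕ × ℕ) :=
  [(0, 1), (0, 2), (1, 2), (1, 3), (2, 3), (2, 4), (3, 4), (3, 5), (4, 5), (4, 6), (5, 6), (5,
    7), (6, 7), (6, 8), (7, 8), (7, 9), (8, 9)]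

/-- the label `y` is allowed for a vertex with third neighbour `x` and second neighbours `s, t` -/
def okA (x s t u v y : ℕ) : Bool := fr y u && fr y v && fr y x && !Nat.beq y s && !Nat.beq y t

/-- list of allowed labels at position `k` -/
def lsA (x s t k : ℕ) : List ℕ :=
  if (pos.getD k (0, 1)).1 = x ∨ (pos.getD k (0, 1)).2 = x then [] else
    (List.range 10).filter (okA x s t (pos.getD k (0, 1)).1 (pos.getD k (0, 1)).2)

/-! ### lists as bit masks -/

/-- the mask of `a - 1, a, a + 1` -/
def nbm (a : ℕ) : ℕ := (7 <<< a) >>> 1

theorem nbm_bit (a y : ℕ) : (nbm a).testBit y = !fr y a := by
  unfold nbm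
  rw [Nat.testBit_shiftRight, Nat.testBit_shiftLeft, show (7 : ℕ) = 2 ^ 3 - 1 from rfl,
    Nat.testBit_two_pow_sub_one, Bool.eq_iff_iff, Bool.not_eq_true', ← Bool.not_eq_true, fr_iff]
  simp only [Bool.and_eq_true, decide_eq_true_eq]
  omega

/-- the mask of the allowed labels, `m` the mask of the labels near `u` or `v` -/
def mk (r m : ℕ) : ℕ := 1023 ^^^ (1023 &&& (r ||| m))

/-- the mask of the forbidden labels -/
def rst (x s t : ℕ) : ℕ := nbm x ||| (1 <<< s ||| 1 <<< t)

theorem one_bit (s y : ℕ) : (1 <<< s).testBit y = Nat.beq y s := by
  rw [Nat.testBit_shiftLeft, Bool.eq_iff_iff, Nat.beq_eq]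
  simp only [Bool.and_eq_true, decide_eq_true_eq, Nat.testBit_one_eq_true_iff_self_eq_zero]
  omega

theorem mk_bit {x s t u v y : ℕ} (hy : y < 10) :
    (mk (rst x s t) (nbm u ||| nbm v)).testBit y = okA x s t u v y := by
  unfold mk rst okA
  rw [show (1023 : ℕ) = 2 ^ 10 - 1 from rfl]
  simp only [Nat.testBit_xor, Nat.testBit_and, Nat.testBit_or, Nat.testBit_two_pow_sub_one,
    nbm_bit, one_bit, hy, decide_true]
  cases fr y u <;> cases fr y v <;> cases fr y x <;> cases Nat.beq y s <;>
    cases Nat.beq y t <;> rfl

theorem mk_lt (r m : ℕ) : mk r m < 1024 := by
  have h : (1023 : ℕ) &&& (r ||| m) < 2 ^ 10 :=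
    lt_of_le_of_lt Nat.and_le_left (by norm_num)
  exact Nat.xor_lt_two_pow (n := 10) (by norm_num) h

/-- the mask of the allowed labels at a position -/
def mA (x r : ℕ) (p : ℕ × ℕ) : ℕ :=
  cond (Nat.beq p.1 x || Nat.beq p.2 x) 0 (mk r (nbm p.1 ||| nbm p.2))

/-- the list of a mask -/
def lsM (m : ℕ) : List ℕ := (List.range 10).filter fun y => m.testBit y

theorem lsM_mA (x s t k : ℕ) : lsM (mA x (rst x s t) (pos.getD k (0, 1))) = lsA x s t k := by
  unfold lsM mA lsA
  by_cases h : (pos.getD k (0, 1)).1 = x ∨ (pos.getD k (0, 1)).2 = x
  · rw [if_pos h]
    have h' : (Nat.beq (pos.getD k (0, 1)).1 x || Nat.beq (pos.getD k (0, 1)).2 x) = true := by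
      rw [Bool.or_eq_true, Nat.beq_eq, Nat.beq_eq]
      exact h
    rw [h', cond_true]
    simp
  · rw [if_neg h]
    have h' : (Nat.beq (pos.getD k (0, 1)).1 x || Nat.beq (pos.getD k (0, 1)).2 x) = false := by
      rw [← Bool.not_eq_true, Bool.or_eq_true, Nat.beq_eq, Nat.beq_eq]
      exact h
    rw [h', cond_false]
    exact List.filter_congr fun y hy => mk_bit (List.mem_range.mp hy)

theorem mA_lt (x r : ℕ) (p : ℕ × ℕ) : mA x r p < 1024 := by
  unfold mA
  cases Nat.beq p.1 x || Nat.beq p.2 x
  · exact mk_lt _ _
  · exact Nat.zero_lt_succ _

/-- drop the last bit -/
def dr (m : ℕ) : ℕ := m &&& (m - 1)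

/-- the number of elements of a mask -/
def chkM (m : ℕ) : Bool := (Nat.beq m 0 || Nat.ble 1 (lsM m).length) &&
  (Nat.beq (dr m) 0 || Nat.ble 2 (lsM m).length) &&
  (Nat.beq (dr (dr m)) 0 || Nat.ble 3 (lsM m).length)

/-- a check of a range, block by block -/
theorem all_blocks (a b : ℕ) (f : ℕ → Bool)
    (h : ∀ c < a, ((List.range b).all fun m => f (b * c + m)) = true) :
    ((List.range (a * b)).all f) = true := by
  rw [List.all_eq_true]
  intro n hn
  have hn' : n < a * b := List.mem_range.mp hn
  have hb : 0 < b := by
    rcases Nat.eq_zero_or_pos b with h0 | h0
    · subst h0
      simp at hn'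
    · exact h0
  have h1 := h (n / b) ((Nat.div_lt_iff_lt_mul hb).mpr hn')
  rw [List.all_eq_true] at h1
  have h2 := h1 (n % b) (List.mem_range.mpr (Nat.mod_lt _ hb))
  rwa [Nat.div_add_mod] at h2

set_option maxRecDepth 100000 in
theorem chkM_0 : ((List.range 128).all fun m => chkM (128 * 0 + m)) = true := by decide +kernel

set_option maxRecDepth 100000 in
theorem chkM_1 : ((List.range 128).all fun m => chkM (128 * 1 + m)) = true := by decide +kernel

set_option maxRecDepth 100000 in
theorem chkM_2 : ((List.range 128).all fun m => chkM (128 * 2 + m)) = true := by decide +kernel

set_option maxRecDepth 100000 in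
theorem chkM_3 : ((List.range 128).all fun m => chkM (128 * 3 + m)) = true := by decide +kernel

set_option maxRecDepth 100000 in
theorem chkM_4 : ((List.range 128).all fun m => chkM (128 * 4 + m)) = true := by decide +kernel

set_option maxRecDepth 100000 in
theorem chkM_5 : ((List.range 128).all fun m => chkM (128 * 5 + m)) = true := by decide +kernel

set_option maxRecDepth 100000 in
theorem chkM_6 : ((List.range 128).all fun m => chkM (128 * 6 + m)) = true := by decide +kernel

set_option maxRecDepth 100000 in
theorem chkM_7 : ((List.range 128).all fun m => chkM (128 * 7 + m)) = true := by decide +kernel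

theorem chkM_all : ((List.range 1024).all chkM) = true :=
  all_blocks 8 128 chkM fun c hc => by
    interval_cases c
    exacts [chkM_0, chkM_1, chkM_2, chkM_3, chkM_4, chkM_5, chkM_6, chkM_7]

theorem lsM_len {m : ℕ} (hm : m < 1024) : (m ≠ 0 → 1 ≤ (lsM m).length) ∧
    (dr m ≠ 0 → 2 ≤ (lsM m).length) ∧ (dr (dr m) ≠ 0 → 3 ≤ (lsM m).length) := by
  have h := List.all_eq_true.mp chkM_all m (List.mem_range.mpr hm)
  unfold chkM at h
  simp only [Bool.and_eq_true, Bool.or_eq_true, Nat.beq_eq, Nat.ble_eq] at h
  exact ⟨h.1.1.resolve_left, h.1.2.resolve_left, h.2.resolve_left⟩

/-- minimal signatures: positions with at least 1, 2, 3 labels -/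
def mins : List (ℕ × ℕ × ℕ) :=
  [(32767, 32127, 28703), (32767, 32607, 31751), (32767, 32727, 32513), (40831, 39967, 36871),
    (40927, 40711, 39937), (40951, 40897, 40704), (75743, 75527, 74753), (75767, 75713, 75520),
    (117239, 117185, 116992), (122663, 67367, 295), (122825, 67529, 457), (122866, 67570, 498),
    (127615, 127601, 127552), (127615, 127615, 4735), (128969, 115145, 65609), (129010, 115186,
    65650), (130207, 72863, 1183), (130207, 130207, 130192), (130546, 127090, 114706), (131068,
    120828, 66044), (131068, 128508, 114812), (131068, 130428, 127004)]

/-- numbers of minimal signatures below the signatures of `(x, s, t)`, five bits each -/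
def ixN : ℕ :=
  4449420133147760173575130352254193115231130271601949667620009559502060940114447835338861944427417228650170636238831239598026645588471498854763846154915159032186114570184909473645308439462271219695341235831984969073589572127913107494143126502737243225281735610971321442747267212775927776507402952464147870136427777781390664519225147429531185585116226853101913707755374007091166065919506820461327514126517501582993575185818617981673648533657404260513368876496615519795310721852761313886545664360472860278410511464183202181661993232505773243527170771620689969257856677753870276139780729639486226741795744773828447486006330421649203192346786652231552560906583964208021987872388997544979352407346856361773088812398048584947324291405572996279100288171637476605722089093492147374858681011352986415347979436956542548997047090718128259307001246302891735769855412648874289773519999969862745036624452207743322375941533039986091104777294703796041930483001326779400689269465661967885704776123161120892199318807796241290612025030285568342255037240063150237355767660958753049588652345588047790349282562071048621296390162199792619448034649881788115312663529386529454087470793939876559807849911469748031300544607393052296291295382432900773809031879362869406093379511187350270206711626091907329705798999417884201949414846024287454123880156115312732857001321482815812724550307308770061552790315532439343748235049349371590488012718238540566206831797159920636540661262462371344910678934420252153212062489489685092436135539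

/-- a minimal signature below the signature of `(x, s, t)` -/
def ix (n : ℕ) : ℕ := (ixN >>> (5 * n)) % 32

/-- the minimal signature -/
def mn (n : ℕ) : ℕ × ℕ × ℕ := mins.getD n (0, 0, 0)

/-- check of one mask -/
def chk1 (g : ℕ × ℕ × ℕ) (k m : ℕ) : Bool :=
  (!g.1.testBit k || !Nat.beq m 0) && (!g.2.1.testBit k || !Nat.beq (dr m) 0) &&
    (!g.2.2.testBit k || !Nat.beq (dr (dr m)) 0)

/-- check of the table -/
def chkA (n k : ℕ) : Bool :=
  chk1 (mn (ix n)) k (mA (n / 100) (rst (n / 100) (n / 10 % 10) (n % 10)) (pos.getD k (0, 1)))

theorem chkA_len {x s t k : ℕ} (hs : s ≤ 9) (ht : t ≤ 9)
    (h : chkA (100 * x + 10 * s + t) k = true) :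
    ((mn (ix (100 * x + 10 * s + t))).1.testBit k = true → 1 ≤ (lsA x s t k).length) ∧
    ((mn (ix (100 * x + 10 * s + t))).2.1.testBit k = true → 2 ≤ (lsA x s t k).length) ∧
    ((mn (ix (100 * x + 10 * s + t))).2.2.testBit k = true → 3 ≤ (lsA x s t k).length) := by
  unfold chkA at h
  have e1 : (100 * x + 10 * s + t) / 100 = x := by omega
  have e2 : (100 * x + 10 * s + t) / 10 % 10 = s := by omega
  have e3 : (100 * x + 10 * s + t) % 10 = t := by omega
  rw [e1, e2, e3] at h
  obtain ⟨l1, l2, l3⟩ := lsM_len (mA_lt x (rst x s t) (pos.getD k (0, 1)))
  rw [lsM_mA] at l1 l2 l3
  unfold chk1 at h
  simp only [Bool.and_eq_true, Bool.or_eq_true, Bool.not_eq_true', ← Bool.not_eq_true,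
    Nat.beq_eq] at h
  obtain ⟨⟨h1, h2⟩, h3⟩ := h
  exact ⟨fun hh => l1 (h1.resolve_left fun hc => hc hh),
    fun hh => l2 (h2.resolve_left fun hc => hc hh), fun hh => l3 (h3.resolve_left fun hc => hc hh)⟩

/-- the check of one number -/
def chkAn (n : ℕ) : Bool := Nat.ble (ix n) 21 && (List.range 17).all fun k => chkA n k

set_option maxRecDepth 100000 in
theorem chkA_0 : ((List.range 40).all fun m => chkAn (40 * 0 + m)) = true := by decide +kernel

set_option maxRecDepth 100000 in
theorem chkA_1 : ((List.range 40).all fun m => chkAn (40 * 1 + m)) = true := by decide +kernel

set_option maxRecDepth 100000 in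
theorem chkA_2 : ((List.range 40).all fun m => chkAn (40 * 2 + m)) = true := by decide +kernel

set_option maxRecDepth 100000 in
theorem chkA_3 : ((List.range 40).all fun m => chkAn (40 * 3 + m)) = true := by decide +kernel

set_option maxRecDepth 100000 in
theorem chkA_4 : ((List.range 40).all fun m => chkAn (40 * 4 + m)) = true := by decide +kernel

set_option maxRecDepth 100000 in
theorem chkA_5 : ((List.range 40).all fun m => chkAn (40 * 5 + m)) = true := by decide +kernel

set_option maxRecDepth 100000 in
theorem chkA_6 : ((List.range 40).all fun m => chkAn (40 * 6 + m)) = true := by decide +kernel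

set_option maxRecDepth 100000 in
theorem chkA_7 : ((List.range 40).all fun m => chkAn (40 * 7 + m)) = true := by decide +kernel

set_option maxRecDepth 100000 in
theorem chkA_8 : ((List.range 40).all fun m => chkAn (40 * 8 + m)) = true := by decide +kernel

set_option maxRecDepth 100000 in
theorem chkA_9 : ((List.range 40).all fun m => chkAn (40 * 9 + m)) = true := by decide +kernel

set_option maxRecDepth 100000 in
theorem chkA_10 : ((List.range 40).all fun m => chkAn (40 * 10 + m)) = true := by decide +kernel

set_option maxRecDepth 100000 in
theorem chkA_11 : ((List.range 40).all fun m => chkAn (40 * 11 + m)) = true := by decide +kernel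

set_option maxRecDepth 100000 in
theorem chkA_12 : ((List.range 40).all fun m => chkAn (40 * 12 + m)) = true := by decide +kernel

set_option maxRecDepth 100000 in
theorem chkA_13 : ((List.range 40).all fun m => chkAn (40 * 13 + m)) = true := by decide +kernel

set_option maxRecDepth 100000 in
theorem chkA_14 : ((List.range 40).all fun m => chkAn (40 * 14 + m)) = true := by decide +kernel

set_option maxRecDepth 100000 in
theorem chkA_15 : ((List.range 40).all fun m => chkAn (40 * 15 + m)) = true := by decide +kernel

set_option maxRecDepth 100000 in
theorem chkA_16 : ((List.range 40).all fun m => chkAn (40 * 16 + m)) = true := by decide +kernel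

set_option maxRecDepth 100000 in
theorem chkA_17 : ((List.range 40).all fun m => chkAn (40 * 17 + m)) = true := by decide +kernel

set_option maxRecDepth 100000 in
theorem chkA_18 : ((List.range 40).all fun m => chkAn (40 * 18 + m)) = true := by decide +kernel

set_option maxRecDepth 100000 in
theorem chkA_19 : ((List.range 40).all fun m => chkAn (40 * 19 + m)) = true := by decide +kernel

set_option maxRecDepth 100000 in
theorem chkA_20 : ((List.range 40).all fun m => chkAn (40 * 20 + m)) = true := by decide +kernel

set_option maxRecDepth 100000 in
theorem chkA_21 : ((List.range 40).all fun m => chkAn (40 * 21 + m)) = true := by decide +kernel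

set_option maxRecDepth 100000 in
theorem chkA_22 : ((List.range 40).all fun m => chkAn (40 * 22 + m)) = true := by decide +kernel

set_option maxRecDepth 100000 in
theorem chkA_23 : ((List.range 40).all fun m => chkAn (40 * 23 + m)) = true := by decide +kernel

set_option maxRecDepth 100000 in
theorem chkA_24 : ((List.range 40).all fun m => chkAn (40 * 24 + m)) = true := by decide +kernel

theorem chkA_all : ((List.range 1000).all fun n => Nat.ble (ix n) 21 &&
    (List.range 17).all fun k => chkA n k) = true :=
  all_blocks 25 40 chkAn fun c hc => by
    interval_cases c
    exacts [chkA_0, chkA_1, chkA_2, chkA_3, chkA_4, chkA_5, chkA_6, chkA_7, chkA_8, chkA_9, chkA_10, chkA_11, chkA_12, chkA_13, chkA_14, chkA_15, chkA_16, chkA_17, chkA_18, chkA_19, chkA_20, chkA_21, chkA_22, chkA_23, chkA_24]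

/-- three signatures fit -/
def fit (a b c : ℕ × ℕ × ℕ) : Bool := !Nat.beq (a.2.2 &&& b.2.1 &&& c.1) 0

/-- three signatures fit in some order -/
def fit6 (a b c : ℕ × ℕ × ℕ) : Bool :=
  fit a b c || fit a c b || fit b a c || fit b c a || fit c a b || fit c b a

set_option maxRecDepth 100000 in
theorem fit_all : ((List.range 22).all fun i => (List.range 22).all fun j =>
    (List.range 22).all fun k => fit6 (mn i) (mn j) (mn k)) = true := by decide +kernel

set_option maxRecDepth 100000 in
theorem mins_lt : ((List.range 22).all fun i => decide ((mn i).1 < 2 ^ 17)) = true := by
  decide +kernel

/-- test for the case of adjacent `a, b` -/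
def tst (x s t : ℕ) (p : ℕ × ℕ) (a b c : ℕ) : Bool :=
  !Nat.beq p.1 x && !Nat.beq p.2 x && fr a p.1 && fr a p.2 && fr b p.1 && fr b p.2 &&
    fr a b && okA x s t p.1 p.2 c && !Nat.beq c a && !Nat.beq c b

/-- solutions, fifteen bits each: position, `a`, `b`, `c` -/
def wN : ℕ :=
  304439878960391480345999916135964493505835605045903141332169284830012704025473114332488029084016591324251286693945854823660842962758873879825489117779635560213659454836526630679531896635576255518370283743431517801469152712840313536898979924388111237524458324859421195003504662266777745790599763580493014629584692751227531318679603273053423210595445427515078923322795848622617009376198107874329334719336802880015226612216400176611566986121838708949326034192583732719928292941099464780288823383791350475969519717872058709473227565567327532816361112962119402225877026748671830072821990684235847926070605586813686134694376443303033861752959408291976698178402048161394395502457993590017835016521887550773808493083996181278226806261861649829159871241029741562021950889421854368655184937186745541107505719246174052227593537615878663998284418679267826696297333251308905666961652463533839324127974480103135945740072724255309523764754935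735303727698846239014848824008823184919489247411535519202745003119654157476279513624106459680046296591008936021476195639710187668613155462330403557388834749132008383226216467047877011353438855744669260017522171827724428010624993265310607409868069675974064398868948921674248812037567040217958300516896597002430576661637913920792602731741479523195952113314908364208766309480469406930050143604453468249371564865565462683397799167268699897551387152682445952989149634487221102807755979089142031560249554068149231548161897204876813501647705141514611945594809983768209901085843245158221845923828291043089774995294663823046929719610411228277625710418718378545685450760353544810187805715893766398128939798429548829169775515043357354117009345719992576118520789815444236756970815968359753925823661215700373031195088607007576219213662030195170890824294483509511844682101459063796234317655574216377613287932330098264036430151560299352125963919581905433070425940449529084351392214686206333099489649513269330499493782908257501259859016336723108071392093111430451491119938640009497716127021470411138797904315909430807019783673462424870923026806506343369659006272697701236212319146396035224595956684946952738370126108647055210540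260418309496232129482234299681602106737006872327695498559824030236324218793389706222689589893405079385349292973444673842969164548005286024515633626773534056418231652382199672041750062415277562439958786738977968222433211835044858039979876826020058892382876860703984183110821766543620900097894361132056726927827689320021486882706504401979226187125090341012824973640728949062030431565809194206207650567398061763796467457714620367293792353939644739191782970638824278812881419900287650691781846078797033202044836450186724263655821611360736146147306761971092455457951856473018114167876482898359412122268138539918000728921781165174958700822726122868581816743266614065861443165363975103435784998230781148973906166962998716108682479067880152039278053549737619065871622702470844779784986184122412340924913018019717452381279722474993144368015689774703017342043153992134180482307060865600471835703252730221613284368845661946828903062167264465732711885381128342376418191786606935427067596308180689295965480173706601469668254946915564130011681101829399938701152703679663357250096023010640708087537924182875211929184824588366292392415083259972539655796061169981235252100975844980427634930049067139464556444612906956266533768320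12751226357031337970535993108995005110393925614579265134501326211378011714037332098424541751665978930187991864750195312346946196660902996328452505649347840294690523109667882012714047266766960489335747018277348050196731387012064616303399281019348082016373372735817480980532822080075254862286005500200730491807697315417341796647173234996523211246097127193620354885915393742117193937601268932333896297916553406139038285880046055212228507550807532987121655727947850171185261441232865410617800770937745368572345235206310420411179751475543309694909086603956391851232605837465334386291375521655354384011983923406455920304724137443654110833965569027078247519460133097353050911788789662124224509865366070910253694710591161613066979143176884316693141362666776501941256767686965389670588772219613058392723493946731703405515417266891971226412892651172906259190527458955245391761953729598691662087785981208477709407034554069922567839067517020818920830063176271799416803636248082868519909636046389944252298345349139462453311719224294921100968291079105111386926973239539586021664866280371161044798870305341570513455359367282184384042065409202588226446970104309831512025293949345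

/-- the solution for `(x, s, t)` -/
def wi (n : ℕ) : ℕ := (wN >>> (15 * n)) % 32768

set_option maxRecDepth 100000 in
theorem tst_all : ((List.range 1000).all fun n => Nat.blt (wi n / 1000) 17 &&
      tst (n / 100) (n / 10 % 10) (n % 10) (pos.getD (wi n / 1000) (0, 1)) (wi n / 100 % 10)
        (wi n / 10 % 10) (wi n % 10)) = true := by decide +kernel

end Helper97.L9
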