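import Pool.Agent.helper19.L9.Seymour
import Mathlib.Combinatorics.SimpleGraph.Connectivity.Connected

/-!
# Existence of K0 states

A vertex `x` is bad for a cut `c` if its neighbourhood is monochromatic; it is of type K0 if in
addition `x` has the colour of its neighbours.  In a connected cubic graph without `K_{2,3}` there
is a cut without bad vertices, or with exactly one bad vertex, of type K0, or with exactly two bad
vertices, adjacent and both of type K0.
-/

namespace Helper97.L9

open Finset Classical

variable {V : Type*} [Fintype V]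

/-- neighbourhood as a finset -/
noncomputable def N (G : SimpleGraph V) (v : V) : Finset V := univ.filter fun b => G.Adj v b

theorem mem_N {G : SimpleGraph V} {v b : V} : b ∈ N G v ↔ G.Adj v b := by simp [N]

/-- the vertices all of whose neighbours lie in `T` -/
noncomputable def F (G : SimpleGraph V) (T : Finset V) : Finset V :=
  univ.filter fun v => N G v ⊆ T

theorem mem_F {G : SimpleGraph V} {T : Finset V} {v : V} :
    v ∈ F G T ↔ ∀ b, G.Adj v b → b ∈ T := by
  simp only [F, Finset.mem_filter, Finset.mem_univ, true_and]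
  exact ⟨fun h b hb => h (mem_N.mpr hb), fun h b hb => h b (mem_N.mp hb)⟩

/-- monochromatic neighbourhood -/
def Bad (G : SimpleGraph V) (c : V → Bool) (v : V) : Prop :=
  ∀ a b, G.Adj v a → G.Adj v b → c a = c b

/-- bad vertex with the colour of its neighbours -/
def K0 (G : SimpleGraph V) (c : V → Bool) (v : V) : Prop :=
  ∀ a, G.Adj v a → c a = c v

omit [Fintype V] in
theorem K0.bad {G : SimpleGraph V} {c : V → Bool} {v : V} (h : K0 G c v) : Bad G c v :=
  fun a b ha hb => (h a ha).trans (h b hb).symm

variable {G : SimpleGraph V}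

/-- double counting -/
theorem sum_in (T : Finset V) :
    ∑ x ∈ T, ((F G T).filter fun v => G.Adj x v).card = ∑ v ∈ F G T, (N G v).card := by
  have h1 : ∑ v ∈ F G T, (T.filter (fun u => G.Adj v u)).card =
      ∑ u ∈ T, ((F G T).filter (fun v => G.Adj v u)).card :=
    Finset.sum_card_bipartiteAbove_eq_sum_card_bipartiteBelow (r := fun v u => G.Adj v u)
  have h2 : ∑ v ∈ F G T, (T.filter (fun u => G.Adj v u)).card = ∑ v ∈ F G T, (N G v).card := by
    refine Finset.sum_congr rfl fun v hv => ?_
    congr 1
    ext u
    rw [Finset.mem_filter, mem_N]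
    exact ⟨fun h => h.2, fun h => ⟨mem_F.mp hv u h, h⟩⟩
  rw [← h2, h1]
  refine Finset.sum_congr rfl fun u _ => ?_
  congr 1
  ext v
  simp only [Finset.mem_filter, G.adj_comm]

theorem filter_sub (T : Finset V) (x : V) : ((F G T).filter fun v => G.Adj x v) ⊆ N G x := by
  intro v hv
  exact mem_N.mpr (Finset.mem_filter.mp hv).2

theorem card_F_le (hreg : ∀ v, (N G v).card = 3) (T : Finset V) : (F G T).card ≤ T.card := by
  have h := sum_in (G := G) T
  rw [Finset.sum_congr rfl fun v _ => hreg v, Finset.sum_const, smul_eq_mul] at h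
  have h2 : ∑ x ∈ T, ((F G T).filter fun v => G.Adj x v).card ≤ ∑ x ∈ T, 3 :=
    Finset.sum_le_sum fun x _ => (Finset.card_le_card (filter_sub T x)).trans (hreg x).le
  rw [Finset.sum_const, smul_eq_mul] at h2
  omega

/-- equality in the count: `T` is closed under walks of length two -/
theorem closed_of_card (hreg : ∀ v, (N G v).card = 3) (T : Finset V)
    (hT : T.card ≤ (F G T).card) : ∀ u ∈ T, ∀ v, G.Adj u v → v ∈ F G T := by
  have h := sum_in (G := G) T
  rw [Finset.sum_congr rfl fun v _ => hreg v, Finset.sum_const, smul_eq_mul] at h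
  have h2 : ∀ x ∈ T, ((F G T).filter fun v => G.Adj x v).card ≤ 3 :=
    fun x _ => (Finset.card_le_card (filter_sub T x)).trans (hreg x).le
  have h3 : ∀ x ∈ T, ((F G T).filter fun v => G.Adj x v).card = 3 := by
    have hle : ∑ u ∈ T, ((F G T).filter fun v => G.Adj u v).card ≤ ∑ u ∈ T, 3 :=
      Finset.sum_le_sum h2
    have hge : ∑ u ∈ T, 3 ≤ ∑ u ∈ T, ((F G T).filter fun v => G.Adj u v).card := by
      rw [h, Finset.sum_const, smul_eq_mul]
      omega
    exact (Finset.sum_eq_sum_iff_of_le h2).mp (le_antisymm hle hge)
  intro u hu v huv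
  have heq : ((F G T).filter fun v => G.Adj u v) = N G u := by
    apply Finset.eq_of_subset_of_card_le (filter_sub T u)
    rw [hreg u, h3 u hu]
  have : v ∈ N G u := mem_N.mpr huv
  rw [← heq] at this
  exact (Finset.mem_filter.mp this).1

/-- no proper set is closed under walks of length two -/
def NonBip (G : SimpleGraph V) : Prop :=
  ∀ T : Finset V, T.Nonempty → (∀ u ∈ T, ∀ v, G.Adj u v → ∀ w, G.Adj v w → w ∈ T) → T = univ

theorem card_F_lt (hreg : ∀ v, (N G v).card = 3) (hnb : NonBip G) {T : Finset V}
    (hne : T.Nonempty) (hT : T ≠ univ) : (F G T).card < T.card := by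
  by_contra hcon
  push Not at hcon
  apply hT
  apply hnb T hne
  intro u hu v huv w hvw
  exact mem_F.mp (closed_of_card hreg T hcon u hu v huv) w hvw

theorem F_mono {T T' : Finset V} (h : T ⊆ T') : F G T ⊆ F G T' := by
  intro v hv
  rw [mem_F] at hv ⊢
  exact fun b hb => h (hv b hb)

theorem F_inter (T T' : Finset V) : F G (T ∩ T') = F G T ∩ F G T' := by
  ext v
  simp only [mem_F, Finset.mem_inter]
  exact ⟨fun h => ⟨fun b hb => (h b hb).1, fun b hb => (h b hb).2⟩,
    fun h b hb => ⟨h.1 b hb, h.2 b hb⟩⟩

/-- nontrivial tight sets -/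
def Tight (G : SimpleGraph V) (T : Finset V) : Prop :=
  T ≠ univ ∧ 2 ≤ T.card ∧ (F G T).card + 1 = T.card

theorem tight_dual (hreg : ∀ v, (N G v).card = 3) (hnb : NonBip G) {T : Finset V}
    (hT : Tight G T) : Tight G (F G T)ᶜ ∧ (F G T)ᶜ.card + T.card = Fintype.card V + 1 := by
  obtain ⟨h1, h2, h3⟩ := hT
  have hsub : Tᶜ ⊆ F G (F G T)ᶜ := by
    intro v hv
    rw [mem_F]
    intro w hvw
    rw [Finset.mem_compl] at hv ⊢
    intro hw
    exact hv (mem_F.mp hw v hvw.symm)
  have hc1 := Finset.card_compl_add_card T
  have hc2 := Finset.card_compl_add_card (F G T)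
  have hlt : T.card < Fintype.card V := by
    rw [← Finset.card_univ]
    exact Finset.card_lt_card (Finset.ssubset_univ_iff.mpr h1)
  have hne : (F G T)ᶜ ≠ univ := by
    intro h
    rw [Finset.compl_eq_univ_iff] at h
    rw [h, Finset.card_empty] at h3
    omega
  have hle := Finset.card_le_card hsub
  have hnon : ((F G T)ᶜ).Nonempty := by
    rw [← Finset.card_pos]; omega
  have hlt2 := card_F_lt hreg hnb hnon hne
  refine ⟨⟨hne, by omega, by omega⟩, by omega⟩

/-- **Key lemma**: an edge `x z` such that no tight set contains `x` while `x`, `z` have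
neighbours outside it. -/
theorem exists_edge (hreg : ∀ v, (N G v).card = 3) (hnb : NonBip G) [Nonempty V]
    (hK : ∀ u v, u ≠ v → N G u ≠ N G v) :
    ∃ x z, G.Adj x z ∧ ∀ T, Tight G T → x ∈ T → x ∉ F G T → z ∉ F G T → False := by
  by_cases hex : ∃ T, Tight G T
  · -- a tight set of minimum cardinality
    obtain ⟨T, hT, hmin⟩ : ∃ T, Tight G T ∧ ∀ T', Tight G T' → T.card ≤ T'.card := by
      obtain ⟨T0, hT0⟩ := hex
      obtain ⟨T, hT, hmin⟩ := Finset.exists_min_image
        ((univ : Finset (Finset V)).filter fun T => Tight G T) Finset.card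
        ⟨T0, by simp [hT0]⟩
      refine ⟨T, (Finset.mem_filter.mp hT).2, fun T' hT' => hmin T' (by simp [hT'])⟩
    obtain ⟨h1, h2, h3⟩ := hT
    -- at least four points
    have h4 : 4 ≤ T.card := by
      by_contra hcon
      have hsub : ∀ v ∈ F G T, N G v ⊆ T := fun v hv b hb => mem_F.mp hv b (mem_N.mp hb)
      rcases (by omega : T.card = 2 ∨ T.card = 3) with h | h
      · obtain ⟨v, hv⟩ : (F G T).Nonempty := by rw [← Finset.card_pos]; omega
        have := Finset.card_le_card (hsub v hv)
        rw [hreg v] at this
        omega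
      · obtain ⟨u, v, hu, hv, huv⟩ : ∃ u v, u ∈ F G T ∧ v ∈ F G T ∧ u ≠ v := by
          have : 1 < (F G T).card := by omega
          obtain ⟨u, hu, v, hv, huv⟩ := Finset.one_lt_card.mp this
          exact ⟨u, v, hu, hv, huv⟩
        have e1 := Finset.eq_of_subset_of_card_le (hsub u hu) (by rw [hreg u]; omega)
        have e2 := Finset.eq_of_subset_of_card_le (hsub v hv) (by rw [hreg v]; omega)
        exact hK u v huv (e1.trans e2.symm)
    -- an interior point
    obtain ⟨x, hxT, hx⟩ : ∃ x ∈ T, N G x ⊆ F G T := by
      by_contra hcon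
      push Not at hcon
      have hle : ∀ x ∈ T, ((F G T).filter fun v => G.Adj x v).card ≤ 2 := by
        intro x hx
        by_contra h
        push Not at h
        apply hcon x hx
        have heq : ((F G T).filter fun v => G.Adj x v) = N G x := by
          apply Finset.eq_of_subset_of_card_le (filter_sub T x)
          rw [hreg x]; omega
        rw [← heq]
        exact Finset.filter_subset _ _
      have hs := sum_in (G := G) T
      rw [Finset.sum_congr rfl fun v _ => hreg v, Finset.sum_const, smul_eq_mul] at hs
      have hs2 := Finset.sum_le_sum hle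
      rw [hs, Finset.sum_const, smul_eq_mul] at hs2
      omega
    obtain ⟨z, hz⟩ : (N G x).Nonempty := by rw [← Finset.card_pos, hreg]; norm_num
    refine ⟨x, z, mem_N.mp hz, ?_⟩
    intro T' hT' hxT' hxF hzF
    obtain ⟨g1, g2, g3⟩ := hT'
    have hS : (T ∩ T').Nonempty := ⟨x, Finset.mem_inter.mpr ⟨hxT, hxT'⟩⟩
    have hSne : T ∩ T' ≠ univ := by
      intro h
      apply g1
      rw [Finset.eq_univ_iff_forall] at h ⊢
      exact fun v => (Finset.mem_inter.mp (h v)).2
    have hSlt := card_F_lt hreg hnb hS hSne
    have hc1 := Finset.card_union_add_card_inter T T'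
    have hc2 := Finset.card_union_add_card_inter (F G T) (F G T')
    rw [← F_inter] at hc2
    have hUsub : F G T ∪ F G T' ⊆ F G (T ∪ T') :=
      Finset.union_subset (F_mono Finset.subset_union_left) (F_mono Finset.subset_union_right)
    have hUle := Finset.card_le_card hUsub
    by_cases hd : (F G (T ∩ T')).card + 1 = (T ∩ T').card
    · by_cases hS2 : 2 ≤ (T ∩ T').card
      · have hle := hmin _ ⟨hSne, hS2, hd⟩
        have heq : T ∩ T' = T := Finset.eq_of_subset_of_card_le Finset.inter_subset_left hle
        have hsub : T ⊆ T' := by rw [← heq]; exact Finset.inter_subset_right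
        exact hzF (F_mono hsub (hx hz))
      · have hS1 : (T ∩ T').card = 1 := by
          have := Finset.card_pos.mpr hS
          omega
        have hF0 : F G T ∩ F G T' = ∅ := by
          rw [← F_inter, ← Finset.card_eq_zero]; omega
        have hsub : F G T' ⊆ F G (T'.erase x) := by
          intro v hv
          rw [mem_F]
          intro b hb
          rw [Finset.mem_erase]
          refine ⟨?_, mem_F.mp hv b hb⟩
          rintro rfl
          have : v ∈ F G T ∩ F G T' :=
            Finset.mem_inter.mpr ⟨hx (mem_N.mpr hb.symm), hv⟩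
          rw [hF0] at this
          exact absurd this (Finset.notMem_empty _)
        have hce := Finset.card_erase_of_mem hxT'
        have hne : (T'.erase x).Nonempty := by rw [← Finset.card_pos]; omega
        have hne2 : T'.erase x ≠ univ := by
          intro h
          have := Finset.mem_univ x
          rw [← h] at this
          exact Finset.notMem_erase x T' this
        have := card_F_lt hreg hnb hne hne2
        have := Finset.card_le_card hsub
        omega
    · have hU : T ∪ T' = univ := by
        by_contra hne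
        have := card_F_lt hreg hnb (hS.mono
          (Finset.inter_subset_left.trans Finset.subset_union_left)) hne
        omega
      obtain ⟨hdual, hdc⟩ := tight_dual hreg hnb ⟨g1, g2, g3⟩
      have hle := hmin _ hdual
      have hcu : (T ∪ T').card = Fintype.card V := by rw [hU, Finset.card_univ]
      omega
  · push Not at hex
    obtain ⟨x⟩ := (inferInstance : Nonempty V)
    obtain ⟨z, hz⟩ : (N G x).Nonempty := by rw [← Finset.card_pos, hreg]; norm_num
    exact ⟨x, z, mem_N.mp hz, fun T hT _ _ _ => hex T hT⟩

/-- the conclusion of the existence lemma -/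
def Outcome (G : SimpleGraph V) : Prop :=
  (∃ c : V → Bool, ∀ v, ¬ Bad G c v) ∨
  (∃ (c : V → Bool) (x : V), K0 G c x ∧ ∀ v, v ≠ x → ¬ Bad G c v) ∨
  (∃ (c : V → Bool) (x z : V), G.Adj x z ∧ K0 G c x ∧ K0 G c z ∧
    ∀ v, v ≠ x → v ≠ z → ¬ Bad G c v)

theorem outcome_nonbip (hreg : ∀ v, (N G v).card = 3) (hnb : NonBip G) [Nonempty V]
    (hK : ∀ u v, u ≠ v → N G u ≠ N G v) : Outcome G := by
  obtain ⟨x, z, hxz, hno⟩ := exists_edge hreg hnb hK
  have hNx : ∀ v, ((N G v).erase x).Nonempty := by
    intro v
    rw [← Finset.card_pos]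
    have := Finset.pred_card_le_card_erase (s := N G v) (a := x)
    rw [hreg v] at this
    omega
  obtain ⟨c, hc⟩ := Helper19.L9.two_colour (fun v => (N G v).erase x)
    (univ \ {x, z}) (fun v _ => hNx v) _ (univ.erase x) le_rfl (by
      intro Z hZ hne
      by_contra hcon
      push Not at hcon
      have hxZ : x ∉ Z := fun h => Finset.notMem_erase x univ (hZ h)
      set T := insert x Z with hTdef
      have hTc : T.card = Z.card + 1 := Finset.card_insert_of_notMem hxZ
      have hsub : (univ \ {x, z}).filter (fun v => (N G v).erase x ⊆ Z) ⊆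
          F G T \ {x, z} := by
        intro v hv
        rw [Finset.mem_filter, Finset.mem_sdiff] at hv
        rw [Finset.mem_sdiff]
        refine ⟨mem_F.mpr fun b hb => ?_, hv.1.2⟩
        by_cases hbx : b = x
        · rw [hbx]; exact Finset.mem_insert_self _ _
        · exact Finset.mem_insert_of_mem
            (hv.2 (Finset.mem_erase.mpr ⟨hbx, mem_N.mpr hb⟩))
      have hle := hcon.trans (Finset.card_le_card hsub)
      have hZpos := Finset.card_pos.mpr hne
      by_cases hTu : T = univ
      · have h1 : (F G T \ {x, z}).card ≤ (univ \ {x, z} : Finset V).card :=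
          Finset.card_le_card (Finset.sdiff_subset_sdiff (Finset.subset_univ _) le_rfl)
        have h2 : (univ \ {x, z} : Finset V).card = Fintype.card V - 2 := by
          rw [Finset.card_univ_sdiff, Finset.card_pair hxz.ne]
        have h3 : T.card = Fintype.card V := by rw [hTu, Finset.card_univ]
        omega
      · have h1 : (F G T).card < T.card :=
          card_F_lt hreg hnb ⟨x, Finset.mem_insert_self x Z⟩ hTu
        have h2 : (F G T \ {x, z}).card ≤ (F G T).card :=
          Finset.card_le_card Finset.sdiff_subset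
        have h3 : F G T \ {x, z} = F G T :=
          Finset.eq_of_subset_of_card_le Finset.sdiff_subset (by omega)
        refine hno T ⟨hTu, by omega, by omega⟩ (Finset.mem_insert_self x Z) ?_ ?_
        · intro h
          rw [← h3] at h
          simp at h
        · intro h
          rw [← h3] at h
          simp at h)
  have hc' : ∀ v, v ≠ x → v ≠ z → ∃ a b, G.Adj v a ∧ G.Adj v b ∧ a ≠ x ∧ b ≠ x ∧ c a ≠ c b := by
    intro v h1 h2
    obtain ⟨a, ha, b, hb, hab⟩ := hc v (by simp [h1, h2])
      (Finset.erase_subset_erase x (Finset.subset_univ _))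
    rw [Finset.mem_erase, mem_N] at ha hb
    exact ⟨a, b, ha.2, hb.2, ha.1, hb.1, hab⟩
  have hgood : ∀ (β : Bool) v, v ≠ x → v ≠ z → ¬ Bad G (Function.update c x β) v := by
    intro β v h1 h2 hbad
    obtain ⟨a, b, ha, hb, hax, hbx, hab⟩ := hc' v h1 h2
    have := hbad a b ha hb
    rw [Function.update_of_ne hax, Function.update_of_ne hbx] at this
    exact hab this
  by_cases hx : ∃ a b, G.Adj x a ∧ G.Adj x b ∧ c a ≠ c b
  · -- no bad vertex
    obtain ⟨a, b, ha, hb, hab⟩ := hx
    obtain ⟨p, hp⟩ := hNx z
    rw [Finset.mem_erase, mem_N] at hp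
    refine Or.inl ⟨Function.update c x (!c p), fun v => ?_⟩
    by_cases hvx : v = x
    · subst hvx
      intro hbad
      have := hbad a b ha hb
      rw [Function.update_of_ne ha.ne', Function.update_of_ne hb.ne'] at this
      exact hab this
    · by_cases hvz : v = z
      · subst hvz
        intro hbad
        have := hbad p x hp.2 hxz.symm
        rw [Function.update_of_ne hp.1, Function.update_self] at this
        revert this
        cases c p <;> simp
      · exact hgood _ v hvx hvz
  · push Not at hx
    -- `x` is of type K0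
    have hK0x : K0 G (Function.update c x (c z)) x := by
      intro a ha
      rw [Function.update_self, Function.update_of_ne ha.ne']
      exact hx a z ha hxz
    by_cases hzb : Bad G (Function.update c x (c z)) z
    · refine Or.inr (Or.inr ⟨_, x, z, hxz, hK0x, ?_, hgood _⟩)
      intro a ha
      rw [hzb a x ha hxz.symm, Function.update_self, Function.update_of_ne hxz.ne']
    · refine Or.inr (Or.inl ⟨_, x, hK0x, fun v hvx => ?_⟩)
      by_cases hvz : v = z
      · rw [hvz]; exact hzb
      · exact hgood _ v hvx hvz

theorem outcome_bip (hreg : ∀ v, (N G v).card = 3) (hconn : G.Connected)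
    (hb : ¬ NonBip G) : Outcome G := by
  unfold NonBip at hb
  push Not at hb
  obtain ⟨P, hPne, hPcl, hPu⟩ := hb
  have reach : ∀ S : Finset V, S.Nonempty → (∀ u ∈ S, ∀ v, G.Adj u v → v ∈ S) → S = univ := by
    intro S ⟨s, hs⟩ hcl
    rw [Finset.eq_univ_iff_forall]
    intro v
    obtain ⟨p⟩ := hconn.preconnected s v
    have : ∀ a b, G.Walk a b → a ∈ S → b ∈ S := by
      intro a b p
      induction p with
      | nil => exact id
      | cons h _ ih => exact fun ha => ih (hcl _ ha _ h)
    exact this s v p hs
  -- the bipartition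
  have hdisj : ∀ u ∈ P, ∀ v, G.Adj u v → v ∉ P := by
    intro u hu v huv hv
    apply hPu
    have h1 := reach (P.filter fun w => ∃ t ∈ P, G.Adj t w)
      ⟨v, Finset.mem_filter.mpr ⟨hv, u, hu, huv⟩⟩ (by
        intro a ha b hab
        rw [Finset.mem_filter] at ha ⊢
        obtain ⟨ha1, t, ht, hta⟩ := ha
        exact ⟨hPcl t ht a hta b hab, a, ha1, hab⟩)
    rw [Finset.eq_univ_iff_forall] at h1 ⊢
    exact fun w => (Finset.mem_filter.mp (h1 w)).1
  have hcov : ∀ v, v ∉ P → ∀ w, G.Adj v w → w ∈ P := by
    have h1 := reach (univ.filter fun w => w ∈ P ∨ ∃ t ∈ P, G.Adj t w)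
      (by obtain ⟨p, hp⟩ := hPne; exact ⟨p, by simp [hp]⟩) (by
        intro a ha b hab
        simp only [Finset.mem_filter, Finset.mem_univ, true_and] at ha ⊢
        rcases ha with ha | ⟨t, ht, hta⟩
        · exact Or.inr ⟨a, ha, hab⟩
        · exact Or.inl (hPcl t ht a hta b hab))
    intro v hv w hvw
    have h2 := Finset.eq_univ_iff_forall.mp h1 v
    simp only [Finset.mem_filter, Finset.mem_univ, true_and] at h2
    rcases h2 with h2 | ⟨t, ht, htv⟩
    · exact absurd h2 hv
    · exact hPcl t ht v htv w hvw
  obtain ⟨x, hxP⟩ := hPne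
  obtain ⟨z, hz⟩ : (N G x).Nonempty := by rw [← Finset.card_pos, hreg]; norm_num
  rw [mem_N] at hz
  have hzP : z ∉ P := hdisj x hxP z hz
  have hreg' : ∀ v, G.degree v = 3 := by
    intro v
    rw [← hreg v, ← SimpleGraph.card_neighborFinset_eq_degree]
    congr 1
    ext b
    rw [SimpleGraph.mem_neighborFinset, mem_N]
  obtain ⟨c, hc⟩ := Helper19.L9.exists_cut G hreg' {x, z} (by
    intro u
    obtain ⟨p⟩ := hconn.preconnected u x
    rcases Nat.even_or_odd p.length with h | h
    · refine ⟨z, by simp, p.concat hz, ?_⟩
      rw [SimpleGraph.Walk.length_concat]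
      exact h.add_one
    · exact ⟨x, by simp, p, h⟩)
  -- complement on `P`
  have hflip : ∀ (β : Bool) v, Bad G (fun u => if u ∈ P then xor (c u) β else c u) v ↔
      Bad G c v := by
    intro β v
    by_cases hv : v ∈ P
    · constructor
      · intro h a b ha hb
        have := h a b ha hb
        simpa [hdisj v hv a ha, hdisj v hv b hb] using this
      · intro h a b ha hb
        have := h a b ha hb
        simpa [hdisj v hv a ha, hdisj v hv b hb] using this
    · constructor
      · intro h a b ha hb
        have := h a b ha hb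
        simpa [hcov v hv a ha, hcov v hv b hb] using this
      · intro h a b ha hb
        have := h a b ha hb
        simpa [hcov v hv a ha, hcov v hv b hb] using this
  have hgood : ∀ v, v ≠ x → v ≠ z → ¬ Bad G c v := by
    intro v h1 h2 hbad
    obtain ⟨a, b, ha, hb, hab⟩ := hc v (by simp [h1, h2])
    exact hab (hbad a b ha hb)
  by_cases hxb : Bad G c x
  · set β := xor (c x) (c z) with hβ
    have hK0x : K0 G (fun u => if u ∈ P then xor (c u) β else c u) x := by
      intro a ha
      have h1 := hxb a z ha hz
      simp only [hdisj x hxP a ha, hxP, if_true, if_false, h1, hβ]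
      cases c x <;> cases c z <;> rfl
    by_cases hzb : Bad G c z
    · refine Or.inr (Or.inr ⟨_, x, z, hz, hK0x, ?_, fun v h1 h2 => ?_⟩)
      · intro a ha
        have h1 := hzb a x ha hz.symm
        simp only [hcov z hzP a ha, hzP, if_true, if_false, h1, hβ]
        cases c x <;> cases c z <;> rfl
      · rw [hflip]; exact hgood v h1 h2
    · refine Or.inr (Or.inl ⟨_, x, hK0x, fun v h1 => ?_⟩)
      rw [hflip]
      by_cases h2 : v = z
      · rw [h2]; exact hzb
      · exact hgood v h1 h2
  · by_cases hzb : Bad G c z
    · set β := xor (c x) (c z) with hβ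
      refine Or.inr (Or.inl ⟨fun u => if u ∈ P then xor (c u) β else c u, z, ?_,
        fun v h1 => ?_⟩)
      · intro a ha
        have h1 := hzb a x ha hz.symm
        simp only [hcov z hzP a ha, hzP, if_true, if_false, h1, hβ]
        cases c x <;> cases c z <;> rfl
      · rw [hflip]
        by_cases h2 : v = x
        · rw [h2]; exact hxb
        · exact hgood v h2 h1
    · refine Or.inl ⟨c, fun v => ?_⟩
      by_cases h1 : v = x
      · rw [h1]; exact hxb
      · by_cases h2 : v = z
        · rw [h2]; exact hzb
        · exact hgood v h1 h2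

/-- **Existence of K0 states** in connected cubic graphs without `K_{2,3}`. -/
theorem exists_K0 (hreg : ∀ v, (univ.filter fun b => G.Adj v b).card = 3) (hconn : G.Connected)
    (hK : ∀ u v, u ≠ v → ∃ w, ¬ (G.Adj u w ↔ G.Adj v w)) : Outcome G := by
  have hreg' : ∀ v, (N G v).card = 3 := hreg
  have : Nonempty V := hconn.nonempty
  by_cases hb : NonBip G
  · refine outcome_nonbip hreg' hb fun u v huv h => ?_
    obtain ⟨w, hw⟩ := hK u v huv
    apply hw
    rw [← mem_N, ← mem_N, h]
  · exact outcome_bip hreg' hconn hb

end Helper97.L9
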