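import Pool.Agent.helper33.L9.E13
import Pool.Agent.helper97.L9.KZero

/-!
# Maximal states

`KV G X x`: all neighbours of `x` are on the side of `x`.  `PS G X x z`: all vertices except `x`, `z`
have `NM`, and `KV` at `x`, `z` (`x = z` is allowed).  `St R G X x z`: no cut has `NoMono`; if
`x ≠ z` then no cut has only one bad vertex with `KV`; the size of the cut is maximal among all
states with roots in relation `R`.
-/

set_option linter.unusedSimpArgs false
set_option linter.unusedSectionVars false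
set_option linter.unusedTactic false

namespace Helper97.L9

open Finset Classical Helper42.L9 Helper33.Off

variable {V : Type*} [Fintype V] {G : SimpleGraph V} {X : V → Prop}

/-- all neighbours are on the side of `x` -/
def KV (G : SimpleGraph V) (X : V → Prop) (x : V) : Prop := ∀ a, G.Adj x a → (X a ↔ X x)

/-- the bad vertices are among `x`, `z`, and `KV` at both -/
structure PS (G : SimpleGraph V) (X : V → Prop) (x z : V) : Prop where
  nm : ∀ w, w ≠ x → w ≠ z → NM G X w
  kx : KV G X x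
  kz : KV G X z

/-- a maximal state -/
structure St (R : V → V → Prop) (G : SimpleGraph V) (X : V → Prop) (x z : V) : Prop where
  ps : PS G X x z
  rel : R x z
  forced : ∀ Y, ¬ NoMono G Y
  one : x ≠ z → ∀ Y y, ¬ PS G Y y y
  max : ∀ Y y t, R y t → PS G Y y t → ksize G Y ≤ ksize G X

theorem exists_max (P : (V → Prop) → Prop) (h : ∃ X, P X) :
    ∃ X, P X ∧ ∀ Y, P Y → ksize G Y ≤ ksize G X := by
  obtain ⟨X, h1, h2⟩ := Set.exists_max_image {X | P X} (ksize G) (Set.toFinite _) h
  exact ⟨X, h1, h2⟩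

theorem PS.symm {x z : V} (h : PS G X x z) : PS G X z x :=
  ⟨fun w h1 h2 => h.nm w h2 h1, h.kz, h.kx⟩

section cubic

variable (hcub : ∀ v, (univ.filter fun b => G.Adj v b).card = 3)

include hcub in
/-- three neighbours are all neighbours -/
theorem row3 {x a b c w : V} (ha : G.Adj x a) (hb : G.Adj x b) (hc : G.Adj x c)
    (hab : a ≠ b) (hac : a ≠ c) (hbc : b ≠ c) (hw : G.Adj x w) : w = a ∨ w = b ∨ w = c := by
  by_contra hcon
  push Not at hcon
  exact no_four (fun v => (hcub v).le) ha hb hc hw hab hac hcon.1.symm hbc hcon.2.1.symm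
    hcon.2.2.symm

include hcub in
/-- the other two neighbours -/
theorem row_split {x a : V} (ha : G.Adj x a) :
    ∃ b c, G.Adj x b ∧ G.Adj x c ∧ a ≠ b ∧ a ≠ c ∧ b ≠ c := by
  have h : ((univ.filter fun b => G.Adj x b).erase a).card = 2 := by
    rw [Finset.card_erase_of_mem (by simp [ha]), hcub x]
  obtain ⟨b, c, hbc, he⟩ := Finset.card_eq_two.mp h
  have hb : b ∈ (univ.filter fun b => G.Adj x b).erase a := by rw [he]; simp
  have hc : c ∈ (univ.filter fun b => G.Adj x b).erase a := by rw [he]; simp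
  rw [Finset.mem_erase, Finset.mem_filter] at hb hc
  exact ⟨b, c, hb.2.2, hc.2.2, hb.1.symm, hc.1.symm, hbc⟩

include hcub in
/-- the third neighbour -/
theorem row_third {x a b : V} (ha : G.Adj x a) (hb : G.Adj x b) (hab : a ≠ b) :
    ∃ c, G.Adj x c ∧ a ≠ c ∧ b ≠ c := by
  obtain ⟨u, v, hu, hv, hau, hav, huv⟩ := row_split hcub ha
  by_cases h : b = u
  · exact ⟨v, hv, hav, by rw [h]; exact huv⟩
  · exact ⟨u, hu, hau, h⟩

include hcub in
/-- a bad vertex with `KV` is repaired by the flip of one neighbour -/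
theorem repaired {Y : V → Prop} {x c : V} (hK : KV G X x) (hxc : G.Adj x c)
    (h1 : ¬ (Y c ↔ X c)) (h2 : ∀ b, G.Adj x b → b ≠ c → (Y b ↔ X b)) : NM G Y x := by
  intro a b d ha hb hd hab had hbd ⟨e1, e2⟩
  have ka := hK a ha
  have kb := hK b hb
  have kd := hK d hd
  rcases row3 hcub ha hb hd hab had hbd hxc with h | h | h
  · subst h
    have := h2 b hb hab.symm
    tauto
  · subst h
    have := h2 a ha hab
    tauto
  · subst h
    have := h2 a ha had
    tauto

include hcub in
theorem flip_nm {v w : V} (hw : NM G X w) (hv : G.Adj w v → w ∈ pt G X v) :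
    NM G (flip X v) w := by
  have hdeg : ∀ v, (univ.filter fun b => G.Adj v b).card ≤ 3 := fun v => (hcub v).le
  have key : ∀ b c, G.Adj w v → G.Adj w b → G.Adj w c → v ≠ b → v ≠ c → b ≠ c →
      ¬ ((¬ X v ↔ X b) ∧ (¬ X v ↔ X c)) := by
    rintro b c h1 h2 h3 hb hc hbc ⟨e1, e2⟩
    obtain ⟨_, u, hu, hwu, hs⟩ := mem_pt.mp (hv h1)
    have hub : u ≠ b := by rintro rfl; tauto
    have huc : u ≠ c := by rintro rfl; tauto
    exact no_four hdeg h1 hwu h2 h3 hu.symm hb hc hub huc hbc
  intro a b c ha hb hc hab hac hbc hh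
  by_cases e1 : a = v
  · subst e1
    have f1 := flip_self (X := X) a
    have f2 := flip_ne (X := X) (v := a) hab.symm
    have f3 := flip_ne (X := X) (v := a) hac.symm
    exact key b c ha hb hc hab hac hbc (by tauto)
  · by_cases e2 : b = v
    · subst e2
      have f1 := flip_self (X := X) b
      have f2 := flip_ne (X := X) (v := b) hab
      have f3 := flip_ne (X := X) (v := b) hbc.symm
      exact key a c hb ha hc hab.symm hbc hac (by tauto)
    · by_cases e3 : c = v
      · subst e3
        have f1 := flip_self (X := X) c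
        have f2 := flip_ne (X := X) (v := c) hac
        have f3 := flip_ne (X := X) (v := c) hbc
        exact key a b hc ha hb hac.symm hbc.symm hab (by tauto)
      · have f1 := flip_ne (X := X) (v := v) e1
        have f2 := flip_ne (X := X) (v := v) e2
        have f3 := flip_ne (X := X) (v := v) e3
        exact hw a b c ha hb hc hab hac hbc (by tauto)

include hcub in
/-- a vertex without `NM` has all neighbours on one side -/
theorem mono_of_not {Y : V → Prop} {w a b : V} (h : ¬ NM G Y w) (ha : G.Adj w a)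
    (hb : G.Adj w b) : Y a ↔ Y b := by
  unfold NM at h
  push Not at h
  obtain ⟨c, d, e, hc, hd, he, hcd, hce, hde, h1, h2⟩ := h
  have h3 : Y a ↔ Y c := by
    rcases row3 hcub hc hd he hcd hce hde ha with rfl | rfl | rfl
    · exact Iff.rfl
    · exact h1.symm
    · exact h2.symm
  have h4 : Y b ↔ Y c := by
    rcases row3 hcub hc hd he hcd hce hde hb with rfl | rfl | rfl
    · exact Iff.rfl
    · exact h1.symm
    · exact h2.symm
  exact h3.trans h4.symm

/-! ## the selection -/

include hcub in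
theorem nm_of_bool {c : V → Bool} {v : V} (h : ¬ Bad G c v) : NM G (fun u => c u = true) v := by
  intro a b d ha hb hd hab had hbd ⟨e1, e2⟩
  apply h
  have hall : ∀ w, G.Adj v w → c w = c a := by
    intro w hw
    rcases row3 hcub ha hb hd hab had hbd hw with rfl | rfl | rfl
    · rfl
    · exact (Bool.eq_iff_iff.mpr e1).symm
    · exact (Bool.eq_iff_iff.mpr e2).symm
  intro u w hu hw
  rw [hall u hu, hall w hw]

theorem kv_of_bool {c : V → Bool} {v : V} (h : K0 G c v) : KV G (fun u => c u = true) v := by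
  intro a ha
  have := h a ha
  simp only [this]

/-- **Selection.**  `R` is a relation which contains adjacency and is contained in `≠`. -/
theorem exists_state {R : V → V → Prop} (hR : ∀ x z, G.Adj x z → R x z) (hR' : ∀ x z, R x z → x ≠ z)
    (hcub : ∀ v, (univ.filter fun b => G.Adj v b).card = 3) (hconn : G.Connected)
    (hK : ∀ u v, u ≠ v → ∃ w, ¬ (G.Adj u w ↔ G.Adj v w)) :
    (∃ X, NoMono G X) ∨ (∃ X x, St (fun a b => a = b) G X x x) ∨
      (∃ X x z, x ≠ z ∧ St R G X x z) := by
  by_cases h0 : ∃ X, NoMono G X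
  · exact Or.inl h0
  right
  push Not at h0
  by_cases h1 : ∃ X, ∃ x, PS G X x x
  · left
    obtain ⟨X, ⟨x, hx⟩, hmax⟩ := exists_max (G := G) (fun X => ∃ x, PS G X x x) h1
    refine ⟨X, x, hx, rfl, h0, fun h => absurd rfl h, fun Y y t hyt hY => ?_⟩
    subst hyt
    exact hmax Y ⟨y, hY⟩
  right
  have h2 : ∃ X, ∃ x z, R x z ∧ PS G X x z := by
    rcases exists_K0 hcub hconn hK with ⟨c, hc⟩ | ⟨c, x, hx, hc⟩ | ⟨c, x, z, hxz, hx, hz, hc⟩
    · exact absurd (fun w => nm_of_bool hcub (hc w)) (h0 fun u => c u = true)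
    · exact absurd ⟨_, x, fun w hw _ => nm_of_bool hcub (hc w hw), kv_of_bool hx, kv_of_bool hx⟩ h1
    · exact ⟨_, x, z, hR x z hxz, fun w h3 h4 => nm_of_bool hcub (hc w h3 h4), kv_of_bool hx,
        kv_of_bool hz⟩
  obtain ⟨X, ⟨x, z, hxz, hx⟩, hmax⟩ := exists_max (G := G)
    (fun X => ∃ x z, R x z ∧ PS G X x z) h2
  refine ⟨X, x, z, hR' x z hxz, hx, hxz, h0, fun _ Y y hY => h1 ⟨Y, y, hY⟩, fun Y y t hyt hY => ?_⟩
  exact hmax Y ⟨y, t, hyt, hY⟩

/-! ## consequences -/

variable {R : V → V → Prop} {x z : V}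

theorem St.fr (h : St R G X x z) {v : V} (h1 : v ≠ x) (h2 : v ≠ z) (h3 : ¬ G.Adj v x)
    (h4 : ¬ G.Adj v z) : Fr G X v :=
  ⟨h.ps.nm v h1 h2, fun w hw => h.ps.nm w (fun e => h3 (e ▸ hw)) (fun e => h4 (e ▸ hw))⟩

include hcub in
/-- **General repair principle.** -/
theorem St.no_repair (h : St R G X x z) {r c : V} (hr : r = x ∨ r = z) (hrc : G.Adj r c)
    (hcx : c ≠ x) (hcz : c ≠ z) {Y : V → Prop} (hYc : ¬ (Y c ↔ X c))
    (hY : ∀ v, (v = x ∨ v = z ∨ G.Adj x v ∨ G.Adj z v) → v ≠ c → (Y v ↔ X v)) :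
    ∃ w, w ≠ x ∧ w ≠ z ∧ ¬ NM G Y w := by
  by_contra hcon
  push Not at hcon
  have hrep : ∀ r', (r' = x ∨ r' = z) → G.Adj r' c → NM G Y r' := by
    intro r' hr' hrc'
    refine repaired hcub (X := X) ?_ hrc' hYc fun b hb hbc => hY b ?_ hbc
    · rcases hr' with rfl | rfl
      · exact h.ps.kx
      · exact h.ps.kz
    · rcases hr' with rfl | rfl
      · exact Or.inr (Or.inr (Or.inl hb))
      · exact Or.inr (Or.inr (Or.inr hb))
  have hkv : ∀ r', (r' = x ∨ r' = z) → ¬ G.Adj r' c → KV G Y r' := by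
    intro r' hr' hrc' b hb
    have h1 : Y b ↔ X b := by
      refine hY b ?_ (fun e => hrc' (e ▸ hb))
      rcases hr' with rfl | rfl
      · exact Or.inr (Or.inr (Or.inl hb))
      · exact Or.inr (Or.inr (Or.inr hb))
    have h2 : Y r' ↔ X r' := by
      refine hY r' ?_ ?_
      · rcases hr' with rfl | rfl
        · exact Or.inl rfl
        · exact Or.inr (Or.inl rfl)
      · rcases hr' with rfl | rfl
        · exact hcx.symm
        · exact hcz.symm
    have h3 : X b ↔ X r' := by
      rcases hr' with rfl | rfl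
      · exact h.ps.kx b hb
      · exact h.ps.kz b hb
    exact h1.trans (h3.trans h2.symm)
  by_cases hxc : G.Adj x c
  · by_cases hzc : G.Adj z c
    · refine h.forced Y fun w => ?_
      by_cases hwx : w = x
      · subst hwx; exact hrep w (Or.inl rfl) hxc
      · by_cases hwz : w = z
        · subst hwz; exact hrep w (Or.inr rfl) hzc
        · exact hcon w hwx hwz
    · have hne : x ≠ z := fun e => hzc (e ▸ hxc)
      have hz := hkv z (Or.inr rfl) hzc
      refine h.one hne Y z ⟨fun w hw _ => ?_, hz, hz⟩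
      by_cases hwx : w = x
      · subst hwx; exact hrep w (Or.inl rfl) hxc
      · exact hcon w hwx hw
  · have hzc : G.Adj z c := by
      rcases hr with rfl | rfl
      · exact absurd hrc hxc
      · exact hrc
    have hne : x ≠ z := fun e => hxc (e ▸ hzc)
    have hx := hkv x (Or.inl rfl) hxc
    refine h.one hne Y x ⟨fun w hw _ => ?_, hx, hx⟩
    by_cases hwz : w = z
    · subst hwz; exact hrep w (Or.inr rfl) hzc
    · exact hcon w hw hwz

include hcub in
theorem St.no_repairF (h : St R G X x z) {r c : V} (hr : r = x ∨ r = z) (hrc : G.Adj r c)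
    (hcx : c ≠ x) (hcz : c ≠ z) {F : V → Prop} (hFc : F c)
    (hF : ∀ v, F v → v = c ∨ (v ≠ x ∧ v ≠ z ∧ ¬ G.Adj x v ∧ ¬ G.Adj z v)) :
    ∃ w, w ≠ x ∧ w ≠ z ∧ ¬ NM G (flipS X F) w := by
  refine h.no_repair hcub hr hrc hcx hcz ?_ ?_
  · rw [flipS_pos hFc]
    tauto
  · intro v hv hvc
    refine flipS_neg fun hFv => ?_
    rcases hF v hFv with h1 | ⟨h1, h2, h3, h4⟩
    · exact hvc h1
    · tauto

include hcub in
/-- the repair principle of helper33 (all positions of the roots) -/
theorem St.rep (h : St R G X x z) {r c : V} (hr : r = x ∨ r = z)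
    (hrc : G.Adj r c) (hcx : c ≠ x) (hcz : c ≠ z) :
    Rep G X (fun w => w = x ∨ w = z) r c := by
  intro F hFc hF
  obtain ⟨w, h1, h2, h3⟩ := h.no_repairF hcub hr hrc hcx hcz hFc (fun v hv => by
    rcases hF v hv with h4 | ⟨_, h4, h5⟩
    · exact Or.inl h4
    · exact Or.inr ⟨fun e => h4 (Or.inl e), fun e => h4 (Or.inr e), h5 x (Or.inl rfl),
        h5 z (Or.inr rfl)⟩)
  exact ⟨w, by tauto, h3⟩

/-- adjacent roots are on one side -/
theorem St.same (h : St R G X x z) (hxz : G.Adj x z) : X x ↔ X z := (h.ps.kx z hxz).symm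

include hcub in
/-- no leg can be flipped -/
theorem St.noflip (h : St R G X x z) {r c : V} (hr : r = x ∨ r = z) (hrc : G.Adj r c)
    (hcx : c ≠ x) (hcz : c ≠ z) :
    ∃ w, w ≠ x ∧ w ≠ z ∧ G.Adj c w ∧ w ∉ pt G X c := by
  obtain ⟨w, h1, h2, h3⟩ := h.no_repair hcub hr hrc hcx hcz (Y := flip X c)
    (by rw [flip_self]; tauto) (fun v _ hv => flip_ne hv)
  refine ⟨w, h1, h2, ?_⟩
  by_contra hcon
  push Not at hcon
  exact h3 (flip_nm hcub (h.ps.nm w h1 h2) fun hw => hcon hw.symm)

include hcub in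
/-- the star property holds at all vertices which are not roots -/
theorem St.star (h : St R G X x z) {v : V} (hvx : v ≠ x) (hvz : v ≠ z) :
    Helper33.L9.StarAt G X v := by
  intro hpt
  by_cases h1 : G.Adj x v
  · obtain ⟨w, _, _, h4, h5⟩ := h.noflip hcub (Or.inl rfl) h1 hvx hvz
    exact absurd (hpt w h4) h5
  by_cases h2 : G.Adj z v
  · obtain ⟨w, _, _, h4, h5⟩ := h.noflip hcub (Or.inr rfl) h2 hvx hvz
    exact absurd (hpt w h4) h5
  have hk : ∀ r, r ≠ v → ¬ G.Adj r v → KV G X r → KV G (flip X v) r := by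
    intro r hr hrv hK b hb
    rw [flip_ne hr, flip_ne (fun e => hrv (e ▸ hb) : b ≠ v)]
    exact hK b hb
  have hps : PS G (flip X v) x z :=
    ⟨fun w hwx hwz => flip_nm hcub (h.ps.nm w hwx hwz) fun hw => hpt w hw.symm,
      hk x hvx.symm h1 h.ps.kx, hk z hvz.symm h2 h.ps.kz⟩
  have h3 := h.max _ _ _ h.rel hps
  have h4 := ksize_flip (G := G) (X := X) v
  omega

include hcub in
/-- the cross neighbour of a long leg -/
theorem leg_third {r a a' : V} (ha : NM G X a) (hra : G.Adj r a) (hk : X a ↔ X r)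
    (haa : G.Adj a a') (hs : X a' ↔ X a) (hne : r ≠ a') :
    ∃ y, G.Adj a y ∧ r ≠ y ∧ a' ≠ y ∧ ¬ (X y ↔ X a) := by
  obtain ⟨y, h1, h2, h3⟩ := row_third hcub hra.symm haa hne
  refine ⟨y, h1, h2, h3, fun h => ?_⟩
  exact ha r a' y hra.symm haa h1 hne h2 h3 ⟨hk.symm.trans hs.symm, hk.symm.trans h.symm⟩

include hcub in
/-- two roots have no common leg -/
theorem St.leg_disj (h : St R G X x z) (hxz : x ≠ z) {a : V} (h1 : G.Adj x a) (h2 : G.Adj z a) :
    False := by
  have hax : a ≠ x := h1.ne'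
  have haz : a ≠ z := h2.ne'
  have hna := h.ps.nm a hax haz
  obtain ⟨y, h3, h4, h5, h6⟩ := leg_third hcub hna h1 (h.ps.kx a h1) h2.symm
    (h.ps.kz a h2).symm hxz
  -- `a` is flipped
  have hnx : NM G (flip X a) x := repaired hcub h.ps.kx h1 (by rw [flip_self]; tauto)
    fun b _ hb => flip_ne hb
  have hnz : NM G (flip X a) z := repaired hcub h.ps.kz h2 (by rw [flip_self]; tauto)
    fun b _ hb => flip_ne hb
  have hoth : ∀ w, w ≠ y → NM G (flip X a) w := by
    intro w hwy
    by_cases hwx : w = x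
    · rw [hwx]; exact hnx
    by_cases hwz : w = z
    · rw [hwz]; exact hnz
    refine flip_nm hcub (h.ps.nm w hwx hwz) fun hw => ?_
    rcases row3 hcub h1.symm h2.symm h3 hxz h4 h5 hw.symm with e | e | e
    · exact absurd e hwx
    · exact absurd e hwz
    · exact absurd e hwy
  by_cases hy : NM G (flip X a) y
  · exact h.forced (flip X a) fun w => by
      by_cases hw : w = y
      · rw [hw]; exact hy
      · exact hoth w hw
  · have hk : KV G (flip X a) y := by
      intro b hb
      have h7 := mono_of_not hcub hy hb h3.symm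
      rw [h7, flip_self, flip_ne h3.ne']
      tauto
    exact h.one hxz (flip X a) y ⟨fun w hw _ => hoth w hw, hk, hk⟩

include hcub in
/-- the own neighbour of a long leg is an end -/
theorem St.leg_end (h : St R G X x z) (hR : (∀ a b, R a b ↔ a = b) ∨ (∀ a b, R a b ↔ a ≠ b))
    {r a a' b : V} (hr : r = x ∨ r = z) (hra : G.Adj r a) (hax : a ≠ x) (haz : a ≠ z)
    (haa : G.Adj a a') (hs : X a' ↔ X a) (hx' : a' ≠ x) (hz' : a' ≠ z)
    (hb : G.Adj a' b) (hbs : X b ↔ X a') : b = a := by
  by_contra hba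
  -- the other root
  obtain ⟨r', hr', hkr, hkr', hxr⟩ : ∃ r', ((r = x ∧ r' = z) ∨ (r = z ∧ r' = x)) ∧ KV G X r ∧
      KV G X r' ∧ PS G X r r' := by
    rcases hr with rfl | rfl
    · exact ⟨z, Or.inl ⟨rfl, rfl⟩, h.ps.kx, h.ps.kz, h.ps⟩
    · exact ⟨x, Or.inr ⟨rfl, rfl⟩, h.ps.kz, h.ps.kx, h.ps.symm⟩
  have har : a ≠ r := hra.ne'
  have har' : a ≠ r' := by rcases hr' with ⟨_, e⟩ | ⟨_, e⟩ <;> rw [e] <;> assumption
  have ha'r : r ≠ a' := by rcases hr' with ⟨e, _⟩ | ⟨e, _⟩ <;> rw [e] <;> exact Ne.symm ‹_›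
  have ha'r' : a' ≠ r' := by rcases hr' with ⟨_, e⟩ | ⟨_, e⟩ <;> rw [e] <;> assumption
  have hna := h.ps.nm a hax haz
  obtain ⟨y, h3, h4, h5, h6⟩ := leg_third hcub hna hra (hkr a hra) haa hs ha'r
  have hyr' : y ≠ r' := by
    rintro rfl
    exact h6 (hkr' a h3.symm).symm
  have hnr : NM G (flip X a) r := repaired hcub hkr hra (by rw [flip_self]; tauto)
    fun b _ hb => flip_ne hb
  have hoth : ∀ w, w ≠ y → w ≠ r' → NM G (flip X a) w := by
    intro w hwy hwr'
    by_cases hwr : w = r
    · rw [hwr]; exact hnr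
    refine flip_nm hcub (hxr.nm w hwr hwr') fun hw => ?_
    rcases row3 hcub hra.symm haa h3 ha'r h4 h5 hw.symm with e | e | e
    · exact absurd e hwr
    · subst e
      exact mem_pt.mpr ⟨haa, b, hba, hb, hbs.trans hs⟩
    · exact absurd e hwy
  have hky : ¬ NM G (flip X a) y → KV G (flip X a) y := by
    intro hy b hb
    have h7 := mono_of_not hcub hy hb h3.symm
    rw [h7, flip_self, flip_ne h3.ne']
    tauto
  -- the size
  have hcr : (cr G X a).card ≤ 1 := by
    have : cr G X a ⊆ {y} := by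
      intro w hw
      rw [Finset.mem_singleton]
      have hw := mem_cr.mp hw
      rcases row3 hcub hra.symm haa h3 ha'r h4 h5 hw.1 with e | e | e
      · subst e; exact absurd (hkr a hra).symm hw.2
      · subst e; exact absurd hs hw.2
      · exact e
    exact (Finset.card_le_card this).trans (by simp)
  have how : 2 ≤ (ow G X a).card := by
    have : ({r, a'} : Finset V) ⊆ ow G X a := by
      intro w hw
      rw [Finset.mem_insert, Finset.mem_singleton] at hw
      rcases hw with rfl | rfl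
      · exact mem_ow.mpr ⟨hra.symm, (hkr a hra).symm⟩
      · exact mem_ow.mpr ⟨haa, hs⟩
    rw [← Finset.card_pair ha'r]
    exact Finset.card_le_card this
  have hsz := ksize_flip (G := G) (X := X) a
  by_cases hrr : r = r'
  · -- one root
    have hy : ¬ NM G (flip X a) y := by
      intro hy
      exact h.forced (flip X a) fun w => by
        by_cases hw : w = y
        · rw [hw]; exact hy
        by_cases hwr : w = r
        · rw [hwr]; exact hnr
        · exact hoth w hw (by rw [← hrr]; exact hwr)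
    have hk := hky hy
    have hxz : x = z := by
      rcases hr' with ⟨e1, e2⟩ | ⟨e1, e2⟩
      · rw [← e1, ← e2]; exact hrr
      · rw [← e1, ← e2]; exact hrr.symm
    have hRel : R y y := by
      rcases hR with hR | hR
      · exact (hR y y).mpr rfl
      · exact absurd hxz ((hR x z).mp h.rel)
    have hmax := h.max (flip X a) y y hRel ⟨fun w hw _ => by
      by_cases hwr : w = r
      · rw [hwr]; exact hnr
      · exact hoth w hw (by rw [← hrr]; exact hwr), hk, hk⟩
    omega
  · have hxz : x ≠ z := by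
      rcases hr' with ⟨e1, e2⟩ | ⟨e1, e2⟩
      · rw [← e1, ← e2]; exact hrr
      · rw [← e1, ← e2]; exact Ne.symm hrr
    have hnadj : ¬ G.Adj r' a := by
      intro hadj
      rcases hr' with ⟨e1, e2⟩ | ⟨e1, e2⟩
      · subst e1; subst e2
        exact h.leg_disj hcub hxz hra hadj
      · subst e1; subst e2
        exact h.leg_disj hcub hxz hadj hra
    have hkr2 : KV G (flip X a) r' := by
      intro b hb
      rw [flip_ne har'.symm, flip_ne (fun e => hnadj (e ▸ hb) : b ≠ a)]
      exact hkr' b hb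
    have hy : ¬ NM G (flip X a) y := by
      intro hy
      refine h.one hxz (flip X a) r' ⟨fun w hw _ => ?_, hkr2, hkr2⟩
      by_cases hwy : w = y
      · rw [hwy]; exact hy
      · exact hoth w hwy hw
    have hRel : R y r' := by
      rcases hR with hR | hR
      · exact absurd ((hR x z).mp h.rel) hxz
      · exact (hR y r').mpr hyr'
    have hmax := h.max (flip X a) y r' hRel ⟨fun w hw hw' => hoth w hw hw', hky hy, hkr2⟩
    omega

end cubic

end Helper97.L9
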