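import Pool.Agent.helper33.L9.OffFacts
import Pool.Agent.helper97.L9.State

/-!
# Two adjacent roots

Maximal states with two adjacent roots `x`, `z`.  A tail is a leg `a` of `x` with own neighbour `a'`,
which has an own neighbour different from `a`.  The cross neighbour of a tail has no other cross
neighbour; the other leg of `x` is short (or is `a'`).  A short leg next to a long leg has a cross
neighbour without other cross neighbours.  If three legs are long then the fourth is short and both
cross neighbours have no other cross neighbour.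
-/

set_option linter.unusedSimpArgs false
set_option linter.unusedSectionVars false
set_option linter.unusedTactic false

namespace Helper97.L9

open Finset Classical Helper42.L9 Helper33.Off
open Helper33.L9 (cc ownR own_one cr_ow)

variable {V : Type*} [Fintype V] {G : SimpleGraph V} {X : V → Prop}

omit [Fintype V] in
theorem iff_aux {p q r : Prop} (h1 : ¬ (p ↔ q)) (h2 : q ↔ r) : p ↔ ¬ r := by tauto

/-- a flipped vertex and a fixed vertex of the same side -/
theorem nm_two {F : V → Prop} (hcub : ∀ v, (univ.filter fun b => G.Adj v b).card = 3)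
    {w u v : V} (hu : G.Adj w u) (hv : G.Adj w v) (hF : F u) (hF' : ¬ F v) (hs : X u ↔ X v) :
    NM G (flipS X F) w := by
  refine nm_of_two hcub hu hv ?_
  rw [flipS_pos hF, flipS_neg hF', hs]
  exact not_iff_self

theorem St.symm' {x z : V} (h : St G.Adj G X x z) : St G.Adj G X z x :=
  ⟨h.ps.symm, h.rel.symm, h.forced, fun e => h.one e.symm, h.max⟩

section cubic

variable (hcub : ∀ v, (univ.filter fun b => G.Adj v b).card = 3)

include hcub in
/-- a long vertex has another own neighbour -/
theorem own_other {w u : V} (hn : NM G X w) (h3 : cc G X w = 3) (hu : G.Adj w u)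
    (hs : X u ↔ X w) : ∃ v, v ≠ u ∧ G.Adj w v ∧ (X v ↔ X w) := by
  obtain ⟨a, b, hab, _, ha, hb⟩ := inner_own_pair hcub hn h3
  by_cases h : a = u
  · exact ⟨b, fun e => hab (h.trans e.symm), hb.1, hb.2.symm⟩
  · exact ⟨a, h, ha.1, ha.2.symm⟩

include hcub in
/-- a short vertex has only one own neighbour -/
theorem own_short {w u v : V} (h2 : cc G X w = 2) (hu : G.Adj w u) (hs : X u ↔ X w)
    (hv : G.Adj w v) (hs' : X v ↔ X w) : u = v :=
  own_one hcub h2 ⟨hu, hs.symm⟩ ⟨hv, hs'.symm⟩

/-- another cross neighbour -/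
theorem cr_other {w u : V} (hu : u ∈ cr G X w) (h : cr G X w ≠ {u}) :
    ∃ v, v ≠ u ∧ v ∈ cr G X w := by
  by_contra hcon
  push Not at hcon
  apply h
  ext v
  rw [Finset.mem_singleton]
  exact ⟨fun hv => by
    by_contra hne
    exact hcon v hne hv, fun hv => hv ▸ hu⟩

include hcub in
/-- `KV` of a vertex without `NM` -/
theorem kv_of_flip {F : V → Prop} {w u : V} (h : ¬ NM G (flipS X F) w) (hu : G.Adj w u)
    (hF : F u) (hF' : ¬ F w) (hs : ¬ (X u ↔ X w)) : KV G (flipS X F) w := by
  intro b hb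
  rw [mono_of_not hcub h hb hu, flipS_pos hF, flipS_neg hF']
  exact _root_.not_iff.mp hs

variable {x z : V}

include hcub in
/-- the legs of `x` are not adjacent to `z` -/
theorem St.nadj (h : St G.Adj G X x z) {a : V} (hxa : G.Adj x a) : ¬ G.Adj z a :=
  fun h1 => h.leg_disj hcub h.rel.ne hxa h1

theorem St.nroot (h : St G.Adj G X x z) {w u : V} (hu : u ∈ cr G X w) : u ≠ x ∧ u ≠ z := by
  have h1 := mem_cr.mp hu
  refine ⟨?_, ?_⟩
  · rintro rfl
    exact h1.2 (h.ps.kx w h1.1.symm).symm
  · rintro rfl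
    exact h1.2 (h.ps.kz w h1.1.symm).symm

include hcub in
/-- the cross neighbour of a tail -/
theorem St.tail1 (h : St G.Adj G X x z) {a a' b y : V} (hxa : G.Adj x a) (haz : a ≠ z)
    (haa : G.Adj a a') (hs : X a' ↔ X a) (hax : a' ≠ x) (hb : G.Adj a' b) (hbs : X b ↔ X a')
    (hba : b ≠ a) (hy : G.Adj a y) (h6 : ¬ (X y ↔ X a)) : cr G X y = {a} := by
  by_contra hcr
  have hay : a ∈ cr G X y := mem_cr.mpr ⟨hy.symm, fun e => h6 e.symm⟩
  obtain ⟨u, hua, hu⟩ := cr_other hay hcr
  have hkx := h.ps.kx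
  have hza : ¬ G.Adj z a := h.nadj hcub hxa
  have hka := hkx a hxa
  have h1 : x ≠ y := by
    rintro rfl
    exact h6 hka.symm
  have h2 : a' ≠ y := by
    rintro rfl
    exact h6 hs
  have key : ∀ w, w ≠ z → NM G (flipS X (fun v => v = a)) w := by
    intro w hwz
    by_cases hwx : w = x
    · subst hwx
      exact nm_two hcub hxa h.rel rfl (fun e => haz e.symm) (hka.trans (h.same h.rel))
    by_cases hwa' : w = a'
    · subst hwa'
      exact nm_two hcub haa.symm hb rfl hba (hs.symm.trans hbs.symm)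
    by_cases hwy : w = y
    · subst hwy
      have h3 := mem_cr.mp hu
      refine nm_two hcub hy.symm h3.1 rfl hua ?_
      have h4 := h3.2
      tauto
    · refine nm_flip_off (h.ps.nm w hwx hwz) fun v hv hwv => ?_
      have hv : v = a := hv
      subst hv
      rcases row3 hcub hxa.symm haa hy hax.symm h1 h2 hwv.symm with e | e | e
      · exact hwx e
      · exact hwa' e
      · exact hwy e
  have hkz : KV G (flipS X (fun v => v = a)) z := by
    intro c hc
    have hca : c ≠ a := fun e => hza (e ▸ hc)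
    rw [flipS_neg (F := fun v => v = a) hca, flipS_neg (F := fun v => v = a) haz.symm]
    exact h.ps.kz c hc
  exact h.one h.rel.ne _ z ⟨fun w hw _ => key w hw, hkz, hkz⟩

include hcub in
/-- the other leg at a tail -/
theorem St.tail2 (h : St G.Adj G X x z) {a a' b c : V} (hxa : G.Adj x a) (haz : a ≠ z)
    (haa : G.Adj a a') (hs : X a' ↔ X a) (hax : a' ≠ x) (hb : G.Adj a' b) (hbs : X b ↔ X a')
    (hba : b ≠ a) (hxc : G.Adj x c) (hcz : c ≠ z) (hca : c ≠ a) (hca' : c ≠ a') :
    cc G X c = 2 := by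
  by_contra hc2
  have hc3 : cc G X c = 3 := by
    unfold cc at hc2 ⊢
    split_ifs at hc2 ⊢ <;> simp_all
  have hkx := h.ps.kx
  have hka := hkx a hxa
  have hkc := hkx c hxc
  have hxz := h.rel
  have hza : ¬ G.Adj z a := h.nadj hcub hxa
  have ha'z : a' ≠ z := by
    rintro rfl
    exact hza haa.symm
  have hrow : ∀ w, G.Adj x w → w = a ∨ w = c ∨ w = z := fun w hw =>
    row3 hcub hxa hxc hxz hca.symm haz hcz hw
  have hxa' : ¬ G.Adj x a' := by
    intro h1
    rcases hrow a' h1 with e | e | e
    · exact haa.ne e.symm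
    · exact hca' e.symm
    · exact ha'z e
  have hbx : b ≠ x := by
    rintro rfl
    exact hxa' hb.symm
  obtain ⟨y, hy, h1, h2, h6⟩ := leg_third hcub (h.ps.nm a hxa.ne' haz) hxa hka.symm.symm haa hs
    hax.symm
  obtain ⟨c1, hc1x, hcc1, hsc1⟩ := own_other hcub (h.ps.nm c hxc.ne' hcz) hc3 hxc.symm hkc.symm
  have hc1a : c1 ≠ a := by
    rintro rfl
    rcases row3 hcub hxa.symm haa hy hax.symm h1 h2 hcc1.symm with e | e | e
    · exact hxc.ne e.symm
    · exact hca' e
    · subst e
      exact h6 hsc1.symm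
  obtain ⟨d, e', hzd, hze, hxd, hxe, hde⟩ := row_split hcub hxz.symm
  have hda : d ≠ a := by
    rintro rfl
    exact hza hzd
  have hFx : (fun v => v = x ∨ v = a) x := Or.inl rfl
  have hFa : (fun v => v = x ∨ v = a) a := Or.inr rfl
  have hFn : ∀ v, v ≠ x → v ≠ a → ¬ (fun v => v = x ∨ v = a) v := fun v h3 h4 h5 =>
    h5.elim h3 h4
  have hxy : x ≠ y := h1
  have key : ∀ w, w ≠ y → NM G (flipS X (fun v => v = x ∨ v = a)) w := by
    intro w hwy
    by_cases hwx : w = x
    · subst hwx
      exact nm_two hcub hxa hxc hFa (hFn c hxc.ne' hca) (hka.trans hkc.symm)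
    by_cases hwz : w = z
    · subst hwz
      exact nm_two hcub hxz.symm hzd hFx (hFn d hxd.symm hda)
        ((h.same hxz).trans (h.ps.kz d hzd).symm)
    by_cases hwa : w = a
    · subst hwa
      exact nm_two hcub hxa.symm haa hFx (hFn a' hax haa.ne') (hka.symm.trans hs.symm)
    by_cases hwc : w = c
    · subst hwc
      exact nm_two hcub hxc.symm hcc1 hFx (hFn c1 hc1x hc1a) (hkc.symm.trans hsc1.symm)
    by_cases hwa' : w = a'
    · subst hwa'
      exact nm_two hcub haa.symm hb hFa (hFn b hbx hba) (hs.symm.trans hbs.symm)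
    · refine nm_flip_off (h.ps.nm w hwx hwz) fun v hv hwv => ?_
      rcases hv with hv | hv
      · subst hv
        rcases hrow w hwv.symm with e | e | e
        · exact hwa e
        · exact hwc e
        · exact hwz e
      · subst hv
        rcases row3 hcub hxa.symm haa hy hax.symm h1 h2 hwv.symm with e | e | e
        · exact hwx e
        · exact hwa' e
        · exact hwy e
  by_cases hny : NM G (flipS X (fun v => v = x ∨ v = a)) y
  · exact h.forced _ fun w => by
      by_cases hw : w = y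
      · rw [hw]; exact hny
      · exact key w hw
  · have hk := kv_of_flip hcub hny hy.symm hFa (hFn y h1.symm hy.ne') (fun e => h6 e.symm)
    exact h.one hxz.ne _ y ⟨fun w hw _ => key w hw, hk, hk⟩

include hcub in
/-- a short leg next to a long leg has a dead slot -/
theorem St.half (h : St G.Adj G X x z) {a b : V} (hxa : G.Adj x a) (haz : a ≠ z)
    (hxb : G.Adj x b) (hbz : b ≠ z) (hab : a ≠ b) (ha3 : cc G X a = 3) (hb2 : cc G X b = 2) :
    ∃ g ∈ cr G X b, cr G X g = {b} := by
  by_contra hcon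
  push Not at hcon
  have hkx := h.ps.kx
  have hka := hkx a hxa
  have hkb := hkx b hxb
  have hxz := h.rel
  have hrow : ∀ w, G.Adj x w → w = a ∨ w = b ∨ w = z := fun w hw =>
    row3 hcub hxa hxb hxz hab haz hbz hw
  obtain ⟨a1, ha1x, haa1, hsa1⟩ := own_other hcub (h.ps.nm a hxa.ne' haz) ha3 hxa.symm hka.symm
  have ha1b : a1 ≠ b := by
    rintro rfl
    exact hxa.ne (own_short hcub hb2 hxb.symm hkb.symm haa1.symm hsa1.symm)
  obtain ⟨d, e', hzd, hze, hxd, hxe, hde⟩ := row_split hcub hxz.symm
  have hdb : d ≠ b := by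
    rintro rfl
    exact h.nadj hcub hxb hzd
  have hFx : (fun v => v = x ∨ v = b) x := Or.inl rfl
  have hFb : (fun v => v = x ∨ v = b) b := Or.inr rfl
  have hFn : ∀ v, v ≠ x → v ≠ b → ¬ (fun v => v = x ∨ v = b) v := fun v h3 h4 h5 =>
    h5.elim h3 h4
  have key : ∀ w, w ≠ b → NM G (flipS X (fun v => v = x ∨ v = b)) w := by
    intro w hwb
    by_cases hwx : w = x
    · subst hwx
      exact nm_two hcub hxb hxa hFb (hFn a hxa.ne' hab) (hkb.trans hka.symm)
    by_cases hwz : w = z
    · subst hwz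
      exact nm_two hcub hxz.symm hzd hFx (hFn d hxd.symm hdb)
        ((h.same hxz).trans (h.ps.kz d hzd).symm)
    by_cases hwa : w = a
    · subst hwa
      exact nm_two hcub hxa.symm haa1 hFx (hFn a1 ha1x ha1b) (hka.symm.trans hsa1.symm)
    by_cases hbw : G.Adj b w
    · -- cross neighbours of `b`
      have hsw : ¬ (X w ↔ X b) := fun e =>
        hwx (own_short hcub hb2 hxb.symm hkb.symm hbw e).symm
      have hbcr : b ∈ cr G X w := mem_cr.mpr ⟨hbw.symm, fun e => hsw e.symm⟩
      obtain ⟨u, hub, hu⟩ := cr_other hbcr (hcon w (mem_cr.mpr ⟨hbw, hsw⟩))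
      have h3 := mem_cr.mp hu
      refine nm_two hcub hbw.symm h3.1 hFb (hFn u (h.nroot hu).1 hub) ?_
      have h4 := h3.2
      tauto
    · refine nm_flip_off (h.ps.nm w hwx hwz) fun v hv hwv => ?_
      rcases hv with hv | hv
      · subst hv
        rcases hrow w hwv.symm with e | e | e
        · exact hwa e
        · exact hwb e
        · exact hwz e
      · subst hv
        exact hbw hwv.symm
  have hk : KV G (flipS X (fun v => v = x ∨ v = b)) b := by
    intro w hbw
    rw [flipS_pos (F := fun v => v = x ∨ v = b) hFb]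
    by_cases hwx : w = x
    · subst hwx
      rw [flipS_pos (F := fun v => v = w ∨ v = b) hFx, not_iff_not]
      exact hkb.symm
    · have hsw : ¬ (X w ↔ X b) := fun e =>
        hwx (own_short hcub hb2 hxb.symm hkb.symm hbw e).symm
      rw [flipS_neg (F := fun v => v = x ∨ v = b) (hFn w hwx hbw.ne')]
      tauto
  exact h.one hxz.ne _ b ⟨fun w hw _ => key w hw, hk, hk⟩

include hcub in
/-- not all legs are long -/
theorem St.not_all (h : St G.Adj G X x z)
    (hall : ∀ c, c ≠ x → c ≠ z → (G.Adj x c ∨ G.Adj z c) → cc G X c = 3) : False := by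
  have hxz := h.rel
  have hFx : (fun v => v = x ∨ v = z) x := Or.inl rfl
  have hFz : (fun v => v = x ∨ v = z) z := Or.inr rfl
  have hFn : ∀ v, v ≠ x → v ≠ z → ¬ (fun v => v = x ∨ v = z) v := fun v h3 h4 h5 =>
    h5.elim h3 h4
  obtain ⟨d, _, hzd, _, hxd, _, _⟩ := row_split hcub hxz.symm
  obtain ⟨a, _, hxa, _, hza, _, _⟩ := row_split hcub hxz
  refine h.forced (flipS X (fun v => v = x ∨ v = z)) fun w => ?_
  by_cases hwx : w = x
  · subst hwx
    exact nm_two hcub hxz hxa hFz (hFn a hxa.ne' hza.symm) ((h.same hxz).symm.trans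
      (h.ps.kx a hxa).symm)
  by_cases hwz : w = z
  · subst hwz
    exact nm_two hcub hxz.symm hzd hFx (hFn d hxd.symm hzd.ne') ((h.same hxz).trans
      (h.ps.kz d hzd).symm)
  by_cases h1 : G.Adj x w
  · have hk := h.ps.kx w h1
    obtain ⟨u, hux, hwu, hsu⟩ := own_other hcub (h.ps.nm w hwx hwz) (hall w hwx hwz (Or.inl h1))
      h1.symm hk.symm
    have huz : u ≠ z := by
      rintro rfl
      exact h.nadj hcub h1 hwu.symm
    exact nm_two hcub h1.symm hwu hFx (hFn u hux huz) (hk.symm.trans hsu.symm)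
  by_cases h2 : G.Adj z w
  · have hk := h.ps.kz w h2
    obtain ⟨u, huz, hwu, hsu⟩ := own_other hcub (h.ps.nm w hwx hwz) (hall w hwx hwz (Or.inr h2))
      h2.symm hk.symm
    have hux : u ≠ x := by
      rintro rfl
      exact h1 hwu.symm
    exact nm_two hcub h2.symm hwu hFz (hFn u hux huz) (hk.symm.trans hsu.symm)
  · refine nm_flip_off (h.ps.nm w hwx hwz) fun v hv hwv => ?_
    rcases hv with hv | hv
    · subst hv
      exact h1 hwv.symm
    · subst hv
      exact h2 hwv.symm

include hcub in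
/-- the cut size after the flip of both roots and a short leg -/
theorem ksize_three (h : St G.Adj G X x z) {b : V} (hxb : G.Adj x b) (hbz : b ≠ z)
    (hb2 : cc G X b = 2) :
    ksize G (flip (flip (flip X x) z) b) = ksize G X + 2 := by
  have hxz := h.rel
  obtain ⟨d, e, hzd, hze, hxd, hxe, hde⟩ := row_split hcub hxz.symm
  obtain ⟨g1, g2, hbg1, hbg2, hxg1, hxg2, hg⟩ := row_split hcub hxb.symm
  have hkb := h.ps.kx b hxb
  have hs1 : ¬ (X g1 ↔ X b) := fun e =>
    hxg1 (own_short hcub hb2 hxb.symm hkb.symm hbg1 e)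
  have hs2 : ¬ (X g2 ↔ X b) := fun e =>
    hxg2 (own_short hcub hb2 hxb.symm hkb.symm hbg2 e)
  have n1 : g1 ≠ z := by
    rintro rfl
    exact h.nadj hcub hxb hbg1.symm
  have n2 : g2 ≠ z := by
    rintro rfl
    exact h.nadj hcub hxb hbg2.symm
  -- first flip
  have k1 := ksize_flip (G := G) (X := X) x
  have c1 : (cr G X x).card = 0 := by
    rw [Finset.card_eq_zero, Finset.eq_empty_iff_forall_notMem]
    intro a ha
    have := mem_cr.mp ha
    exact this.2 (h.ps.kx a this.1)
  have o1 := cr_ow (X := X) hcub x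
  -- second flip
  have k2 := ksize_flip (G := G) (X := flip X x) z
  have c2 : cr G (flip X x) z = {x} := by
    ext w
    rw [mem_cr, Finset.mem_singleton]
    constructor
    · rintro ⟨h1, h2⟩
      by_contra hne
      rw [flip_ne hne, flip_ne hxz.ne'] at h2
      exact h2 (h.ps.kz w h1)
    · rintro rfl
      refine ⟨hxz.symm, ?_⟩
      rw [flip_self, flip_ne hxz.ne']
      have := h.same hxz
      tauto
  have o2 := cr_ow (X := flip X x) hcub z
  -- third flip
  have k3 := ksize_flip (G := G) (X := flip (flip X x) z) b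
  have c3 : ow G (flip (flip X x) z) b = ∅ := by
    rw [Finset.eq_empty_iff_forall_notMem]
    intro w hw
    obtain ⟨h1, h2⟩ := mem_ow.mp hw
    rw [flip_ne hbz, flip_ne hxb.ne'] at h2
    rcases row3 hcub hxb.symm hbg1 hbg2 hxg1 hxg2 hg h1 with r | r | r
    · subst r
      rw [flip_ne hxz.ne, flip_self] at h2
      tauto
    · subst r
      rw [flip_ne n1, flip_ne hxg1.symm] at h2
      exact hs1 h2
    · subst r
      rw [flip_ne n2, flip_ne hxg2.symm] at h2
      exact hs2 h2
  have o3 := cr_ow (X := flip (flip X x) z) hcub b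
  rw [c2, Finset.card_singleton] at k2 o2
  rw [c3, Finset.card_empty] at k3 o3
  omega

include hcub in
/-- three long legs: the fourth is short and dead -/
theorem St.dead (h : St G.Adj G X x z) {b : V} (hxb : G.Adj x b) (hbz : b ≠ z)
    (hall : ∀ c, c ≠ x → c ≠ z → (G.Adj x c ∨ G.Adj z c) → c ≠ b → cc G X c = 3) :
    cc G X b = 2 ∧ ∀ g ∈ cr G X b, cr G X g = {b} := by
  have hb2 : cc G X b = 2 := by
    by_contra hb2
    have hb3 : cc G X b = 3 := by
      unfold cc at hb2 ⊢
      split_ifs at hb2 ⊢ <;> simp_all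
    exact h.not_all hcub fun c h1 h2 h3 => by
      by_cases h4 : c = b
      · rw [h4]; exact hb3
      · exact hall c h1 h2 h3 h4
  refine ⟨hb2, ?_⟩
  have hxz := h.rel
  have hkb := h.ps.kx b hxb
  set Y : V → Prop := flip (flip (flip X x) z) b with hY
  have hYb : Y b ↔ ¬ X b := by
    rw [hY, flip_self, flip_ne hbz, flip_ne hxb.ne']
  have hYx : Y x ↔ ¬ X x := by
    rw [hY, flip_ne hxb.ne, flip_ne hxz.ne, flip_self]
  have hYz : Y z ↔ ¬ X z := by
    rw [hY, flip_ne hbz.symm, flip_self, flip_ne hxz.ne']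
  have hYn : ∀ w, w ≠ x → w ≠ z → w ≠ b → (Y w ↔ X w) := by
    intro w h1 h2 h3
    rw [hY, flip_ne h3, flip_ne h2, flip_ne h1]
  have two : ∀ {w u v : V}, G.Adj w u → G.Adj w v → (Y u ↔ ¬ X u) → (Y v ↔ X v) →
      (X u ↔ X v) → NM G Y w := by
    intro w u v h1 h2 h3 h4 h5
    refine nm_of_two hcub h1 h2 ?_
    rw [h3, h4, h5]
    exact not_iff_self
  obtain ⟨a, hxa, hza, hba⟩ := row_third hcub hxz hxb hbz.symm
  obtain ⟨d, e, hzd, hze, hxd, hxe, hde⟩ := row_split hcub hxz.symm
  have hdb : d ≠ b := by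
    rintro rfl
    exact h.nadj hcub hxb hzd
  -- long legs
  have long : ∀ c, c ≠ x → c ≠ z → (G.Adj x c ∨ G.Adj z c) → c ≠ b → NM G Y c := by
    intro c h1 h2 h3 h4
    have h5 := hall c h1 h2 h3 h4
    obtain ⟨r, hrc, hr, hkr⟩ : ∃ r, G.Adj r c ∧ (r = x ∨ r = z) ∧ (X c ↔ X r) := by
      rcases h3 with h3 | h3
      · exact ⟨x, h3, Or.inl rfl, h.ps.kx c h3⟩
      · exact ⟨z, h3, Or.inr rfl, h.ps.kz c h3⟩
    obtain ⟨u, hur, hcu, hsu⟩ := own_other hcub (h.ps.nm c h1 h2) h5 hrc.symm hkr.symm
    have hux : u ≠ x := by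
      rintro rfl
      rcases hr with rfl | rfl
      · exact hur rfl
      · exact h.nadj hcub hcu.symm hrc
    have huz : u ≠ z := by
      rintro rfl
      rcases hr with rfl | rfl
      · exact h.nadj hcub hrc hcu.symm
      · exact hur rfl
    have hub : u ≠ b := by
      rintro rfl
      exact h1 (own_short hcub hb2 hcu.symm hsu.symm hxb.symm hkb.symm)
    have hYr : Y r ↔ ¬ X r := by rcases hr with rfl | rfl <;> assumption
    exact two hrc.symm hcu hYr (hYn u hux huz hub) (hkr.symm.trans hsu.symm)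
  have hkvb : KV G Y b := by
    intro w hbw
    by_cases hwx : w = x
    · subst hwx
      rw [hYb, hYx, not_iff_not]
      exact hkb.symm
    · have hsw : ¬ (X w ↔ X b) := fun e =>
        hwx (own_short hcub hb2 hxb.symm hkb.symm hbw e).symm
      have hwz : w ≠ z := by
        rintro rfl
        exact h.nadj hcub hxb hbw.symm
      rw [hYb, hYn w hwx hwz hbw.ne']
      tauto
  -- everything except `b` and its cross neighbours
  have key : ∀ w, w ≠ b → w ∉ cr G X b → NM G Y w := by
    intro w hwb hwc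
    by_cases hwx : w = x
    · subst hwx
      exact two hxb hxa hYb (hYn a hxa.ne' hza.symm hba.symm)
        (hkb.trans (h.ps.kx a hxa).symm)
    by_cases hwz : w = z
    · subst hwz
      exact two hxz.symm hzd hYx (hYn d hxd.symm hzd.ne' hdb)
        ((h.same hxz).trans (h.ps.kz d hzd).symm)
    by_cases h1 : G.Adj x w ∨ G.Adj z w
    · exact long w hwx hwz h1 hwb
    · push Not at h1
      have hwb' : ¬ G.Adj w b := by
        intro h2
        by_cases h3 : X w ↔ X b
        · exact hwx (own_short hcub hb2 h2.symm h3 hxb.symm hkb.symm)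
        · exact hwc (mem_cr.mpr ⟨h2.symm, h3⟩)
      intro p q r hp hq hr hpq hpr hqr hh
      have f : ∀ v, G.Adj w v → (Y v ↔ X v) := fun v hv =>
        hYn v (fun e => h1.1 (e ▸ hv.symm)) (fun e => h1.2 (e ▸ hv.symm))
          (fun e => hwb' (e ▸ hv))
      rw [f p hp, f q hq, f r hr] at hh
      exact h.ps.nm w hwx hwz p q r hp hq hr hpq hpr hqr hh
  have cross : ∀ g ∈ cr G X b, cr G X g ≠ {b} → NM G Y g := by
    intro g hg hne
    have h1 := mem_cr.mp hg
    have hbcr : b ∈ cr G X g := mem_cr.mpr ⟨h1.1.symm, fun e => h1.2 e.symm⟩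
    obtain ⟨u, hub, hu⟩ := cr_other hbcr hne
    have h3 := mem_cr.mp hu
    have h5 := h.nroot hu
    refine two h1.1.symm h3.1 hYb (hYn u h5.1 h5.2 hub) ?_
    have h4 := h3.2
    have h6 := h1.2
    tauto
  intro g hg
  by_contra hne
  have hng := cross g hg hne
  -- the other cross neighbour
  have h2' := Helper33.Off.cc_two.mp hb2
  obtain ⟨g', hg', hgg⟩ := Finset.exists_mem_ne (s := cr G X b) (by omega) g
  have hpair : ∀ w ∈ cr G X b, w = g ∨ w = g' := by
    have h3 : ({g, g'} : Finset V) = cr G X b := by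
      refine Finset.eq_of_subset_of_card_le ?_ (by rw [Finset.card_pair hgg.symm]; omega)
      intro w hw
      rw [Finset.mem_insert, Finset.mem_singleton] at hw
      rcases hw with rfl | rfl <;> assumption
    intro w hw
    rw [← h3, Finset.mem_insert, Finset.mem_singleton] at hw
    exact hw
  by_cases hng' : NM G Y g'
  · refine h.one hxz.ne Y b ⟨fun w hw _ => ?_, hkvb, hkvb⟩
    by_cases hwc : w ∈ cr G X b
    · rcases hpair w hwc with rfl | rfl <;> assumption
    · exact key w hw hwc
  · have h1 := mem_cr.mp hg'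
    have hk : KV G Y g' := by
      intro w hw
      rw [mono_of_not hcub hng' hw h1.1.symm, hYb, hYn g' ?_ ?_ h1.1.ne']
      · have := h1.2
        tauto
      · exact (h.nroot hg').1
      · exact (h.nroot hg').2
    have := h.max Y b g' h1.1 ⟨fun w hw hw' => by
      by_cases hwc : w ∈ cr G X b
      · rcases hpair w hwc with rfl | rfl
        · exact hng
        · exact absurd rfl hw'
      · exact key w hw hwc, hkvb, hk⟩
    have hsz := ksize_three hcub h hxb hbz hb2
    rw [← hY] at hsz
    omega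

end cubic

end Helper97.L9
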